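import Pool.Agent.Sqz.Spec

/-!
# Job J1a: derivatives of holomorphic functions are holomorphic

For `f` complex differentiable on an open set of a complex normed space, with values in a complex
Banach space, the directional derivatives are complex differentiable, and `f` is smooth if the
space is finite dimensional.
-/

set_option autoImplicit false

open Metric Set Filter Topology

namespace Sqz

namespace Hol

variable {E F : Type*} [NormedAddCommGroup E] [NormedSpace ℂ E] [NormedAddCommGroup F]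
  [NormedSpace ℂ F]

/-- Cauchy's estimate. -/
lemma cauchy_est {f : E → F} {c : E} {R M : ℝ} (hR : 0 < R)
    (hd : DifferentiableOn ℂ f (ball c R)) (hM : ∀ z ∈ ball c R, ‖f z‖ ≤ M) :
    ‖fderiv ℂ f c‖ ≤ 2 * M / R := by
  refine Complex.norm_fderiv_le_div_of_mapsTo_ball hd (fun z hz => ?_) hR
  rw [mem_closedBall, dist_eq_norm]
  calc ‖f z - f c‖ ≤ ‖f z‖ + ‖f c‖ := norm_sub_le _ _
    _ ≤ M + M := add_le_add (hM z hz) (hM c (mem_ball_self hR))
    _ = 2 * M := by ring

/-- The derivative of a holomorphic map is locally Lipschitz. -/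
lemma fderiv_lip {U : Set E} {f : E → F} (hU : IsOpen U) (hf : DifferentiableOn ℂ f U) {z₀ : E}
    (hz₀ : z₀ ∈ U) : ∃ r > 0, ∃ K ≥ 0, ball z₀ r ⊆ U ∧
      ∀ z ∈ ball z₀ r, ∀ w ∈ ball z₀ r, ‖fderiv ℂ f z - fderiv ℂ f w‖ ≤ K * ‖z - w‖ := by
  have hc : ContinuousAt f z₀ := (hf.differentiableAt (hU.mem_nhds hz₀)).continuousAt
  have h1 : ∀ᶠ z in 𝓝 z₀, z ∈ U ∧ ‖f z - f z₀‖ < 1 := by
    refine (hU.eventually_mem hz₀).and ?_
    have := Metric.continuousAt_iff.1 hc 1 one_pos
    obtain ⟨δ, hδ, h⟩ := this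
    filter_upwards [ball_mem_nhds z₀ hδ] with z hz
    simpa [dist_eq_norm] using h hz
  obtain ⟨ρ, hρ, hball⟩ := Metric.eventually_nhds_iff_ball.1 h1
  set M : ℝ := ‖f z₀‖ + 1 with hM
  have hMpos : 0 < M := by positivity
  have hbd : ∀ z ∈ ball z₀ ρ, ‖f z‖ ≤ M := by
    intro z hz
    have := (hball z hz).2
    calc ‖f z‖ = ‖(f z - f z₀) + f z₀‖ := by rw [sub_add_cancel]
      _ ≤ ‖f z - f z₀‖ + ‖f z₀‖ := norm_add_le _ _
      _ ≤ M := by rw [hM]; linarith
  have hsub : ball z₀ ρ ⊆ U := fun z hz => (hball z hz).1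
  have hd : ∀ z ∈ ball z₀ ρ, DifferentiableAt ℂ f z := fun z hz =>
    hf.differentiableAt (hU.mem_nhds (hsub hz))
  -- first bound
  set K1 : ℝ := 2 * M / (ρ / 2) with hK1
  have hK1pos : 0 < K1 := by positivity
  have hb1 : ∀ z ∈ ball z₀ (ρ / 2), ‖fderiv ℂ f z‖ ≤ K1 := by
    intro z hz
    have hsub2 : ball z (ρ / 2) ⊆ ball z₀ ρ := by
      apply ball_subset_ball'
      rw [mem_ball] at hz
      linarith
    exact cauchy_est (by positivity) (fun x hx => (hd x (hsub2 hx)).differentiableWithinAt)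
      (fun x hx => hbd x (hsub2 hx))
  refine ⟨ρ / 4, by positivity, 2 * K1 / (ρ / 8), by positivity,
    (ball_subset_ball (by linarith)).trans hsub, fun z hz w hw => ?_⟩
  set g : E → F := fun x => f (x + (z - w)) - f x with hg
  have hx1 : ∀ x ∈ ball w (ρ / 8), x ∈ ball z₀ (ρ / 2) := by
    intro x hx
    rw [mem_ball] at *
    calc dist x z₀ ≤ dist x w + dist w z₀ := dist_triangle _ _ _
      _ < ρ / 8 + ρ / 4 := add_lt_add hx hw
      _ ≤ ρ / 2 := by linarith
  have hx2 : ∀ x ∈ ball w (ρ / 8), x + (z - w) ∈ ball z₀ (ρ / 2) := by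
    intro x hx
    rw [mem_ball] at *
    have e : dist (x + (z - w)) z = dist x w := by
      rw [dist_eq_norm, dist_eq_norm]; congr 1; abel
    calc dist (x + (z - w)) z₀ ≤ dist (x + (z - w)) z + dist z z₀ := dist_triangle _ _ _
      _ < ρ / 8 + ρ / 4 := by rw [e]; exact add_lt_add hx hz
      _ ≤ ρ / 2 := by linarith
  have hhalf : ball z₀ (ρ / 2) ⊆ ball z₀ ρ := ball_subset_ball (by linarith)
  have hgd : ∀ x ∈ ball w (ρ / 8), HasFDerivAt g (fderiv ℂ f (x + (z - w)) - fderiv ℂ f x) x := by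
    intro x hx
    have h1 := (hd _ (hhalf (hx2 x hx))).hasFDerivAt
    have h2 := (hd _ (hhalf (hx1 x hx))).hasFDerivAt
    have h3 : HasFDerivAt (fun x => f (x + (z - w))) (fderiv ℂ f (x + (z - w))) x := by
      have := HasFDerivAt.comp x h1 ((hasFDerivAt_id x).add_const (z - w))
      rwa [ContinuousLinearMap.comp_id] at this
    exact h3.sub h2
  have hgb : ∀ x ∈ ball w (ρ / 8), ‖g x‖ ≤ K1 * ‖z - w‖ := by
    intro x hx
    have := (convex_ball z₀ (ρ / 2)).norm_image_sub_le_of_norm_fderiv_le (𝕜 := ℂ) (f := f)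
      (fun y hy => hd y (hhalf hy)) hb1 (hx1 x hx) (hx2 x hx)
    simpa [hg] using this
  have hfin := cauchy_est (by positivity)
    (fun x hx => (hgd x hx).differentiableAt.differentiableWithinAt) hgb
  have hw' : w ∈ ball w (ρ / 8) := mem_ball_self (by positivity)
  rw [(hgd w hw').fderiv, add_sub_cancel] at hfin
  calc ‖fderiv ℂ f z - fderiv ℂ f w‖ ≤ 2 * (K1 * ‖z - w‖) / (ρ / 8) := hfin
    _ = 2 * K1 / (ρ / 8) * ‖z - w‖ := by ring

/-- Directional derivatives of holomorphic maps are holomorphic. -/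
theorem differentiableOn_fderiv_apply [CompleteSpace F] {U : Set E} {f : E → F} (hU : IsOpen U)
    (hf : DifferentiableOn ℂ f U) (X : E) : DifferentiableOn ℂ (fun z => fderiv ℂ f z X) U := by
  intro z₀ hz₀
  obtain ⟨r, hr, K, hK, hrU, hlip⟩ := fderiv_lip hU hf hz₀
  have hd : ∀ z ∈ ball z₀ r, DifferentiableAt ℂ f z := fun z hz =>
    hf.differentiableAt (hU.mem_nhds (hrU hz))
  -- the step sizes
  set t : ℕ → ℝ := fun n => (r / 4) / ((‖X‖ + 1) * ((n : ℝ) + 1)) with ht
  have htpos : ∀ n, 0 < t n := fun n => by simp only [ht]; positivity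
  have htX : ∀ n, t n * ‖X‖ < r / 4 := by
    intro n
    have h1 : t n * ((‖X‖ + 1) * ((n : ℝ) + 1)) = r / 4 := by
      simp only [ht]; field_simp
    have h2 : ‖X‖ < (‖X‖ + 1) * ((n : ℝ) + 1) := by
      have := norm_nonneg X
      have hn : (0 : ℝ) ≤ n := Nat.cast_nonneg n
      nlinarith [mul_nonneg this hn]
    calc t n * ‖X‖ < t n * ((‖X‖ + 1) * ((n : ℝ) + 1)) := mul_lt_mul_of_pos_left h2 (htpos n)
      _ = r / 4 := h1
  have ht0 : Tendsto t atTop (𝓝 0) := by
    have h1 : Tendsto (fun n : ℕ => (r / 4 / (‖X‖ + 1)) * (1 / ((n : ℝ) + 1))) atTop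
        (𝓝 ((r / 4 / (‖X‖ + 1)) * 0)) := tendsto_one_div_add_atTop_nhds_zero_nat.const_mul _
    rw [mul_zero] at h1
    refine h1.congr fun n => ?_
    simp only [ht]
    field_simp
  -- the difference quotients
  set q : ℕ → E → F := fun n z => ((t n)⁻¹ : ℂ) • (f (z + (t n : ℂ) • X) - f z) with hq
  set q' : ℕ → E → (E →L[ℂ] F) := fun n z =>
    ((t n)⁻¹ : ℂ) • (fderiv ℂ f (z + (t n : ℂ) • X) - fderiv ℂ f z) with hq'
  have hnX : ∀ n, ‖(t n : ℂ) • X‖ = t n * ‖X‖ := by
    intro n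
    rw [norm_smul, Complex.norm_real, Real.norm_eq_abs, abs_of_pos (htpos n)]
  have hshift : ∀ n, ∀ z ∈ ball z₀ (r / 2), z + (t n : ℂ) • X ∈ ball z₀ r := by
    intro n z hz
    rw [mem_ball] at *
    calc dist (z + (t n : ℂ) • X) z₀ ≤ dist (z + (t n : ℂ) • X) z + dist z z₀ :=
          dist_triangle _ _ _
      _ < r / 4 + r / 2 := by
          refine add_lt_add ?_ hz
          rw [dist_eq_norm, add_sub_cancel_left, hnX]
          exact htX n
      _ ≤ r := by linarith
  have hhalf : ball z₀ (r / 2) ⊆ ball z₀ r := ball_subset_ball (by linarith)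
  have hqd : ∀ n, ∀ z ∈ ball z₀ (r / 2), HasFDerivAt (q n) (q' n z) z := by
    intro n z hz
    have h1 := (hd _ (hshift n z hz)).hasFDerivAt
    have h2 := (hd _ (hhalf hz)).hasFDerivAt
    have h3 : HasFDerivAt (fun z => f (z + (t n : ℂ) • X)) (fderiv ℂ f (z + (t n : ℂ) • X)) z := by
      have := HasFDerivAt.comp z h1 ((hasFDerivAt_id z).add_const ((t n : ℂ) • X))
      rwa [ContinuousLinearMap.comp_id] at this
    exact (h3.sub h2).const_smul _
  have hqe : ∀ n, ∀ z ∈ ball z₀ (r / 2), ‖q n z - fderiv ℂ f z X‖ ≤ K * ‖X‖ ^ 2 * t n := by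
    intro n z hz
    set s : Set E := ball z₀ r ∩ closedBall z (t n * ‖X‖) with hs
    have hsconv : Convex ℝ s := (convex_ball _ _).inter (convex_closedBall _ _)
    have hzs : z ∈ s := ⟨hhalf hz, mem_closedBall_self (by positivity)⟩
    have hzs' : z + (t n : ℂ) • X ∈ s := by
      refine ⟨hshift n z hz, ?_⟩
      rw [mem_closedBall, dist_eq_norm, add_sub_cancel_left, hnX]
    have hb : ∀ x ∈ s, ‖fderiv ℂ f x - fderiv ℂ f z‖ ≤ K * (t n * ‖X‖) := by
      intro x hx
      refine (hlip x hx.1 z (hhalf hz)).trans ?_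
      refine mul_le_mul_of_nonneg_left ?_ hK
      have := hx.2
      rwa [mem_closedBall, dist_eq_norm] at this
    have h1 := hsconv.norm_image_sub_le_of_norm_fderiv_le' (𝕜 := ℂ) (f := f)
      (fun x hx => hd x hx.1) hb hzs hzs'
    rw [add_sub_cancel_left, hnX, map_smul] at h1
    have htne : (t n : ℂ) ≠ 0 := by exact_mod_cast (htpos n).ne'
    have h2 : q n z - fderiv ℂ f z X = ((t n)⁻¹ : ℂ) •
        (f (z + (t n : ℂ) • X) - f z - (t n : ℂ) • fderiv ℂ f z X) := by
      simp only [hq]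
      rw [smul_sub ((t n)⁻¹ : ℂ) (f (z + (t n : ℂ) • X) - f z), smul_smul, inv_mul_cancel₀ htne,
        one_smul]
    rw [h2, norm_smul, norm_inv, Complex.norm_real, Real.norm_eq_abs, abs_of_pos (htpos n)]
    calc (t n)⁻¹ * ‖f (z + (t n : ℂ) • X) - f z - (t n : ℂ) • fderiv ℂ f z X‖
        ≤ (t n)⁻¹ * (K * (t n * ‖X‖) * (t n * ‖X‖)) :=
          mul_le_mul_of_nonneg_left h1 (inv_nonneg.2 (htpos n).le)
      _ = K * ‖X‖ ^ 2 * t n := by
          have := (htpos n).ne'
          field_simp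
  -- uniform Cauchy property of the derivatives
  have hcau : ∀ n m, ∀ z ∈ ball z₀ (r / 4),
      ‖q' n z - q' m z‖ ≤ 8 * K * ‖X‖ ^ 2 / r * (t n + t m) := by
    intro n m z hz
    have hsub : ball z (r / 4) ⊆ ball z₀ (r / 2) := by
      apply ball_subset_ball'
      rw [mem_ball] at hz
      linarith
    have hdd : ∀ x ∈ ball z (r / 4), HasFDerivAt (fun x => q n x - q m x) (q' n x - q' m x) x :=
      fun x hx => (hqd n x (hsub hx)).sub (hqd m x (hsub hx))
    have hbb : ∀ x ∈ ball z (r / 4), ‖q n x - q m x‖ ≤ K * ‖X‖ ^ 2 * (t n + t m) := by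
      intro x hx
      have h1 := hqe n x (hsub hx)
      have h2 := hqe m x (hsub hx)
      calc ‖q n x - q m x‖ = ‖(q n x - fderiv ℂ f x X) - (q m x - fderiv ℂ f x X)‖ := by
            congr 1; abel
        _ ≤ ‖q n x - fderiv ℂ f x X‖ + ‖q m x - fderiv ℂ f x X‖ := norm_sub_le _ _
        _ ≤ K * ‖X‖ ^ 2 * t n + K * ‖X‖ ^ 2 * t m := add_le_add h1 h2
        _ = K * ‖X‖ ^ 2 * (t n + t m) := by ring
    have := cauchy_est (by positivity)
      (fun x hx => (hdd x hx).differentiableAt.differentiableWithinAt) hbb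
    rw [(hdd z (mem_ball_self (by positivity))).fderiv] at this
    calc ‖q' n z - q' m z‖ ≤ 2 * (K * ‖X‖ ^ 2 * (t n + t m)) / (r / 4) := this
      _ = 8 * K * ‖X‖ ^ 2 / r * (t n + t m) := by field_simp; ring
  set A : ℝ := 8 * K * ‖X‖ ^ 2 / r with hA
  have hA0 : 0 ≤ A := by positivity
  have hucs : UniformCauchySeqOn q' atTop (ball z₀ (r / 4)) := by
    rw [Metric.uniformCauchySeqOn_iff]
    intro ε hε
    have h1 : Tendsto (fun n => A * t n) atTop (𝓝 (A * 0)) := ht0.const_mul A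
    rw [mul_zero] at h1
    obtain ⟨N, hN⟩ := eventually_atTop.1 (h1.eventually_lt_const (show (0 : ℝ) < ε / 2 by positivity))
    refine ⟨N, fun m hm n hn x hx => ?_⟩
    rw [dist_eq_norm]
    calc ‖q' m x - q' n x‖ ≤ A * (t m + t n) := hcau m n x hx
      _ = A * t m + A * t n := by ring
      _ < ε / 2 + ε / 2 := add_lt_add (hN m hm) (hN n hn)
      _ = ε := by ring
  have hlim : ∀ z ∈ ball z₀ (r / 4), ∃ L, Tendsto (fun n => q' n z) atTop (𝓝 L) := by
    intro z hz
    exact cauchySeq_tendsto_of_complete (hucs.cauchySeq hz)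
  choose! G' hG' using hlim
  have hunif := hucs.tendstoUniformlyOn_of_tendsto hG'
  have hquart : ball z₀ (r / 4) ⊆ ball z₀ (r / 2) := ball_subset_ball (by linarith)
  have hfin : HasFDerivAt (fun z => fderiv ℂ f z X) (G' z₀) z₀ := by
    refine hasFDerivAt_of_tendstoUniformlyOn isOpen_ball hunif
      (fun n x hx => hqd n x (hquart hx)) (fun x hx => ?_) (mem_ball_self (by positivity))
    rw [tendsto_iff_norm_sub_tendsto_zero]
    have h1 : Tendsto (fun n => K * ‖X‖ ^ 2 * t n) atTop (𝓝 (K * ‖X‖ ^ 2 * 0)) := ht0.const_mul _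
    rw [mul_zero] at h1
    exact squeeze_zero (fun n => norm_nonneg _) (fun n => hqe n x (hquart hx)) h1
  exact hfin.differentiableAt.differentiableWithinAt

/-- Holomorphic maps on open sets of finite dimensional spaces are smooth. -/
theorem contDiffOn [FiniteDimensional ℂ E] [CompleteSpace F] {U : Set E} (hU : IsOpen U)
    (n : ℕ) : ∀ {f : E → F}, DifferentiableOn ℂ f U → ContDiffOn ℂ n f U := by
  induction n with
  | zero =>
    intro f hf
    exact_mod_cast contDiffOn_zero.2 hf.continuousOn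
  | succ n ih =>
    intro f hf
    have : ContDiffOn ℂ ((n : WithTop ℕ∞) + 1) f U := by
      rw [contDiffOn_succ_iff_fderiv_of_isOpen hU]
      refine ⟨hf, by simp, ?_⟩
      rw [contDiffOn_clm_apply]
      exact fun X => ih (differentiableOn_fderiv_apply hU hf X)
    exact_mod_cast this

theorem contDiffAt [FiniteDimensional ℂ E] [CompleteSpace F] {U : Set E} (hU : IsOpen U)
    {f : E → F} (hf : DifferentiableOn ℂ f U) {x : E} (hx : x ∈ U) (n : ℕ) :
    ContDiffAt ℂ n f x :=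
  (contDiffOn hU n hf).contDiffAt (hU.mem_nhds hx)

end Hol

theorem holDeriv : HolDeriv := fun _ _ _ hU hf X => Hol.differentiableOn_fderiv_apply hU hf X

end Sqz
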