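import Pool.Agent.Sqz.Spec

set_option autoImplicit false

open Metric Set
open scoped ComplexConjugate

namespace Sqz

/-! ### Moebius maps of the disc -/

theorem conj_mul_norm_lt {a s : ℂ} (ha : ‖a‖ < 1) (hs : ‖s‖ < 1) : 1 + conj a * s ≠ 0 := by
  intro h
  have h1 : conj a * s = -1 := by linear_combination h
  have h2 : ‖conj a * s‖ = 1 := by rw [h1]; simp
  rw [norm_mul, Complex.norm_conj] at h2
  have h3 : ‖a‖ * ‖s‖ < 1 := by
    nlinarith [norm_nonneg a, norm_nonneg s]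
  linarith

theorem normSq_moebius (a s : ℂ) :
    ‖1 + conj a * s‖ ^ 2 - ‖s + a‖ ^ 2 = (1 - ‖a‖ ^ 2) * (1 - ‖s‖ ^ 2) := by
  simp only [← Complex.normSq_eq_norm_sq, Complex.normSq_apply]
  simp only [Complex.add_re, Complex.add_im, Complex.mul_re, Complex.mul_im, Complex.conj_re,
    Complex.conj_im, Complex.one_re, Complex.one_im]
  ring

theorem norm_moebius_lt {a s : ℂ} (ha : ‖a‖ < 1) (hs : ‖s‖ < 1) :
    ‖(s + a) / (1 + conj a * s)‖ < 1 := by
  have h0 := conj_mul_norm_lt ha hs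
  have h1 : 0 < ‖1 + conj a * s‖ := norm_pos_iff.2 h0
  rw [norm_div, div_lt_one h1]
  have h2 := normSq_moebius a s
  have h3 : 0 < (1 - ‖a‖ ^ 2) * (1 - ‖s‖ ^ 2) := by
    apply mul_pos
    · nlinarith [norm_nonneg a]
    · nlinarith [norm_nonneg s]
  nlinarith [norm_nonneg (s + a)]

/-- Composition of a disc with a Moebius map. -/
theorem disc_moebius {n : ℕ} {U : Set (E n)} {φ : ℂ → E n}
    (hd : DifferentiableOn ℂ φ (ball 0 1)) (hm : MapsTo φ (ball 0 1) U) {a c : ℂ}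
    (ha : ‖a‖ < 1) (hc : ‖c‖ ≤ 1) :
    DifferentiableOn ℂ (fun s => φ ((c * s + a) / (1 + conj a * (c * s)))) (ball 0 1) ∧
      MapsTo (fun s => φ ((c * s + a) / (1 + conj a * (c * s)))) (ball 0 1) U := by
  have hcs : ∀ s ∈ ball (0 : ℂ) 1, ‖c * s‖ < 1 := by
    intro s hs
    rw [mem_ball_zero_iff] at hs
    rw [norm_mul]
    nlinarith [norm_nonneg c, norm_nonneg s]
  have hmap : MapsTo (fun s => (c * s + a) / (1 + conj a * (c * s))) (ball 0 1) (ball 0 1) := by
    intro s hs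
    rw [mem_ball_zero_iff]
    exact norm_moebius_lt ha (hcs s hs)
  refine ⟨hd.comp ?_ hmap, hm.comp hmap⟩
  intro s hs
  have h0 := conj_mul_norm_lt ha (hcs s hs)
  apply DifferentiableAt.differentiableWithinAt
  apply DifferentiableAt.div
  · fun_prop
  · fun_prop
  · exact h0

/-! ### Steps and chains -/

theorem t_pos {lam : ℝ} (h : 1 < lam) : 0 < (lam - 1) / (lam + 1) :=
  div_pos (by linarith) (by linarith)

theorem t_lt {lam : ℝ} (h : 1 < lam) : (lam - 1) / (lam + 1) < 1 := by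
  rw [div_lt_one (by linarith)]
  linarith

theorem Step.symm {n : ℕ} {U : Set (E n)} {lam : ℝ} (hl : 1 < lam) {x y : E n}
    (h : Step U lam x y) : Step U lam y x := by
  obtain ⟨φ, hd, hm, h0, h1⟩ := h
  set t : ℝ := (lam - 1) / (lam + 1) with ht
  have htp := t_pos hl
  have htl := t_lt hl
  rw [← ht] at htp htl
  have hta : ‖(t : ℂ)‖ < 1 := by
    rw [Complex.norm_real, Real.norm_eq_abs, abs_of_pos htp]
    exact htl
  obtain ⟨k1, k2⟩ := disc_moebius hd hm (a := t) (c := -1) hta (by simp)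
  refine ⟨_, k1, k2, ?_, ?_⟩
  · show φ ((-1 * (0 : ℂ) + t) / (1 + conj (t : ℂ) * (-1 * 0))) = y
    rw [← h1]
    congr 1
    simp
  · show φ ((-1 * (t : ℂ) + t) / (1 + conj (t : ℂ) * (-1 * t))) = x
    rw [← h0]
    congr 1
    simp

theorem Step.refl {n : ℕ} {U : Set (E n)} (lam : ℝ) {x : E n} (hx : x ∈ U) : Step U lam x x :=
  ⟨fun _ => x, differentiableOn_const x, fun _ _ => hx, rfl, rfl⟩

theorem Step.mem_right {n : ℕ} {U : Set (E n)} {lam : ℝ} (hl : 1 < lam) {x y : E n}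
    (h : Step U lam x y) : y ∈ U := by
  obtain ⟨φ, hd, hm, h0, h1⟩ := h
  rw [← h1]
  apply hm
  rw [mem_ball_zero_iff, Complex.norm_real, Real.norm_eq_abs, abs_of_pos (t_pos hl)]
  exact t_lt hl

theorem Chain.trans {n : ℕ} {U : Set (E n)} {lam : ℝ} {a : ℕ} {x y : E n}
    (h : Chain U lam a x y) : ∀ (b : ℕ) (z : E n), Chain U lam b y z → Chain U lam (a + b) x z := by
  intro b
  induction b with
  | zero =>
    intro z hz
    have hz' : y = z := hz
    subst hz'
    exact h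
  | succ b ih =>
    rintro z ⟨w, h1, h2⟩
    exact ⟨w, ih w h1, h2⟩

theorem Chain.symm {n : ℕ} {U : Set (E n)} {lam : ℝ} (hl : 1 < lam) :
    ∀ (m : ℕ) (x y : E n), Chain U lam m x y → Chain U lam m y x := by
  intro m
  induction m with
  | zero =>
    intro x y h
    have h' : x = y := h
    exact h'.symm
  | succ m ih =>
    rintro x y ⟨z, h1, h2⟩
    have h3 : Chain U lam 1 y z := ⟨y, rfl, h2.symm hl⟩
    have h4 := h3.trans m x (ih x z h1)
    rwa [add_comm] at h4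

theorem Chain.mem_right {n : ℕ} {U : Set (E n)} {lam : ℝ} (hl : 1 < lam) {m : ℕ} {x y : E n}
    (hx : x ∈ U) (h : Chain U lam m x y) : y ∈ U := by
  cases m with
  | zero =>
    have h' : x = y := h
    exact h' ▸ hx
  | succ m =>
    obtain ⟨z, -, h2⟩ := h
    exact h2.mem_right hl

theorem Chain.split {n : ℕ} {U : Set (E n)} {lam : ℝ} (a : ℕ) : ∀ (b : ℕ) (x z : E n),
    Chain U lam (a + b) x z → ∃ y, Chain U lam a x y ∧ Chain U lam b y z := by
  intro b
  induction b with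
  | zero =>
    intro x z h
    exact ⟨z, h, rfl⟩
  | succ b ih =>
    rintro x z ⟨w, h1, h2⟩
    obtain ⟨y, h3, h4⟩ := ih x w h1
    exact ⟨y, h3, w, h4, h2⟩

/-- (J4e) -/
theorem chainCalc : ChainCalc := by
  intro n U lam hl
  refine ⟨Chain.symm hl, fun a b x y z h1 h2 => h1.trans b z h2, fun a b x z => Chain.split a b x z,
    ?_, fun m x y hx h => h.mem_right hl hx⟩
  intro a b x y hx h hab
  induction b, hab using Nat.le_induction with
  | base => exact h
  | succ b _ ih => exact ⟨y, ih, Step.refl lam (h.mem_right hl hx)⟩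

/-! ### Chains in discs -/

theorem discChain_real {n : ℕ} {U : Set (E n)} {lam : ℝ} (hl : 1 < lam) {φ : ℂ → E n}
    (hd : DifferentiableOn ℂ φ (ball 0 1)) (hm : MapsTo φ (ball 0 1) U) :
    ∀ (M : ℕ) (T : ℝ), 0 ≤ T → T < 1 → (1 + T) / (1 - T) ≤ lam ^ M →
      Chain U lam M (φ 0) (φ T) := by
  have h0U : φ 0 ∈ U := hm (by simp)
  set t : ℝ := (lam - 1) / (lam + 1) with ht
  have htp := t_pos hl
  have htl := t_lt hl
  rw [← ht] at htp htl
  have hlt : lam * (1 - t) = 1 + t := by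
    rw [ht]
    field_simp
    ring
  intro M
  induction M with
  | zero =>
    intro T h1 h2 h3
    rw [pow_zero, div_le_one (by linarith)] at h3
    have : T = 0 := by linarith
    rw [this]
    show φ 0 = φ ((0 : ℝ) : ℂ)
    simp
  | succ M ih =>
    intro T h1 h2 h3
    by_cases hT : T ≤ t
    · refine ⟨φ 0, chainCalc n U lam hl |>.2.2.2.1 0 M _ _ h0U rfl (Nat.zero_le _),
        fun s => φ (((T / t : ℝ) : ℂ) * s), ?_, ?_, by simp, ?_⟩
      · refine hd.comp (by fun_prop) ?_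
        intro s hs
        rw [mem_ball_zero_iff] at hs ⊢
        rw [norm_mul, Complex.norm_real, Real.norm_eq_abs, abs_of_nonneg (by positivity)]
        have : T / t ≤ 1 := by rwa [div_le_one htp]
        nlinarith [norm_nonneg s, div_nonneg h1 htp.le]
      · refine hm.comp ?_
        intro s hs
        rw [mem_ball_zero_iff] at hs ⊢
        rw [norm_mul, Complex.norm_real, Real.norm_eq_abs, abs_of_nonneg (by positivity)]
        have : T / t ≤ 1 := by rwa [div_le_one htp]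
        nlinarith [norm_nonneg s, div_nonneg h1 htp.le]
      · show φ (((T / t : ℝ) : ℂ) * (t : ℂ)) = φ T
        congr 1
        rw [← Complex.ofReal_mul, div_mul_cancel₀ _ htp.ne']
    · push Not at hT
      set T' : ℝ := (T - t) / (1 - T * t) with hT'
      have hTt : 0 < 1 - T * t := by nlinarith
      have hT'0 : 0 ≤ T' := div_nonneg (by linarith) hTt.le
      have hT'1 : T' < 1 := by
        rw [hT', div_lt_one hTt]
        nlinarith
      have hquot : (1 + T') / (1 - T') ≤ lam ^ M := by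
        have e1 : 1 + T' = (1 + T) * (1 - t) / (1 - T * t) := by
          rw [hT']
          field_simp
          ring
        have e2 : 1 - T' = (1 - T) * (1 + t) / (1 - T * t) := by
          rw [hT']
          field_simp
          ring
        have e3 : (1 + T') / (1 - T') = (1 + T) / (1 - T) / lam := by
          rw [e1, e2, ← hlt]
          have : (1 : ℝ) - T ≠ 0 := by linarith
          have : (1 : ℝ) - t ≠ 0 := by linarith
          have : (1 : ℝ) - T * t ≠ 0 := hTt.ne'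
          have : lam ≠ 0 := by linarith
          field_simp
        rw [e3, div_le_iff₀ (by linarith)]
        rwa [pow_succ] at h3
      refine ⟨φ T', ih T' hT'0 hT'1 hquot, ?_⟩
      have hT'n : ‖(T' : ℂ)‖ < 1 := by
        rw [Complex.norm_real, Real.norm_eq_abs, abs_of_nonneg hT'0]
        exact hT'1
      obtain ⟨k1, k2⟩ := disc_moebius hd hm (a := T') (c := 1) hT'n (by simp)
      refine ⟨_, k1, k2, by simp, ?_⟩
      show φ ((1 * (t : ℂ) + T') / (1 + conj (T' : ℂ) * (1 * t))) = φ T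
      congr 1
      have hden : (1 : ℂ) + T' * t ≠ 0 := by
        have : (0 : ℝ) < 1 + T' * t := by positivity
        exact_mod_cast this.ne'
      rw [Complex.conj_ofReal, one_mul, div_eq_iff hden]
      have hT'd : T' * (1 - T * t) = T - t := div_mul_cancel₀ _ hTt.ne'
      have hreal : t + T' = T * (1 + T' * t) := by
        linear_combination hT'd
      exact_mod_cast hreal

/-- (J4a) -/
theorem discChain : DiscChain := by
  intro n U lam M φ α β hl hd hm hα hβ h
  set w : ℂ := (β - α) / (1 - conj α * β) with hw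
  have hden : 1 - conj α * β ≠ 0 := by
    have := conj_mul_norm_lt (a := -α) (s := β) (by simpa using hα) hβ
    simpa [sub_eq_add_neg] using this
  have hdenp : 0 < ‖1 - conj α * β‖ := norm_pos_iff.2 hden
  have hid : ‖1 - conj α * β‖ ^ 2 - ‖β - α‖ ^ 2 = (1 - ‖α‖ ^ 2) * (1 - ‖β‖ ^ 2) := by
    have := normSq_moebius (-α) β
    simpa [sub_eq_add_neg] using this
  have hprod : 0 < (1 - ‖α‖ ^ 2) * (1 - ‖β‖ ^ 2) := by
    apply mul_pos
    · nlinarith [norm_nonneg α]
    · nlinarith [norm_nonneg β]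
  set T : ℝ := ‖w‖ with hT
  have hT0 : 0 ≤ T := norm_nonneg w
  have hT2 : (1 - T ^ 2) * ‖1 - conj α * β‖ ^ 2 = (1 - ‖α‖ ^ 2) * (1 - ‖β‖ ^ 2) := by
    have h1 : T * ‖1 - conj α * β‖ = ‖β - α‖ := by
      rw [hT, hw, norm_div, div_mul_cancel₀ _ hdenp.ne']
    rw [← hid, ← h1]
    ring
  have hT1 : T < 1 := by
    by_contra hcon
    push Not at hcon
    have : (1 - T ^ 2) * ‖1 - conj α * β‖ ^ 2 ≤ 0 := by
      apply mul_nonpos_of_nonpos_of_nonneg
      · nlinarith
      · positivity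
    linarith
  have hquot : (1 + T) / (1 - T) ≤ lam ^ M := by
    refine le_trans ?_ h
    rw [← hT2, div_le_div_iff₀ (by linarith) (by
      rw [hT2]
      exact hprod)]
    have : (1 + T) * ((1 - T ^ 2) * ‖1 - conj α * β‖ ^ 2) =
        ((1 + T) ^ 2 * ‖1 - conj α * β‖ ^ 2) * (1 - T) := by ring
    rw [this]
    apply mul_le_mul_of_nonneg_right _ (by linarith)
    apply mul_le_mul_of_nonneg_right _ (by positivity)
    nlinarith
  set c : ℂ := if w = 0 then 1 else w / T with hc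
  have hcT : c * T = w := by
    rw [hc]
    split_ifs with h0
    · rw [hT, h0]
      simp
    · have : (T : ℂ) ≠ 0 := by
        rw [hT]
        exact_mod_cast (norm_pos_iff.2 h0).ne'
      field_simp
  have hcn : ‖c‖ ≤ 1 := by
    rw [hc]
    split_ifs with h0
    · simp
    · rw [norm_div, Complex.norm_real, Real.norm_eq_abs, abs_of_nonneg hT0, hT]
      exact div_self_le_one _
  obtain ⟨k1, k2⟩ := disc_moebius hd hm (a := α) (c := c) hα hcn
  have key := discChain_real hl k1 k2 M T hT0 hT1 hquot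
  have e0 : (c * 0 + α) / (1 + conj α * (c * 0)) = α := by simp
  have e1 : (c * T + α) / (1 + conj α * (c * T)) = β := by
    rw [hcT]
    have hd1 : (1 : ℂ) + conj α * w ≠ 0 := conj_mul_norm_lt hα hT1
    rw [div_eq_iff hd1]
    have hwd : w * (1 - conj α * β) = β - α := div_mul_cancel₀ _ hden
    linear_combination hwd
  simp only [e0, e1] at key
  exact key

/-! ### Harnack -/

theorem harnack_disc {Q : ℂ → ℂ} (hd : DifferentiableOn ℂ Q (ball 0 1))
    (hpos : ∀ s ∈ ball (0 : ℂ) 1, 0 < (Q s).re) {s : ℂ} (hs : ‖s‖ < 1) :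
    (Q s).re * (1 - ‖s‖) ≤ (Q 0).re * (1 + ‖s‖) := by
  have h0 := hpos 0 (by simp)
  have hden : ∀ z ∈ ball (0 : ℂ) 1, Q z + conj (Q 0) ≠ 0 := by
    intro z hz h
    have h1 := congrArg Complex.re h
    have h2 := hpos z hz
    simp only [Complex.add_re, Complex.conj_re, Complex.zero_re] at h1
    linarith
  have hid : ∀ z, ‖Q z + conj (Q 0)‖ ^ 2 - ‖Q z - Q 0‖ ^ 2 = 4 * (Q z).re * (Q 0).re := by
    intro z
    simp only [← Complex.normSq_eq_norm_sq, Complex.normSq_apply, Complex.add_re, Complex.add_im,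
      Complex.sub_re, Complex.sub_im, Complex.conj_re, Complex.conj_im]
    ring
  have hmap : MapsTo (fun z => (Q z - Q 0) / (Q z + conj (Q 0))) (ball 0 1)
      (closedBall (0 : ℂ) 1) := by
    intro z hz
    rw [mem_closedBall_zero_iff, norm_div, div_le_one (norm_pos_iff.2 (hden z hz))]
    have h1 := hid z
    have h2 := mul_pos (hpos z hz) h0
    nlinarith [norm_nonneg (Q z - Q 0), norm_nonneg (Q z + conj (Q 0))]
  have hdiff : DifferentiableOn ℂ (fun z => (Q z - Q 0) / (Q z + conj (Q 0))) (ball 0 1) :=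
    (hd.sub_const _).div (hd.add_const _) hden
  have key := Complex.norm_le_norm_of_mapsTo_ball hdiff hmap (by simp) hs
  have hsb : s ∈ ball (0 : ℂ) 1 := by simpa using hs
  rw [norm_div, div_le_iff₀ (norm_pos_iff.2 (hden s hsb))] at key
  have h1 := hpos s hsb
  have h2 := hid s
  have h3 : ‖Q s + conj (Q 0)‖ ^ 2 =
      ((Q s).re + (Q 0).re) ^ 2 + ((Q s).im - (Q 0).im) ^ 2 := by
    simp only [← Complex.normSq_eq_norm_sq, Complex.normSq_apply, Complex.add_re, Complex.add_im,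
      Complex.conj_re, Complex.conj_im]
    ring
  have h4 : ‖Q s - Q 0‖ ^ 2 =
      ((Q s).re - (Q 0).re) ^ 2 + ((Q s).im - (Q 0).im) ^ 2 := by
    simp only [← Complex.normSq_eq_norm_sq, Complex.normSq_apply, Complex.sub_re, Complex.sub_im]
    ring
  have h5 : ‖Q s - Q 0‖ ^ 2 ≤ ‖s‖ ^ 2 * ‖Q s + conj (Q 0)‖ ^ 2 := by
    rw [← mul_pow]
    exact pow_le_pow_left₀ (norm_nonneg _) key 2
  rw [h3, h4] at h5
  have hs0 := norm_nonneg s
  have h6 : ‖s‖ ^ 2 * ((Q s).im - (Q 0).im) ^ 2 ≤ ((Q s).im - (Q 0).im) ^ 2 := by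
    have : ‖s‖ ^ 2 ≤ 1 := by nlinarith
    nlinarith [sq_nonneg ((Q s).im - (Q 0).im)]
  have h7 : ((Q s).re - (Q 0).re) ^ 2 ≤ (‖s‖ * ((Q s).re + (Q 0).re)) ^ 2 := by
    rw [mul_pow]
    nlinarith
  have h8 : (Q s).re - (Q 0).re ≤ ‖s‖ * ((Q s).re + (Q 0).re) := by
    have h9 : 0 ≤ ‖s‖ * ((Q s).re + (Q 0).re) := mul_nonneg hs0 (by linarith)
    exact (abs_le_of_sq_le_sq' h7 h9).2
  nlinarith

/-- The Cayley transform. -/
noncomputable def Cay (h : ℂ) : ℂ := (1 + h) / (1 - h)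

theorem one_sub_ne {h : ℂ} (hh : ‖h‖ < 1) : 1 - h ≠ 0 := by
  intro h1
  have : h = 1 := by linear_combination -h1
  rw [this] at hh
  simp at hh

theorem cay_re {h : ℂ} (hh : ‖h‖ < 1) : (Cay h).re = (1 - ‖h‖ ^ 2) / ‖1 - h‖ ^ 2 := by
  have h0 := one_sub_ne hh
  have h1 : Complex.normSq (1 - h) ≠ 0 := by
    rw [Ne, Complex.normSq_eq_zero]
    exact h0
  rw [Cay, Complex.div_re, ← Complex.normSq_eq_norm_sq, ← Complex.normSq_eq_norm_sq, ← add_div]
  congr 1
  simp only [Complex.normSq_apply, Complex.add_re, Complex.add_im, Complex.sub_re, Complex.sub_im,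
    Complex.one_re, Complex.one_im]
  ring

theorem cay_re_pos {h : ℂ} (hh : ‖h‖ < 1) : 0 < (Cay h).re := by
  rw [cay_re hh]
  have h0 : 0 < ‖1 - h‖ := norm_pos_iff.2 (one_sub_ne hh)
  have h1 : 0 < 1 - ‖h‖ ^ 2 := by nlinarith [norm_nonneg h]
  positivity

theorem cay_re_le {h : ℂ} (hh : ‖h‖ < 1) : (Cay h).re ≤ (1 + ‖h‖) / (1 - ‖h‖) := by
  rw [cay_re hh]
  have h0 : 0 < ‖1 - h‖ := norm_pos_iff.2 (one_sub_ne hh)
  have h1 : 0 < 1 - ‖h‖ := by linarith
  have h2 : 1 - ‖h‖ ≤ ‖1 - h‖ := by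
    have := norm_sub_norm_le (1 : ℂ) h
    simpa using this
  rw [div_le_div_iff₀ (by positivity) h1]
  have h3 : (1 - ‖h‖) ^ 2 ≤ ‖1 - h‖ ^ 2 := pow_le_pow_left₀ h1.le h2 2
  have h4 : (1 - ‖h‖ ^ 2) * (1 - ‖h‖) = (1 + ‖h‖) * (1 - ‖h‖) ^ 2 := by ring
  rw [h4]
  exact mul_le_mul_of_nonneg_left h3 (by positivity)

theorem cay_real {r : ℝ} : (Cay (r : ℂ)).re = (1 + r) / (1 - r) := by
  rw [Cay]
  have : ((1 : ℂ) + r) / (1 - r) = (((1 + r) / (1 - r) : ℝ) : ℂ) := by
    push_cast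
    rfl
  rw [this, Complex.ofReal_re]

theorem inner_unit {n : ℕ} {v : E n} (hv : 0 < ‖v‖) :
    (inner ℂ (((‖v‖⁻¹ : ℝ) : ℂ) • v) v : ℂ) = ((‖v‖ : ℝ) : ℂ) := by
  rw [inner_smul_left, Complex.conj_ofReal, inner_self_eq_norm_sq_to_K]
  have h : (‖v‖⁻¹ : ℝ) * ‖v‖ ^ 2 = ‖v‖ := by
    field_simp
  calc ((‖v‖⁻¹ : ℝ) : ℂ) * ((‖v‖ : ℝ) : ℂ) ^ 2 = (((‖v‖⁻¹ : ℝ) * ‖v‖ ^ 2 : ℝ) : ℂ) := by
        push_cast
        ring
    _ = ((‖v‖ : ℝ) : ℂ) := by rw [h]

theorem harnack_F {n : ℕ} {Ω : Set (E n)} {F : E n → E n} {φ : ℂ → E n}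
    (hF : DifferentiableOn ℂ F Ω) (hFm : MapsTo F Ω (ball 0 1))
    (hd : DifferentiableOn ℂ φ (ball 0 1)) (hm : MapsTo φ (ball 0 1) Ω) {e : E n}
    (he : ‖e‖ ≤ 1) {s : ℂ} (hs : ‖s‖ < 1) :
    (Cay (inner ℂ e (F (φ s)))).re * (1 - ‖s‖) ≤
      (Cay (inner ℂ e (F (φ 0)))).re * (1 + ‖s‖) := by
  have hlt : ∀ z ∈ ball (0 : ℂ) 1, ‖(inner ℂ e (F (φ z)) : ℂ)‖ < 1 := by
    intro z hz
    have h1 := norm_inner_le_norm (𝕜 := ℂ) e (F (φ z))
    have h2 : ‖F (φ z)‖ < 1 := by simpa using hFm (hm hz)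
    have h3 : ‖e‖ * ‖F (φ z)‖ ≤ 1 * ‖F (φ z)‖ :=
      mul_le_mul_of_nonneg_right he (norm_nonneg _)
    linarith
  have hdi : DifferentiableOn ℂ (fun z => (inner ℂ e (F (φ z)) : ℂ)) (ball 0 1) := by
    have h1 : DifferentiableOn ℂ (fun z => F (φ z)) (ball 0 1) := hF.comp hd hm
    exact ((innerSL ℂ e).differentiable.comp_differentiableOn h1)
  have hdQ : DifferentiableOn ℂ (fun z => Cay (inner ℂ e (F (φ z)))) (ball 0 1) := by
    unfold Cay
    exact (hdi.const_add 1).div (hdi.const_sub 1) fun z hz => one_sub_ne (hlt z hz)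
  exact harnack_disc hdQ (fun z hz => cay_re_pos (hlt z hz)) hs

/-- (J4b) -/
theorem harnackChain : HarnackChain := by
  intro n Ω U lam k F x y hl hU hF hFm hx hch
  by_cases hy : F y = 0
  · rw [hy, norm_zero]
    have : 1 ≤ lam ^ k := one_le_pow₀ hl.le
    linarith
  have hr : 0 < ‖F y‖ := norm_pos_iff.2 hy
  set e : E n := ((‖F y‖⁻¹ : ℝ) : ℂ) • F y with he
  have hen : ‖e‖ = 1 := by
    rw [he, norm_smul, Complex.norm_real, norm_inv, norm_norm, inv_mul_cancel₀ hr.ne']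
  have htp := t_pos hl
  have htl := t_lt hl
  have hlt : lam * (1 - (lam - 1) / (lam + 1)) = 1 + (lam - 1) / (lam + 1) := by
    field_simp
    ring
  have key : ∀ (m : ℕ) (z : E n), Chain U lam m x z →
      (Cay (inner ℂ e (F z))).re ≤ lam ^ m := by
    intro m
    induction m with
    | zero =>
      intro z hz
      have hz' : x = z := hz
      subst hz'
      rw [hx, inner_zero_right]
      simp [Cay]
    | succ m ih =>
      rintro z ⟨w, h1, φ, hd, hm, h2, h3⟩
      have h4 := ih w h1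
      have hts : ‖(((lam - 1) / (lam + 1) : ℝ) : ℂ)‖ = (lam - 1) / (lam + 1) := by
        rw [Complex.norm_real, Real.norm_eq_abs, abs_of_pos htp]
      have h5 := harnack_F hF hFm hd (hm.mono_right hU) hen.le
        (s := (((lam - 1) / (lam + 1) : ℝ) : ℂ)) (by rw [hts]; exact htl)
      rw [hts, h2, h3] at h5
      have h6 : (0 : ℝ) < 1 - (lam - 1) / (lam + 1) := by linarith
      rw [← hlt] at h5
      have h7 : (Cay (inner ℂ e (F z))).re ≤ (Cay (inner ℂ e (F w))).re * lam := by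
        refine le_of_mul_le_mul_right ?_ h6
        linarith
      rw [pow_succ]
      exact h7.trans (mul_le_mul_of_nonneg_right h4 (by linarith))
  have hy1 : ‖F y‖ < 1 := by
    have hyΩ : y ∈ Ω := by
      rcases Nat.eq_zero_or_pos k with rfl | hk
      · have h' : x = y := hch
        exfalso
        rw [← h', hx] at hy
        exact hy rfl
      · obtain ⟨k', rfl⟩ := Nat.exists_eq_succ_of_ne_zero hk.ne'
        obtain ⟨w, -, hst⟩ := hch
        exact hU (hst.mem_right hl)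
    simpa using hFm hyΩ
  have h1 := key k y hch
  have h2 : (inner ℂ e (F y) : ℂ) = ((‖F y‖ : ℝ) : ℂ) := inner_unit hr
  rw [h2, cay_real, div_le_iff₀ (by linarith)] at h1
  exact h1

/-- (J4c) -/
theorem harnackHalf : HarnackHalf := by
  intro n Ω K F φ s hF hFm hd hm hK hs
  have hs1 : ‖s‖ < 1 := by linarith
  have hsb : s ∈ ball (0 : ℂ) 1 := by simpa using hs1
  have h0lt : ‖F (φ 0)‖ < 1 := by simpa using hFm (hm (by simp : (0 : ℂ) ∈ ball (0 : ℂ) 1))
  have hslt : ‖F (φ s)‖ < 1 := by simpa using hFm (hm hsb)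
  have hK' : (1 + ‖F (φ 0)‖) / (1 - ‖F (φ 0)‖) ≤ K := by
    rw [div_le_iff₀ (by linarith)]
    exact hK
  by_cases hy : F (φ s) = 0
  · rw [hy, norm_zero]
    have : 1 ≤ (1 + ‖F (φ 0)‖) / (1 - ‖F (φ 0)‖) := by
      rw [le_div_iff₀ (by linarith)]
      linarith [norm_nonneg (F (φ 0))]
    linarith
  have hr : 0 < ‖F (φ s)‖ := norm_pos_iff.2 hy
  set e : E n := ((‖F (φ s)‖⁻¹ : ℝ) : ℂ) • F (φ s) with he
  have hen : ‖e‖ = 1 := by
    rw [he, norm_smul, Complex.norm_real, norm_inv, norm_norm, inv_mul_cancel₀ hr.ne']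
  have h1 := harnack_F hF hFm hd hm hen.le hs1
  have h2 : (inner ℂ e (F (φ s)) : ℂ) = ((‖F (φ s)‖ : ℝ) : ℂ) := inner_unit hr
  have h3 : ‖(inner ℂ e (F (φ 0)) : ℂ)‖ ≤ ‖F (φ 0)‖ := by
    have := norm_inner_le_norm (𝕜 := ℂ) e (F (φ 0))
    rwa [hen, one_mul] at this
  have h4 : (Cay (inner ℂ e (F (φ 0)))).re ≤ K := by
    refine (cay_re_le (lt_of_le_of_lt h3 h0lt)).trans (le_trans ?_ hK')
    rw [div_le_div_iff₀ (by linarith) (by linarith)]
    nlinarith
  have h5 : 0 < (Cay (inner ℂ e (F (φ 0)))).re := cay_re_pos (lt_of_le_of_lt h3 h0lt)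
  rw [h2, cay_real] at h1
  have h6 : (1 + ‖F (φ s)‖) / (1 - ‖F (φ s)‖) ≤ 3 * K := by
    have h7 : 0 < (1 + ‖F (φ s)‖) / (1 - ‖F (φ s)‖) := div_pos (by linarith) (by linarith)
    nlinarith [norm_nonneg s]
  rwa [div_le_iff₀ (by linarith)] at h6

/-- (J4d) -/
theorem chainConn : ChainConn := by
  intro n U K lam hl hUo hKU hK x hx y hy
  refine hK.induction₂ (fun x y => ∃ M : ℕ, Chain U lam M x y) ?_ ?_ ?_ hx hy
  · intro z hz
    obtain ⟨d, hd, hball⟩ := Metric.isOpen_iff.1 hUo z (hKU hz)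
    have htp := t_pos hl
    have htl := t_lt hl
    set t : ℝ := (lam - 1) / (lam + 1) with ht
    have hnb : ball z (t * d) ∈ nhds z := ball_mem_nhds z (by positivity)
    filter_upwards [mem_nhdsWithin_of_mem_nhds hnb] with w hw
    refine ⟨1, z, rfl, fun s => z + (s / (t : ℂ)) • (w - z), ?_, ?_, ?_, ?_⟩
    · intro s _
      apply DifferentiableAt.differentiableWithinAt
      fun_prop
    · intro s hs
      apply hball
      rw [mem_ball_zero_iff] at hs
      rw [mem_ball, dist_eq_norm] at hw ⊢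
      rw [add_sub_cancel_left, norm_smul, norm_div, Complex.norm_real, Real.norm_eq_abs,
        abs_of_pos htp]
      calc ‖s‖ / t * ‖w - z‖ ≤ 1 / t * ‖w - z‖ := by
            apply mul_le_mul_of_nonneg_right _ (norm_nonneg _)
            exact div_le_div_of_nonneg_right hs.le htp.le
        _ < 1 / t * (t * d) := by
            apply mul_lt_mul_of_pos_left hw
            positivity
        _ = d := by
            field_simp
    · simp
    · show z + ((t : ℂ) / (t : ℂ)) • (w - z) = w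
      have : (t : ℂ) ≠ 0 := by exact_mod_cast htp.ne'
      rw [div_self this, one_smul]
      abel
  · rintro a b c _ _ _ ⟨M, hM⟩ ⟨M', hM'⟩
    exact ⟨M + M', hM.trans M' c hM'⟩
  · rintro a b _ _ ⟨M, hM⟩
    exact ⟨M, Chain.symm hl M a b hM⟩

end Sqz
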