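import Pool.Agent.Sqz.Core

set_option autoImplicit false

open Metric Set
open scoped ComplexConjugate

namespace Sqz

/-- Charts near the extreme point. -/
theorem charts_of (osg : OsgoodInv) (loc : Localization) {n : ℕ} {Ω : Set (E n)}
    {ρ : E n → ℝ} (hDom : Dom n Ω ρ) {p : E n} (hp : p ∈ frontier Ω)
    (hext : ∀ q ∈ frontier Ω, ∀ w : E n, w ≠ 0 → fderiv ℝ ρ q w = 0 →
      fderiv ℝ ρ q (Complex.I • w) = 0 → Lev ρ q w = 0 → ‖q‖ ≤ ‖p‖)
    (hsq : ∀ ε : ℝ, 0 < ε → ∃ δ : ℝ, 0 < δ ∧ ∀ z ∈ Ω, Metric.infDist z Ωᶜ < δ →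
      ∃ f : E n → E n, DifferentiableOn ℂ f Ω ∧ Set.InjOn f Ω ∧
        f '' Ω ⊆ Metric.ball 0 1 ∧ f z = 0 ∧ Metric.ball 0 (1 - ε) ⊆ f '' Ω) :
    ∀ ρ₀ : ℝ, ρ₀ < 1 → ∀ σ : ℝ, 0 < σ → ∃ σ' : ℝ, 0 < σ' ∧
      ∀ z ∈ Ω ∩ ball p σ', ∃ f g : E n → E n, IsChart Ω (Ω ∩ ball p σ) ρ₀ z f g := by
  intro ρ₀ hρ₀ σ hσ
  set ε : ℝ := min ((1 - ρ₀) / 2) (1 / 2) with hε
  have hε0 : 0 < ε := lt_min (by linarith) (by norm_num)
  have hε1 : ε ≤ (1 - ρ₀) / 2 := min_le_left _ _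
  have hε2 : ε ≤ 1 / 2 := min_le_right _ _
  have h1ε : 0 < 1 - ε := by linarith
  set R : ℝ := ρ₀ / (1 - ε) with hR
  have hR1 : R < 1 := by rw [hR, div_lt_one h1ε]; linarith
  obtain ⟨σ₁, hσ₁, hloc⟩ := loc n Ω ρ hDom p hp hext R hR1 σ hσ
  obtain ⟨δ, hδ, hsq1⟩ := hsq ε hε0
  have hpc : p ∈ Ωᶜ := by
    intro hpΩ
    have := hDom.isOpen.frontier_eq ▸ hp
    exact this.2 hpΩ
  refine ⟨min σ₁ δ, lt_min hσ₁ hδ, ?_⟩
  rintro z ⟨hzΩ, hzp⟩
  have hzp' : dist z p < min σ₁ δ := hzp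
  obtain ⟨f, hf1, hf2, hf3, hf4, hf5⟩ := hsq1 z hzΩ
    (lt_of_le_of_lt (Metric.infDist_le_dist_of_mem hpc) (hzp'.trans_le (min_le_right _ _)))
  obtain ⟨g, hg1, hg2, hg3, hg4⟩ := osg n Ω f (1 - ε) hDom.isOpen hf1 hf2 hf5
  have hsub : ball (0 : E n) ρ₀ ⊆ ball 0 (1 - ε) := ball_subset_ball (by linarith)
  have hg0 : g 0 = z := by
    have := hg4 z hzΩ (by rw [hf4]; exact mem_ball_self h1ε)
    rwa [hf4] at this
  refine ⟨f, g, hf1, fun x hx => hf3 ⟨x, hx, rfl⟩, hf4, hg1.mono hsub, ?_,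
    fun b hb => hg3 b (hsub hb), fun x hx hfx => hg4 x hx (hsub hfx)⟩
  intro b hb
  refine ⟨hg2 (hsub hb), ?_⟩
  have hbn : ‖b‖ < ρ₀ := by simpa using hb
  have hρpos : 0 < ρ₀ := (norm_nonneg _).trans_lt hbn
  -- the disc
  obtain ⟨u, s, hu, hs, hsu⟩ : ∃ (u : E n) (s : ℂ), ‖u‖ ≤ 1 - ε ∧ ‖s‖ < R ∧ s • u = b := by
    by_cases hb0 : b = 0
    · refine ⟨0, 0, by simpa using h1ε.le, ?_, by simp [hb0]⟩
      rw [norm_zero, hR]; positivity
    · have hb1 : 0 < ‖b‖ := norm_pos_iff.mpr hb0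
      refine ⟨(((1 - ε) / ‖b‖ : ℝ) : ℂ) • b, ((‖b‖ / (1 - ε) : ℝ) : ℂ), ?_, ?_, ?_⟩
      · rw [norm_smul, Complex.norm_real, Real.norm_eq_abs, abs_of_pos (by positivity),
          div_mul_cancel₀ _ hb1.ne']
      · rw [Complex.norm_real, Real.norm_eq_abs, abs_of_pos (by positivity), hR]
        gcongr
      · rw [smul_smul, ← Complex.ofReal_mul]
        have : ‖b‖ / (1 - ε) * ((1 - ε) / ‖b‖) = 1 := by field_simp
        rw [this, Complex.ofReal_one, one_smul]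
  have hmaps : MapsTo (fun t : ℂ => t • u) (ball 0 1) (ball (0 : E n) (1 - ε)) := by
    intro t ht
    have ht1 : ‖t‖ < 1 := by simpa using ht
    simp only [mem_ball, dist_zero_right, norm_smul]
    rcases eq_or_lt_of_le (norm_nonneg u) with h0 | h0
    · rw [← h0, mul_zero]; exact h1ε
    · calc ‖t‖ * ‖u‖ < 1 * ‖u‖ := by gcongr
        _ ≤ 1 - ε := by rw [one_mul]; exact hu
  have := hloc (fun t => g (t • u)) (hg1.comp (by
      apply Differentiable.differentiableOn; fun_prop) hmaps)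
    (fun t ht => hg2 (hmaps ht)) (by
      simp only [zero_smul, hg0, mem_ball]
      exact hzp'.trans_le (min_le_left _ _)) s hs
  simpa [hsu] using this

theorem final_of (HL : HopfLemma) (LB : LowerBound) (HI : HopsIneq) (DC : DiscChain)
    (CC : ChainConn) (CL : ChainCalc) (SG : SliceGeom) (SV : SliceV) (VC : VChart)
    (HD : HolDeriv) (osg : OsgoodInv) (loc : Localization) (EP : ExistsP)
    (n : ℕ) (Ω : Set (E n)) (ρ : E n → ℝ) (hDom : Dom n Ω ρ)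
    (hsq : ∀ ε : ℝ, 0 < ε → ∃ δ : ℝ, 0 < δ ∧ ∀ z ∈ Ω, Metric.infDist z Ωᶜ < δ →
      ∃ f : E n → E n, DifferentiableOn ℂ f Ω ∧ Set.InjOn f Ω ∧
        f '' Ω ⊆ Metric.ball 0 1 ∧ f z = 0 ∧ Metric.ball 0 (1 - ε) ⊆ f '' Ω)
    (p₁ : E n) (hp₁ : p₁ ∈ frontier Ω) (w₁ : E n) (hw₁ : w₁ ≠ 0)
    (h1 : fderiv ℝ ρ p₁ w₁ = 0) (h2 : fderiv ℝ ρ p₁ (Complex.I • w₁) = 0) :
    0 < Lev ρ p₁ w₁ := by
  by_contra hcon
  obtain ⟨p, hp, v, hv, hv1, hv2, hLev, hext⟩ := EP n Ω ρ hDom p₁ hp₁ w₁ hw₁ h1 h2 hcon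
  -- the complex gradient
  set ℓ : StrongDual ℂ (E n) := StrongDual.extendRCLike (𝕜 := ℂ) (fderiv ℝ ρ p) with hℓ
  set G : E n := (InnerProductSpace.toDual ℂ (E n)).symm ℓ with hG
  have hGw : ∀ w : E n, (inner ℂ G w : ℂ) = ℓ w := by
    intro w
    rw [hG, InnerProductSpace.toDual_symm_apply]
  have hℓw : ∀ w : E n, ℓ w = (fderiv ℝ ρ p w : ℂ) - Complex.I * (fderiv ℝ ρ p (Complex.I • w) : ℂ) := by
    intro w
    rw [hℓ]
    exact StrongDual.extendRCLike_apply _ _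
  have hre : ∀ w : E n, (inner ℂ G w : ℂ).re = fderiv ℝ ρ p w := by
    intro w
    rw [hGw, hℓw]
    simp
  have hG0 : G ≠ 0 := by
    intro h0
    apply hDom.grad p hp
    ext w
    have := hre w
    rw [h0] at this
    simpa using this.symm
  have hGn : 0 < ‖G‖ := norm_pos_iff.mpr hG0
  set cG : ℝ := ‖G‖⁻¹ with hcG
  have hcG0 : 0 < cG := by positivity
  set N : E n := (cG : ℂ) • G with hN
  have hN1 : ‖N‖ = 1 := by
    rw [hN, norm_smul, Complex.norm_real, Real.norm_eq_abs, abs_of_pos hcG0, hcG,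
      inv_mul_cancel₀ hGn.ne']
  have hNw : ∀ w : E n, (inner ℂ N w : ℂ) = (cG : ℂ) * inner ℂ G w := by
    intro w
    rw [hN, inner_smul_left, Complex.conj_ofReal]
  have hNv : (inner ℂ N v : ℂ) = 0 := by
    rw [hNw, hGw, hℓw, hv1, hv2]; simp
  -- scaled defining function
  set ρ' : E n → ℝ := fun x => cG * ρ x with hρ'
  have hρd : Differentiable ℝ ρ := hDom.smooth.differentiable (by simp)
  have hfd : fderiv ℝ ρ' = fun x => cG • fderiv ℝ ρ x := by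
    funext x
    exact fderiv_const_mul (hρd x) cG
  have hfdd : Differentiable ℝ (fderiv ℝ ρ) := by
    have : ContDiff ℝ 1 (fderiv ℝ ρ) := hDom.smooth.fderiv_right (by
      norm_cast)
    exact this.differentiable (by norm_num)
  have hfd2 : ∀ x, fderiv ℝ (fderiv ℝ ρ') x = cG • fderiv ℝ (fderiv ℝ ρ) x := by
    intro x
    rw [hfd]
    exact fderiv_const_smul (hfdd x) cG
  have hLev' : ∀ x w : E n, Lev ρ' x w = cG * Lev ρ x w := by
    intro x w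
    simp only [Lev, hfd2]
    simp only [smul_apply, smul_eq_mul]
    ring
  have hDom' : Dom n Ω ρ' := by
    refine ⟨hDom.isOpen, hDom.conn, hDom.bdd, contDiff_const.mul hDom.smooth, ?_, ?_, ?_⟩
    · rw [hDom.eq]
      ext x
      simp only [mem_ofPred_eq, hρ']
      constructor
      · intro h; exact mul_neg_of_pos_of_neg hcG0 h
      · intro h
        by_contra h'
        have := mul_nonneg hcG0.le (not_lt.mp h')
        linarith
    · intro q hq h0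
      apply hDom.grad q hq
      rw [hfd] at h0
      exact (smul_eq_zero.mp h0).resolve_left hcG0.ne'
    · intro q hq w hw1 hw2
      rw [hLev']
      have e1 : fderiv ℝ ρ q w = 0 := by
        rw [hfd] at hw1
        simpa [hcG0.ne', hGn.ne'] using hw1
      have e2 : fderiv ℝ ρ q (Complex.I • w) = 0 := by
        rw [hfd] at hw2
        simpa [hcG0.ne', hGn.ne'] using hw2
      exact mul_nonneg hcG0.le (hDom.levi q hq w e1 e2)
  refine core HL LB HI DC CC CL SG SV VC HD hDom' hp hN1 hv ?_ hNv ?_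
    (charts_of osg loc hDom hp hext hsq)
  · intro w
    rw [hfd, hNw, Complex.re_ofReal_mul, hre]
    rfl
  · rw [hLev', hLev, mul_zero]

end Sqz
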