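import Pool.Agent.Sqz.Defs

/-!
# Targets for MP_ab90d5_an (S05773)

Each `def` below is one target statement (a `Prop`).  A job proves `theorem foo : Foo`
(possibly from earlier targets as hypotheses, e.g. `theorem localization (h : HopfLemma) : Localization`).
The final theorem takes all of them as hypotheses.  Complete paper proofs: `Blueprint.lean.txt`.
-/

set_option autoImplicit false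

open Metric Set
open scoped ComplexConjugate

namespace Sqz

/-- (J1a) derivatives of holomorphic functions are holomorphic. -/
def HolDeriv : Prop := ∀ (n : ℕ) (U : Set (E n)) (f : E n → ℂ), IsOpen U →
  DifferentiableOn ℂ f U → ∀ X : E n, DifferentiableOn ℂ (fun z => fderiv ℂ f z X) U

/-- (J1b) Osgood: an injective holomorphic map whose image contains a ball has a holomorphic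
inverse on that ball. -/
def OsgoodInv : Prop := ∀ (n : ℕ) (Ω : Set (E n)) (f : E n → E n) (r : ℝ), IsOpen Ω →
  DifferentiableOn ℂ f Ω → InjOn f Ω → ball 0 r ⊆ f '' Ω →
  ∃ g : E n → E n, DifferentiableOn ℂ g (ball 0 r) ∧ MapsTo g (ball 0 r) Ω ∧
    (∀ b ∈ ball (0 : E n) r, f (g b) = b) ∧
    (∀ x ∈ Ω, f x ∈ ball (0 : E n) r → g (f x) = x)

/-- (J2) local Diederich-Fornaess function and Hopf lemma, exponent arbitrarily close to 1. -/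
def HopfLemma : Prop := ∀ (n : ℕ) (Ω : Set (E n)) (ρ : E n → ℝ), Dom n Ω ρ →
  ∀ q ∈ frontier Ω, ∀ η : ℝ, 0 < η → η < 1 → ∃ L : ℝ, 0 ≤ L ∧ ∃ σ : ℝ, 0 < σ ∧
    HopfAt Ω ρ q L η σ

/-- (J3) discs through points near the extreme weakly pseudoconvex point `p` are small. -/
def Localization : Prop := ∀ (n : ℕ) (Ω : Set (E n)) (ρ : E n → ℝ), Dom n Ω ρ →
  ∀ p ∈ frontier Ω,
  (∀ q ∈ frontier Ω, ∀ w : E n, w ≠ 0 → fderiv ℝ ρ q w = 0 →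
    fderiv ℝ ρ q (Complex.I • w) = 0 → Lev ρ q w = 0 → ‖q‖ ≤ ‖p‖) →
  ∀ R : ℝ, R < 1 → ∀ σ : ℝ, 0 < σ → ∃ σ' : ℝ, 0 < σ' ∧
    ∀ φ : ℂ → E n, DifferentiableOn ℂ φ (ball 0 1) → MapsTo φ (ball 0 1) Ω →
      φ 0 ∈ ball p σ' → ∀ s : ℂ, ‖s‖ < R → φ s ∈ ball p σ

/-- (J4a) points of a holomorphic disc are joined by short chains. -/
def DiscChain : Prop := ∀ (n : ℕ) (U : Set (E n)) (lam : ℝ) (M : ℕ) (φ : ℂ → E n) (α β : ℂ),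
  1 < lam → DifferentiableOn ℂ φ (ball 0 1) → MapsTo φ (ball 0 1) U →
  ‖α‖ < 1 → ‖β‖ < 1 →
  4 * ‖1 - conj α * β‖ ^ 2 / ((1 - ‖α‖ ^ 2) * (1 - ‖β‖ ^ 2)) ≤ lam ^ M →
  Chain U lam M (φ α) (φ β)

/-- (J4b) Harnack along chains. -/
def HarnackChain : Prop := ∀ (n : ℕ) (Ω U : Set (E n)) (lam : ℝ) (k : ℕ) (F : E n → E n)
  (x y : E n), 1 < lam → U ⊆ Ω → DifferentiableOn ℂ F Ω → MapsTo F Ω (ball 0 1) →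
  F x = 0 → Chain U lam k x y → 1 + ‖F y‖ ≤ lam ^ k * (1 - ‖F y‖)

/-- (J4c) Harnack on half of a disc. -/
def HarnackHalf : Prop := ∀ (n : ℕ) (Ω : Set (E n)) (K : ℝ) (F : E n → E n) (φ : ℂ → E n)
  (s : ℂ), DifferentiableOn ℂ F Ω → MapsTo F Ω (ball 0 1) →
  DifferentiableOn ℂ φ (ball 0 1) → MapsTo φ (ball 0 1) Ω →
  1 + ‖F (φ 0)‖ ≤ K * (1 - ‖F (φ 0)‖) → ‖s‖ ≤ 1 / 2 →
  1 + ‖F (φ s)‖ ≤ 3 * K * (1 - ‖F (φ s)‖)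

/-- (J4d) points of a preconnected subset of an open set are joined by chains. -/
def ChainConn : Prop := ∀ (n : ℕ) (U K : Set (E n)) (lam : ℝ), 1 < lam → IsOpen U →
  K ⊆ U → IsPreconnected K → ∀ x ∈ K, ∀ y ∈ K, ∃ M : ℕ, Chain U lam M x y

/-- (J4e) elementary chain calculus. -/
def ChainCalc : Prop := ∀ (n : ℕ) (U : Set (E n)) (lam : ℝ), 1 < lam →
  (∀ (m : ℕ) (x y : E n), Chain U lam m x y → Chain U lam m y x) ∧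
  (∀ (a b : ℕ) (x y z : E n), Chain U lam a x y → Chain U lam b y z → Chain U lam (a + b) x z) ∧
  (∀ (a b : ℕ) (x z : E n), Chain U lam (a + b) x z →
    ∃ y, Chain U lam a x y ∧ Chain U lam b y z) ∧
  (∀ (a b : ℕ) (x y : E n), x ∈ U → Chain U lam a x y → a ≤ b → Chain U lam b x y) ∧
  (∀ (m : ℕ) (x y : E n), x ∈ U → Chain U lam m x y → y ∈ U)

/-- (J5a) chains in charts: the Bergman distance of the ball of radius `ρ₀`. -/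
def BallChain : Prop := ∀ (n : ℕ) (U : Set (E n)) (lam ρ₀ : ℝ) (M : ℕ) (g : E n → E n)
  (a b : E n), 1 < lam → 0 < ρ₀ → DifferentiableOn ℂ g (ball 0 ρ₀) →
  MapsTo g (ball 0 ρ₀) U → ‖a‖ < ρ₀ → ‖b‖ < ρ₀ →
  4 * ‖1 - (inner ℂ b a : ℂ) / ρ₀ ^ 2‖ ^ 2 /
    ((1 - ‖a‖ ^ 2 / ρ₀ ^ 2) * (1 - ‖b‖ ^ 2 / ρ₀ ^ 2)) ≤ lam ^ M →
  Chain U lam M (g a) (g b)

/-- (J5b) the second order inequality for `lam ^ hops`. -/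
def HopsIneq : Prop := ∀ e₁ : ℝ, 0 < e₁ → ∃ lam₀ : ℝ, 1 < lam₀ ∧ ∀ lam : ℝ, 1 < lam →
  lam ≤ lam₀ → ∃ k₀ : ℕ, ∀ k : ℕ, k₀ ≤ k → ∃ r₁ : ℝ, r₁ < 1 ∧ ∀ ρ₀ : ℝ, r₁ ≤ ρ₀ → ρ₀ < 1 →
  ∀ (n : ℕ) (Ω U A : Set (E n)) (z : E n) (f g : E n → E n), U ⊆ Ω → A ⊆ U → z ∈ U →
    IsChart Ω U ρ₀ z f g → (∃ m : ℕ, ∃ y ∈ A, Chain U lam m z y) →
    k ≤ hops U A lam z →
    ∃ b : E n, ‖b‖ ≤ 1 ∧ ∀ a : E n, ‖a‖ ≤ 1 / 2 →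
      lam ^ hops U A lam (g a) ≤ Real.exp e₁ * lam ^ hops U A lam z *
        (‖1 - (inner ℂ b a : ℂ)‖ ^ 2 / (1 - ‖a‖ ^ 2))

/-- (J6) lower bound for the number of steps. -/
def LowerBound : Prop := ∀ (n : ℕ) (Ω : Set (E n)) (ρ : E n → ℝ), Dom n Ω ρ →
  ∀ (p : E n) (η L σ : ℝ), 0 < η → η < 1 → 0 ≤ L → 0 < σ → HopfAt Ω ρ p L η σ →
  ∀ (lam : ℝ) (k : ℕ) (ρ₀ σ' r₀ : ℝ), 1 < lam → 0 < k → ρ₀ < 1 →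
    (3 * lam ^ k - 1) / (3 * lam ^ k + 1) ≤ 2 * ρ₀ - 1 → 0 < σ' → σ' ≤ σ →
    (∀ z ∈ Ω ∩ ball p σ', ∃ f g : E n → E n, IsChart Ω (Ω ∩ ball p σ) ρ₀ z f g) →
    0 < r₀ → ∃ C : ℝ, 0 < C ∧ ∀ (m : ℕ) (x y : E n), x ∈ Ω ∩ ball p σ' →
      y ∈ Ω ∩ ball p σ' → r₀ ≤ -ρ y → Chain (Ω ∩ ball p σ') lam m x y →
      1 ≤ C * (4 * lam ^ k) ^ ((m : ℝ) / k) * (-ρ x) ^ η

/-- (J7a) upper bound for `VV` from two discs. -/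
def VUpper : Prop := ∀ (n : ℕ) (Ω : Set (E n)) (N v z : E n) (a : ℂ) (r₁ r₂ : ℝ)
  (φ₁ φ₂ : ℂ → E n), IsOpen Ω → z ∈ Ω → 0 < r₁ → 0 < r₂ →
  DifferentiableOn ℂ φ₁ (ball 0 1) → MapsTo φ₁ (ball 0 1) Ω → φ₁ 0 = z →
  deriv φ₁ 0 = (r₁ : ℂ) • N →
  DifferentiableOn ℂ φ₂ (ball 0 1) → MapsTo φ₂ (ball 0 1) Ω → φ₂ 0 = z →
  deriv φ₂ 0 = (r₂ : ℂ) • (v - a • N) →
  VV Ω N v z ≤ 1 / (r₁ * r₂) ^ 2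

/-- (J7b) `VV` in charts: lower bound, near-extremality and transport by automorphisms of `B²`. -/
def VChart : Prop := ∀ (n : ℕ) (Ω : Set (E n)) (N v : E n) (D : ℝ), IsOpen Ω →
  ‖N‖ = 1 → ‖v‖ = 1 → (inner ℂ N v : ℂ) = 0 → 0 < D →
  (∀ x ∈ Ω, ∀ y ∈ Ω, dist x y ≤ D) →
  ∀ (ρ₀ : ℝ) (z : E n) (f g : E n → E n), 0 < ρ₀ → z ∈ Ω → IsChart Ω Ω ρ₀ z f g →
    (ρ₀ / D) ^ 2 * ‖fderiv ℂ f z N‖ ^ 2 ≤ VV Ω N v z ∧ 0 < VV Ω N v z ∧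
    ∃ F₁ F₂ : E n → ℂ, IsMap2 Ω F₁ F₂ ∧
      (∀ x ∈ Ω, ‖F₁ x‖ ^ 2 + ‖F₂ x‖ ^ 2 ≤ ‖f x‖ ^ 2) ∧
      VV Ω N v z ≤ ‖Jac F₁ F₂ N v z‖ ^ 2 / ρ₀ ^ 4 ∧
      (∀ x ∈ Ω, ‖Jac F₁ F₂ N v x‖ ^ 2 ≤
        (1 - ‖F₁ x‖ ^ 2 - ‖F₂ x‖ ^ 2) ^ 3 * VV Ω N v x) ∧
      (∀ r : ℝ, 0 < r → (∀ ζ : ℂ, ‖ζ‖ < r → z + ζ • N ∈ Ω) → ∀ ζ : ℂ, ‖ζ‖ < r →
        ‖f (z + ζ • N)‖ ^ 2 - ‖F₁ (z + ζ • N)‖ ^ 2 - ‖F₂ (z + ζ • N)‖ ^ 2 ≤ (‖ζ‖ / r) ^ 4)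

/-- (J8a) first and second order behaviour of `ρ` on the normal slice. -/
def SliceGeom : Prop := ∀ (n : ℕ) (Ω : Set (E n)) (ρ : E n → ℝ), Dom n Ω ρ →
  ∀ p ∈ frontier Ω, ∀ N : E n, ‖N‖ = 1 →
  (∀ w : E n, fderiv ℝ ρ p w = (inner ℂ N w : ℂ).re) →
  ∃ c C : ℝ, 0 < c ∧ 1 ≤ C ∧
    (∀ ζ : ℂ, ‖ζ‖ < c → |(-ρ (p - ζ • N)) - ζ.re| ≤ C * ‖ζ‖ ^ 2) ∧
    (∀ ζ : ℂ, ‖ζ‖ < c → ∃ κ : ℂ, ‖κ - 1‖ ≤ 1 / 4 ∧ ∀ ξ : ℂ, ‖ξ‖ < c →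
      |(-ρ (p - (ζ + ξ) • N)) - (-ρ (p - ζ • N)) - (κ * ξ).re| ≤ C * ‖ξ‖ ^ 2)

/-- (J8b) upper bounds for `VV` on the normal slice through a point with degenerate Levi form. -/
def SliceV : Prop := ∀ (n : ℕ) (Ω : Set (E n)) (ρ : E n → ℝ), Dom n Ω ρ →
  ∀ p ∈ frontier Ω, ∀ N v : E n, ‖N‖ = 1 → ‖v‖ = 1 →
  (∀ w : E n, fderiv ℝ ρ p w = (inner ℂ N w : ℂ).re) → (inner ℂ N v : ℂ) = 0 →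
  Lev ρ p v = 0 →
  ∃ c C : ℝ, 0 < c ∧ 1 ≤ C ∧
    (∀ ζ : ℂ, ‖ζ‖ < c → 0 < -ρ (p - ζ • N) →
      VV Ω N v (p - ζ • N) ≤ C / (-ρ (p - ζ • N)) ^ 3) ∧
    (∀ ζ : ℂ, ‖ζ‖ < c → 0 < -ρ (p - ζ • N) → -ρ (p - ζ • N) ≤ |ζ.im| ^ 6 / C →
      VV Ω N v (p - ζ • N) ≤ C * |ζ.im| ^ 2 / (-ρ (p - ζ • N)) ^ 3)

/-- (J9) existence of the extreme weakly pseudoconvex point. -/
def ExistsP : Prop := ∀ (n : ℕ) (Ω : Set (E n)) (ρ : E n → ℝ), Dom n Ω ρ →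
  ∀ p₁ ∈ frontier Ω, ∀ w₁ : E n, w₁ ≠ 0 → fderiv ℝ ρ p₁ w₁ = 0 →
  fderiv ℝ ρ p₁ (Complex.I • w₁) = 0 → ¬ 0 < Lev ρ p₁ w₁ →
  ∃ p ∈ frontier Ω, ∃ v : E n, ‖v‖ = 1 ∧ fderiv ℝ ρ p v = 0 ∧
    fderiv ℝ ρ p (Complex.I • v) = 0 ∧ Lev ρ p v = 0 ∧
    (∀ q ∈ frontier Ω, ∀ w : E n, w ≠ 0 → fderiv ℝ ρ q w = 0 →
      fderiv ℝ ρ q (Complex.I • w) = 0 → Lev ρ q w = 0 → ‖q‖ ≤ ‖p‖)

end Sqz
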