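import Pool.Agent.Sqz.Spec

/-!
# Localization of holomorphic discs near an extreme weakly pseudoconvex point (J3)
-/

set_option autoImplicit false

open Metric Set Filter Topology

namespace Sqz

namespace Loc

/-- Montel's theorem for bounded sequences of discs (on a smaller closed disc). -/
theorem montel {F : Type*} [NormedAddCommGroup F] [NormedSpace ℂ F] [FiniteDimensional ℂ F]
    (M R : ℝ) (hM : 0 ≤ M) (hR1 : R < 1) (φ : ℕ → ℂ → F)
    (hd : ∀ j, DifferentiableOn ℂ (φ j) (ball 0 1))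
    (hb : ∀ j, ∀ s ∈ ball (0 : ℂ) 1, ‖φ j s‖ ≤ M) :
    ∃ (k : ℕ → ℕ) (Φ : ℂ → F), StrictMono k ∧
      TendstoUniformlyOn (fun j => φ (k j)) Φ atTop (closedBall 0 R) := by
  classical
  have : ProperSpace F := FiniteDimensional.proper ℂ F
  set K : Set ℂ := closedBall (0 : ℂ) R with hK
  have hKs : K ⊆ ball (0 : ℂ) 1 := closedBall_subset_ball hR1
  have : CompactSpace K := isCompact_iff_compactSpace.1 (isCompact_closedBall _ _)
  set C : ℝ := (2 * M + 1) / (1 - R) with hC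
  have hC0 : 0 ≤ C := div_nonneg (by linarith) (by linarith)
  -- Lipschitz bound
  have hlip : ∀ j, ∀ x ∈ K, ∀ y ∈ K, ‖φ j y - φ j x‖ ≤ C * ‖y - x‖ := by
    intro j x hx y hy
    refine Convex.norm_image_sub_le_of_norm_deriv_le (𝕜 := ℂ) (s := K) ?_ ?_
      (convex_closedBall _ _) hx hy
    · intro z hz
      exact (hd j).differentiableAt (isOpen_ball.mem_nhds (hKs hz))
    · intro z hz
      have hsub : ball z (1 - R) ⊆ ball (0 : ℂ) 1 := by
        intro w hw
        rw [mem_ball, dist_zero_right]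
        rw [mem_ball, dist_eq_norm] at hw
        rw [hK, mem_closedBall, dist_zero_right] at hz
        calc ‖w‖ = ‖(w - z) + z‖ := by ring_nf
          _ ≤ ‖w - z‖ + ‖z‖ := norm_add_le _ _
          _ < 1 := by linarith
      refine Complex.norm_deriv_le_div_of_mapsTo_ball ((hd j).mono hsub) ?_ (by linarith)
      intro w hw
      rw [mem_closedBall, dist_eq_norm]
      have h1 := hb j w (hsub hw)
      have h2 := hb j z (hKs hz)
      calc ‖φ j w - φ j z‖ ≤ ‖φ j w‖ + ‖φ j z‖ := norm_sub_le _ _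
        _ ≤ 2 * M + 1 := by linarith
  have hcont : ∀ j, Continuous (fun x : K => φ j x) := fun j =>
    ((hd j).continuousOn.mono hKs).domRestrict
  let G : ℕ → BoundedContinuousFunction K F := fun j =>
    BoundedContinuousFunction.mkOfCompact ⟨fun x : K => φ j x, hcont j⟩
  have hG : ∀ j (x : K), G j x = φ j x := fun j x => rfl
  have hcomp : IsCompact (closure (range G)) := by
    refine BoundedContinuousFunction.arzela_ascoli (closedBall (0 : F) M)
      (isCompact_closedBall _ _) (range G) ?_ ?_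
    · rintro f x ⟨j, rfl⟩
      rw [mem_closedBall, dist_zero_right, hG]
      exact hb j x (hKs x.2)
    · refine Metric.equicontinuous_of_continuity_modulus (fun t => C * t) ?_ _ ?_
      · have : Tendsto (fun t : ℝ => C * t) (𝓝 0) (𝓝 (C * 0)) := tendsto_id.const_mul C
        rwa [mul_zero] at this
      · rintro x y ⟨f, j, rfl⟩
        show dist (φ j x) (φ j y) ≤ C * dist x y
        rw [dist_comm (φ j x), dist_eq_norm, dist_comm x, Subtype.dist_eq, dist_eq_norm]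
        exact hlip j x x.2 y y.2
  obtain ⟨g, _, k, hk, hlim⟩ := hcomp.tendsto_subseq (x := G)
    (fun j => subset_closure (mem_range_self j))
  refine ⟨k, fun s => if h : s ∈ K then g ⟨s, h⟩ else 0, hk, ?_⟩
  rw [Metric.tendstoUniformlyOn_iff]
  intro ε hε
  filter_upwards [(Metric.tendsto_nhds.1 hlim) ε hε] with j hj s hs
  rw [dif_pos hs, dist_comm]
  exact lt_of_le_of_lt (BoundedContinuousFunction.dist_coe_le_dist (f := G (k j)) (g := g) ⟨s, hs⟩)
    hj

theorem rho_frontier {n : ℕ} {Ω : Set (E n)} {ρ : E n → ℝ} (hD : Dom n Ω ρ) {q : E n}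
    (hq : q ∈ frontier Ω) : ρ q = 0 := by
  have h1 := hD.eq
  rw [h1] at hq
  exact frontier_lt_subset_eq hD.smooth.continuous continuous_const hq

theorem not_mem_of_frontier {n : ℕ} {Ω : Set (E n)} {ρ : E n → ℝ} (hD : Dom n Ω ρ) {q : E n}
    (hq : q ∈ frontier Ω) : q ∉ Ω := by
  intro h
  rw [hD.eq] at h
  exact absurd (rho_frontier hD hq) (ne_of_lt h)

theorem continuous_uDF {n : ℕ} {Ω : Set (E n)} {ρ : E n → ℝ} (hD : Dom n Ω ρ) (q : E n)
    (L : ℝ) : Continuous (uDF ρ q L (1 / 2)) := by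
  unfold uDF
  refine Continuous.rpow_const ?_ (fun _ => Or.inr (by norm_num))
  refine (hD.smooth.continuous.neg).mul ?_
  fun_prop

theorem near_frontier (hopf : HopfLemma) {n : ℕ} {Ω : Set (E n)} {ρ : E n → ℝ} (hD : Dom n Ω ρ)
    (R : ℝ) (hR : R < 1) (ψ : ℕ → ℂ → E n) (Φ : ℂ → E n)
    (hd : ∀ j, DifferentiableOn ℂ (ψ j) (ball 0 1)) (hm : ∀ j, MapsTo (ψ j) (ball 0 1) Ω)
    (hlim : TendstoUniformlyOn ψ Φ atTop (closedBall 0 R))
    (s1 : ℂ) (hs1 : s1 ∈ ball (0 : ℂ) R) (hq : Φ s1 ∈ frontier Ω) :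
    ∃ t > 0, ∀ s2 ∈ ball s1 t, Φ s2 ∉ Ω := by
  have hKs : closedBall (0 : ℂ) R ⊆ ball (0 : ℂ) 1 := closedBall_subset_ball hR
  have hcont : ContinuousOn Φ (closedBall 0 R) :=
    hlim.continuousOn (Frequently.of_forall fun j => (hd j).continuousOn.mono hKs)
  have hcontAt : ∀ s ∈ ball (0 : ℂ) R, ContinuousAt Φ s := fun s hs =>
    hcont.continuousAt (Filter.mem_of_superset (isOpen_ball.mem_nhds hs) ball_subset_closedBall)
  obtain ⟨L, hL, σ, hσ, hH⟩ := hopf n Ω ρ hD (Φ s1) hq (1 / 2) (by norm_num) (by norm_num)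
  have hnb : {s | s ∈ ball (0 : ℂ) R ∧ Φ s ∈ ball (Φ s1) (σ / 2)} ∈ 𝓝 s1 :=
    Filter.inter_mem (isOpen_ball.mem_nhds hs1)
      ((hcontAt s1 hs1) (ball_mem_nhds _ (half_pos hσ)))
  obtain ⟨r, hr, hball⟩ := Metric.mem_nhds_iff.1 hnb
  refine ⟨r / 3, by linarith, fun s2 hs2 h2 => ?_⟩
  have hs12 : s1 ≠ s2 := by
    rintro rfl
    exact not_mem_of_frontier hD hq h2
  have hd12 : 0 < dist s1 s2 := dist_pos.2 hs12
  have hs2' : dist s2 s1 < r / 3 := hs2
  have hs2R : s2 ∈ ball (0 : ℂ) R := (hball (by rw [mem_ball]; linarith)).1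
  set u := uDF ρ (Φ s1) L (1 / 2) with hu
  have huc : Continuous u := continuous_uDF hD _ _
  have hpos : 0 < u (Φ s2) := by
    rw [hu]
    unfold uDF
    apply Real.rpow_pos_of_pos
    apply mul_pos _ (Real.exp_pos _)
    have : ρ (Φ s2) < 0 := by
      have h := h2
      rw [hD.eq] at h
      exact h
    linarith
  set m := u (Φ s2) / 2 with hm_def
  have hmpos : 0 < m := half_pos hpos
  have hV : IsOpen {z : E n | m < u z} := isOpen_lt continuous_const huc
  have hnb2 : {s | s ∈ ball (0 : ℂ) R ∧ m < u (Φ s)} ∈ 𝓝 s2 :=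
    Filter.inter_mem (isOpen_ball.mem_nhds hs2R)
      ((hcontAt s2 hs2R) (hV.mem_nhds (show m < u (Φ s2) by linarith)))
  obtain ⟨t2, ht2, hball2⟩ := Metric.mem_nhds_iff.1 hnb2
  set t' := min (t2 / 2) (dist s1 s2 / 2) with ht'
  have ht'pos : 0 < t' := lt_min (by linarith) (by linarith)
  have ht'1 : t' < t2 := (min_le_left _ _).trans_lt (by linarith)
  have ht'2 : t' ≤ dist s1 s2 / 2 := min_le_right _ _
  have hsph : sphere s2 t' ⊆ ball s2 t2 := fun s hs => by
    rw [mem_sphere] at hs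
    rw [mem_ball, hs]
    exact ht'1
  have hKc : IsCompact (Φ '' sphere s2 t') := by
    refine (isCompact_sphere _ _).image_of_continuousOn (hcont.mono fun s hs => ?_)
    exact ball_subset_closedBall (hball2 (hsph hs)).1
  obtain ⟨δ, hδ, hthick⟩ := hKc.exists_thickening_subset_open hV (by
    rintro _ ⟨s, hs, rfl⟩
    exact (hball2 (hsph hs)).2)
  have hev : ∀ᶠ j in atTop, ∀ s ∈ closedBall (0 : ℂ) R, dist (Φ s) (ψ j s) < min δ (σ / 2) :=
    Metric.tendstoUniformlyOn_iff.1 hlim _ (lt_min hδ (half_pos hσ))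
  set c := Real.log (2 * (r / 3) / ‖s1 - s2‖) / Real.log (2 * (r / 3) / t') with hc
  have hn12 : ‖s1 - s2‖ = dist s1 s2 := (dist_eq_norm _ _).symm
  have hlt12 : ‖s1 - s2‖ < r / 3 := by
    rw [hn12, dist_comm]
    exact hs2'
  have hn12pos : 0 < ‖s1 - s2‖ := by rw [hn12]; exact hd12
  have hcpos : 0 < c := by
    apply div_pos
    · apply Real.log_pos
      rw [lt_div_iff₀ hn12pos]
      linarith
    · apply Real.log_pos
      rw [lt_div_iff₀ ht'pos]
      rw [hn12] at hlt12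
      linarith
  have key : ∀ᶠ j in atTop, m * c ≤ u (ψ j s1) := by
    filter_upwards [hev] with j hj
    have hsub : ball s2 (2 * (r / 3)) ⊆ ball s1 r := by
      intro s hs
      rw [mem_ball] at hs ⊢
      have := dist_triangle s s2 s1
      linarith
    refine hH s2 t' (2 * (r / 3)) m (ψ j) ht'pos ?_ hmpos.le ?_ ?_ ?_ s1 ?_ ?_
    · rw [hn12] at hlt12
      linarith
    · exact (hd j).mono fun s hs => hKs (ball_subset_closedBall (hball (hsub hs)).1)
    · intro s hs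
      have h1 := hball (hsub hs)
      refine ⟨hm j (hKs (ball_subset_closedBall h1.1)), ?_⟩
      have h3 : dist (Φ s) (ψ j s) < σ / 2 :=
        (hj s (ball_subset_closedBall h1.1)).trans_le (min_le_right _ _)
      have h4 : dist (Φ s) (Φ s1) < σ / 2 := h1.2
      rw [mem_ball]
      have := dist_triangle (ψ j s) (Φ s) (Φ s1)
      rw [dist_comm (ψ j s) (Φ s)] at this
      linarith
    · intro s hs
      have hs' : s ∈ sphere s2 t' := by rw [mem_sphere, dist_eq_norm]; exact hs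
      have h1 := (hball2 (hsph hs')).1
      have h3 : dist (Φ s) (ψ j s) < δ :=
        (hj s (ball_subset_closedBall h1)).trans_le (min_le_left _ _)
      have h5 : ψ j s ∈ thickening δ (Φ '' sphere s2 t') := by
        rw [mem_thickening_iff]
        exact ⟨Φ s, mem_image_of_mem _ hs', by rw [dist_comm]; exact h3⟩
      exact (le_of_lt (hthick h5))
    · rw [hn12]
      linarith
    · linarith
  have hlim1 : Tendsto (fun j => ψ j s1) atTop (𝓝 (Φ s1)) :=
    hlim.tendsto_at (ball_subset_closedBall hs1)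
  have hlim2 : Tendsto (fun j => u (ψ j s1)) atTop (𝓝 (u (Φ s1))) :=
    (huc.tendsto _).comp hlim1
  have hu0 : u (Φ s1) = 0 := by
    rw [hu]
    unfold uDF
    rw [rho_frontier hD hq, neg_zero, zero_mul, Real.zero_rpow (by norm_num)]
  rw [hu0] at hlim2
  have := ge_of_tendsto hlim2 key
  have h6 : 0 < m * c := mul_pos hmpos hcpos
  linarith

theorem maps_frontier (hopf : HopfLemma) {n : ℕ} {Ω : Set (E n)} {ρ : E n → ℝ}
    (hD : Dom n Ω ρ) (R : ℝ) (hR0 : 0 < R) (hR : R < 1) (ψ : ℕ → ℂ → E n) (Φ : ℂ → E n)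
    (hd : ∀ j, DifferentiableOn ℂ (ψ j) (ball 0 1)) (hm : ∀ j, MapsTo (ψ j) (ball 0 1) Ω)
    (hlim : TendstoUniformlyOn ψ Φ atTop (closedBall 0 R)) (h0 : Φ 0 ∈ frontier Ω) :
    ∀ s ∈ ball (0 : ℂ) R, Φ s ∈ frontier Ω := by
  have hKs : closedBall (0 : ℂ) R ⊆ ball (0 : ℂ) 1 := closedBall_subset_ball hR
  have hcont : ContinuousOn Φ (closedBall 0 R) :=
    hlim.continuousOn (Frequently.of_forall fun j => (hd j).continuousOn.mono hKs)
  have hcl : ∀ s ∈ closedBall (0 : ℂ) R, Φ s ∈ closure Ω := fun s hs =>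
    mem_closure_of_tendsto (hlim.tendsto_at hs)
      (Eventually.of_forall fun j => hm j (hKs hs))
  have hfr : ∀ s ∈ closedBall (0 : ℂ) R, Φ s ∉ Ω → Φ s ∈ frontier Ω := fun s hs h => by
    rw [hD.isOpen.frontier_eq]
    exact ⟨hcl s hs, h⟩
  have hU : IsOpen {s | s ∈ ball (0 : ℂ) R ∧ Φ s ∉ Ω} := by
    rw [isOpen_iff_mem_nhds]
    rintro s ⟨hs, hs'⟩
    obtain ⟨t, ht, h⟩ := near_frontier hopf hD R hR ψ Φ hd hm hlim s hs
      (hfr s (ball_subset_closedBall hs) hs')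
    exact Filter.inter_mem (isOpen_ball.mem_nhds hs) (Filter.mem_of_superset (ball_mem_nhds s ht) h)
  have hV : IsOpen {s | s ∈ ball (0 : ℂ) R ∧ Φ s ∈ Ω} :=
    (hcont.mono ball_subset_closedBall).isOpen_inter_preimage isOpen_ball hD.isOpen
  have hpre : IsPreconnected (ball (0 : ℂ) R) := (convex_ball _ _).isPreconnected
  rw [isPreconnected_iff_subset_of_disjoint] at hpre
  rcases hpre _ _ hU hV (fun s hs => by
      by_cases h : Φ s ∈ Ω
      · exact Or.inr ⟨hs, h⟩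
      · exact Or.inl ⟨hs, h⟩) (by
      ext s
      simp only [mem_inter_iff, Set.mem_ofPred_eq, mem_empty_iff_false, iff_false]
      rintro ⟨_, ⟨_, h1⟩, ⟨_, h2⟩⟩
      exact h1 h2) with h | h
  · intro s hs
    exact hfr s (ball_subset_closedBall hs) (h hs).2
  · exfalso
    exact not_mem_of_frontier hD h0 (h (mem_ball_self hR0)).2

/-- A holomorphic disc in the zero set of `ρ` is tangent to it and Levi flat. -/
theorem levi_zero {n : ℕ} {ρ : E n → ℝ} (hρ : ContDiff ℝ ((⊤ : ℕ∞) : WithTop ℕ∞) ρ) {V : Set ℂ}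
    (hV : IsOpen V) {Φ : ℂ → E n} (hΦ : DifferentiableOn ℂ Φ V) (h0 : ∀ s ∈ V, ρ (Φ s) = 0)
    (s : ℂ) (hs : s ∈ V) : fderiv ℝ ρ (Φ s) (deriv Φ s) = 0 ∧
      fderiv ℝ ρ (Φ s) (Complex.I • deriv Φ s) = 0 ∧ Lev ρ (Φ s) (deriv Φ s) = 0 := by
  have hpath : ∀ (e s : ℂ), HasDerivAt (fun t : ℝ => s + (t : ℂ) * e) e 0 := by
    intro e s
    have h1 : HasDerivAt (fun t : ℝ => (t : ℂ)) 1 0 := Complex.ofRealCLM.hasDerivAt
    have h2 := (h1.mul_const e).const_add s
    simpa using h2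
  have hpath0 : ∀ (e s : ℂ), s + ((0 : ℝ) : ℂ) * e = s := fun e s => by simp
  have hev : ∀ (e s : ℂ), s ∈ V → ∀ᶠ t : ℝ in 𝓝 (0 : ℝ), s + (t : ℂ) * e ∈ V := by
    intro e s hs
    have h1 := (hpath e s).continuousAt
    have h2 : V ∈ 𝓝 (s + ((0 : ℝ) : ℂ) * e) := by
      rw [hpath0]
      exact hV.mem_nhds hs
    exact h1 h2
  have hcomp : ∀ (e s : ℂ) (F : ℂ → E n), DifferentiableOn ℂ F V → s ∈ V →
      HasDerivAt (fun t : ℝ => F (s + (t : ℂ) * e)) (e • deriv F s) 0 := by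
    intro e s F hF hs
    have h1 : HasDerivAt F (deriv F s) (s + ((0 : ℝ) : ℂ) * e) := by
      rw [hpath0]
      exact (hF.differentiableAt (hV.mem_nhds hs)).hasDerivAt
    exact h1.scomp (0 : ℝ) (hpath e s)
  have hρd : ∀ z, HasFDerivAt ρ (fderiv ℝ ρ z) z := fun z =>
    (hρ.differentiable (by simp) z).hasFDerivAt
  have hρ2 : ContDiff ℝ ((⊤ : ℕ∞) : WithTop ℕ∞) (fderiv ℝ ρ) :=
    hρ.fderiv_right (m := ((⊤ : ℕ∞) : WithTop ℕ∞)) (by norm_cast)
  have hρ2d : ∀ z, HasFDerivAt (fderiv ℝ ρ) (fderiv ℝ (fderiv ℝ ρ) z) z := fun z =>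
    (hρ2.differentiable (by simp) z).hasFDerivAt
  -- first order
  have first : ∀ (e s : ℂ), s ∈ V → fderiv ℝ ρ (Φ s) (e • deriv Φ s) = 0 := by
    intro e s hs
    have h1 : HasFDerivAt ρ (fderiv ℝ ρ (Φ s)) ((fun t : ℝ => Φ (s + (t : ℂ) * e)) 0) := by
      show HasFDerivAt ρ (fderiv ℝ ρ (Φ s)) (Φ (s + ((0 : ℝ) : ℂ) * e))
      rw [hpath0]
      exact hρd _
    have h2 : HasDerivAt (fun t : ℝ => ρ (Φ (s + (t : ℂ) * e)))
        (fderiv ℝ ρ (Φ s) (e • deriv Φ s)) 0 := h1.comp_hasDerivAt (0 : ℝ) (hcomp e s Φ hΦ hs)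
    have h3 : (fun t : ℝ => ρ (Φ (s + (t : ℂ) * e))) =ᶠ[𝓝 0] fun _ => (0 : ℝ) := by
      filter_upwards [hev e s hs] with t ht
      exact h0 _ ht
    have h4 : HasDerivAt (fun t : ℝ => ρ (Φ (s + (t : ℂ) * e))) 0 0 :=
      (hasDerivAt_const (0 : ℝ) (0 : ℝ)).congr_of_eventuallyEq h3
    exact h2.unique h4
  have second : ∀ (e s : ℂ), s ∈ V →
      fderiv ℝ (fderiv ℝ ρ) (Φ s) (e • deriv Φ s) (e • deriv Φ s) +
        fderiv ℝ ρ (Φ s) (e • (e • deriv (deriv Φ) s)) = 0 := by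
    intro e s hs
    have h1 : HasFDerivAt (fderiv ℝ ρ) (fderiv ℝ (fderiv ℝ ρ) (Φ s))
        ((fun t : ℝ => Φ (s + (t : ℂ) * e)) 0) := by
      show HasFDerivAt (fderiv ℝ ρ) (fderiv ℝ (fderiv ℝ ρ) (Φ s)) (Φ (s + ((0 : ℝ) : ℂ) * e))
      rw [hpath0]
      exact hρ2d _
    have h2 : HasDerivAt (fun t : ℝ => fderiv ℝ ρ (Φ (s + (t : ℂ) * e)))
        (fderiv ℝ (fderiv ℝ ρ) (Φ s) (e • deriv Φ s)) 0 :=
      h1.comp_hasDerivAt (0 : ℝ) (hcomp e s Φ hΦ hs)
    have h3 : HasDerivAt (fun t : ℝ => e • deriv Φ (s + (t : ℂ) * e))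
        (e • (e • deriv (deriv Φ) s)) 0 :=
      (hcomp e s (deriv Φ) (hΦ.deriv hV) hs).const_smul e
    have h4 := h2.clm_apply h3
    have h5 : (fun t : ℝ => (fderiv ℝ ρ (Φ (s + (t : ℂ) * e))) (e • deriv Φ (s + (t : ℂ) * e)))
        =ᶠ[𝓝 0] fun _ => (0 : ℝ) := by
      filter_upwards [hev e s hs] with t ht
      exact first e _ ht
    have h6 : HasDerivAt (fun t : ℝ => (fderiv ℝ ρ (Φ (s + (t : ℂ) * e)))
        (e • deriv Φ (s + (t : ℂ) * e))) 0 0 :=
      (hasDerivAt_const (0 : ℝ) (0 : ℝ)).congr_of_eventuallyEq h5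
    have h7 := h4.unique h6
    rw [hpath0] at h7
    exact h7
  refine ⟨?_, first Complex.I s hs, ?_⟩
  · have := first 1 s hs
    rwa [one_smul] at this
  · have e1 := second 1 s hs
    have e2 := second Complex.I s hs
    rw [one_smul, one_smul, one_smul] at e1
    rw [smul_smul Complex.I Complex.I, Complex.I_mul_I, neg_one_smul, map_neg] at e2
    unfold Lev
    linarith

end Loc

open Loc in
theorem localization (hopf : HopfLemma) : Localization := by
  intro n Ω ρ hD p hp hext R hR σ hσ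
  by_contra hcon
  push Not at hcon
  choose φ hφ1 hφ2 hφ3 s hs1 hs2 using fun j : ℕ => hcon (1 / ((j : ℝ) + 1)) (by positivity)
  have hR0 : 0 < R := (norm_nonneg _).trans_lt (hs1 0)
  set R' := (R + 1) / 2 with hR'
  have hR'1 : R' < 1 := by linarith
  have hRR' : R < R' := by linarith
  obtain ⟨M₀, hM₀⟩ := hD.bdd.exists_norm_le
  set M := max M₀ 0
  have hM : ∀ x ∈ Ω, ‖x‖ ≤ M := fun x hx => (hM₀ x hx).trans (le_max_left _ _)
  obtain ⟨k, Φ, hk, hlim⟩ := montel M R' (le_max_right _ _) hR'1 φ hφ1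
    (fun j s hs => hM _ (hφ2 j hs))
  obtain ⟨s', hs', k', hk', hlims⟩ := (isCompact_closedBall (0 : ℂ) R).tendsto_subseq
    (x := fun j => s (k j)) (fun j => by
      rw [mem_closedBall, dist_zero_right]
      exact (hs1 _).le)
  set κ : ℕ → ℕ := fun j => k (k' j) with hκ
  have hκm : StrictMono κ := hk.comp hk'
  have hlim' : TendstoUniformlyOn (fun j => φ (κ j)) Φ atTop (closedBall 0 R') := by
    rw [Metric.tendstoUniformlyOn_iff] at hlim ⊢
    intro ε hε
    exact hk'.tendsto_atTop.eventually (hlim ε hε)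
  have hKs : closedBall (0 : ℂ) R' ⊆ ball (0 : ℂ) 1 := closedBall_subset_ball hR'1
  have hcont : ContinuousOn Φ (closedBall 0 R') :=
    hlim'.continuousOn (Frequently.of_forall fun j => (hφ1 _).continuousOn.mono hKs)
  -- the value at the origin
  have hΦ0 : Φ 0 = p := by
    have h1 : Tendsto (fun j => φ (κ j) 0) atTop (𝓝 (Φ 0)) :=
      hlim'.tendsto_at (mem_closedBall_self (by linarith))
    have h2 : Tendsto (fun j => φ (κ j) 0) atTop (𝓝 p) := by
      rw [tendsto_iff_dist_tendsto_zero]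
      have h3 : Tendsto (fun j : ℕ => 1 / ((κ j : ℝ) + 1)) atTop (𝓝 0) :=
        tendsto_one_div_add_atTop_nhds_zero_nat.comp hκm.tendsto_atTop
      refine squeeze_zero (fun _ => dist_nonneg) (fun j => ?_) h3
      exact (mem_ball.1 (hφ3 (κ j))).le
    exact tendsto_nhds_unique h1 h2
  have hs'R : s' ∈ ball (0 : ℂ) R' := by
    rw [mem_ball]
    exact (mem_closedBall.1 hs').trans_lt hRR'
  have hcontAt : ∀ s ∈ ball (0 : ℂ) R', ContinuousAt Φ s := fun s hs =>
    hcont.continuousAt (Filter.mem_of_superset (isOpen_ball.mem_nhds hs) ball_subset_closedBall)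
  have hfar : σ ≤ dist (Φ s') p := by
    have h1 : Tendsto (fun j => φ (κ j) (s (κ j))) atTop (𝓝 (Φ s')) := by
      rw [tendsto_iff_dist_tendsto_zero]
      have h2 : Tendsto (fun j => Φ (s (κ j))) atTop (𝓝 (Φ s')) :=
        (hcontAt s' hs'R).tendsto.comp hlims
      rw [tendsto_iff_dist_tendsto_zero] at h2
      rw [Metric.tendsto_atTop] at h2 ⊢
      intro ε hε
      obtain ⟨N, hN⟩ := h2 (ε / 2) (half_pos hε)
      obtain ⟨N', hN'⟩ := eventually_atTop.1
        (Metric.tendstoUniformlyOn_iff.1 hlim' (ε / 2) (half_pos hε))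
      refine ⟨max N N', fun j hj => ?_⟩
      have h3 := hN j (le_trans (le_max_left _ _) hj)
      have h4 := hN' j (le_trans (le_max_right _ _) hj) (s (κ j)) (by
        rw [mem_closedBall, dist_zero_right]
        exact (hs1 _).le.trans hRR'.le)
      rw [Real.dist_eq, sub_zero, abs_of_nonneg dist_nonneg] at h3 ⊢
      have h5 := dist_triangle (φ (κ j) (s (κ j))) (Φ (s (κ j))) (Φ s')
      rw [dist_comm (φ (κ j) (s (κ j))) (Φ (s (κ j)))] at h5
      linarith
    have h2 : Tendsto (fun j => dist (φ (κ j) (s (κ j))) p) atTop (𝓝 (dist (Φ s') p)) :=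
      h1.dist tendsto_const_nhds
    refine ge_of_tendsto' h2 fun j => ?_
    have := hs2 (κ j)
    rwa [mem_ball, not_lt] at this
  have hfr := maps_frontier hopf hD R' (by linarith) hR'1 (fun j => φ (κ j)) Φ
    (fun j => hφ1 _) (fun j => hφ2 _) hlim' (by rw [hΦ0]; exact hp)
  have hdiff : DifferentiableOn ℂ Φ (ball 0 R') :=
    (hlim'.tendstoLocallyUniformlyOn.mono ball_subset_closedBall).differentiableOn
      (Eventually.of_forall fun j => (hφ1 _).mono (ball_subset_closedBall.trans hKs)) isOpen_ball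
  have hlev := levi_zero hD.smooth isOpen_ball hdiff (fun s hs => rho_frontier hD (hfr s hs))
  have hne : Φ s' ≠ p := by
    intro h
    rw [h, dist_self] at hfar
    linarith
  have h0R : (0 : ℂ) ∈ ball (0 : ℂ) R' := mem_ball_self (by linarith)
  have hpre : IsPreconnected (ball (0 : ℂ) R') := (convex_ball _ _).isPreconnected
  have hnorm : ∀ s ∈ ball (0 : ℂ) R', ‖Φ s‖ ≤ ‖p‖ := by
    intro z hz
    by_contra hlt
    push Not at hlt
    have hnb : {w | w ∈ ball (0 : ℂ) R' ∧ ‖p‖ < ‖Φ w‖} ∈ 𝓝 z :=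
      Filter.inter_mem (isOpen_ball.mem_nhds hz)
        ((hcontAt z hz).norm (Ioi_mem_nhds hlt))
    have hzero : deriv Φ =ᶠ[𝓝 z] 0 := by
      filter_upwards [hnb] with w hw
      by_contra hw0
      obtain ⟨l1, l2, l3⟩ := hlev w hw.1
      exact absurd (hext (Φ w) (hfr w hw.1) (deriv Φ w) hw0 l1 l2 l3) (not_le.2 hw.2)
    have han : AnalyticOnNhd ℂ (deriv Φ) (ball 0 R') :=
      (hdiff.deriv isOpen_ball).analyticOnNhd isOpen_ball
    have heq : EqOn (deriv Φ) 0 (ball 0 R') :=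
      han.eqOn_zero_of_preconnected_of_eventuallyEq_zero hpre hz hzero
    have hconst := isOpen_ball.is_const_of_deriv_eq_zero hpre hdiff heq hs'R h0R
    exact hne (hconst.trans hΦ0)
  have hmax : IsMaxOn (norm ∘ Φ) (ball (0 : ℂ) R') 0 := by
    intro z hz
    show ‖Φ z‖ ≤ ‖Φ 0‖
    rw [hΦ0]
    exact hnorm z hz
  have := Complex.eqOn_of_isPreconnected_of_isMaxOn_norm hpre isOpen_ball hdiff h0R hmax hs'R
  exact hne (this.trans hΦ0)

end Sqz
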