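import Pool.Agent.Sqz.HolDeriv

/-!
# Job J1b: Osgood's theorem

An injective holomorphic map between open sets of complex spaces of the same finite dimension has
injective derivative.
-/

set_option autoImplicit false

open Metric Set Filter Topology Module

namespace Sqz

namespace Osg

/-- The one variable case. -/
lemma one_var {φ : ℂ → ℂ} {r : ℝ} (hr : 0 < r) (hφ : DifferentiableOn ℂ φ (ball 0 r))
    (hinj : InjOn φ (ball 0 r)) : deriv φ 0 ≠ 0 := by
  intro hd0
  have hmem : (0 : ℂ) ∈ ball (0 : ℂ) r := mem_ball_self hr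
  have hφa : AnalyticAt ℂ φ 0 := hφ.analyticAt (ball_mem_nhds 0 hr)
  have hFa : AnalyticAt ℂ (fun z => φ z - φ 0) 0 := hφa.sub analyticAt_const
  have hne : ¬ ∀ᶠ z in 𝓝 (0 : ℂ), φ z - φ 0 = 0 := by
    intro h
    have h2 : ∀ᶠ z in 𝓝[≠] (0 : ℂ), (φ z - φ 0 = 0 ∧ z ∈ ball (0 : ℂ) r) ∧ z ≠ 0 :=
      ((h.and (ball_mem_nhds 0 hr)).filter_mono nhdsWithin_le_nhds).and
        eventually_mem_nhdsWithin
    obtain ⟨z, ⟨hz1, hz2⟩, hz3⟩ := h2.exists
    exact hz3 (hinj hz2 hmem (sub_eq_zero.1 hz1))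
  obtain ⟨k, g, hg, hg0, hFg⟩ := hFa.exists_eventuallyEq_pow_smul_nonzero_iff.2 hne
  simp only [sub_zero, smul_eq_mul] at hFg
  have hk0 : k ≠ 0 := by
    rintro rfl
    have := hFg.self_of_nhds
    simp at this
    exact hg0 this.symm
  have hk1 : k ≠ 1 := by
    rintro rfl
    have h1 : HasDerivAt (fun z => φ z - φ 0) 0 0 := by
      have := hφa.differentiableAt.hasDerivAt
      rw [hd0] at this
      exact this.sub_const _
    have h2 : HasDerivAt (fun z : ℂ => z ^ 1 * g z) (g 0) 0 := by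
      have h3 := hg.differentiableAt.hasDerivAt
      have : HasDerivAt (fun z : ℂ => z * g z) (1 * g 0 + 0 * deriv g 0) 0 :=
        (hasDerivAt_id (0 : ℂ)).mul h3
      simpa only [pow_one, one_mul, zero_mul, add_zero] using this
    have h4 := h2.congr_of_eventuallyEq hFg
    exact hg0 (h4.unique h1)
  -- local root
  set u : ℂ → ℂ := fun z => (g z / g 0) ^ ((k : ℂ)⁻¹) with hu
  have hua : AnalyticAt ℂ u 0 := by
    have h1 : AnalyticAt ℂ (fun z => g z / g 0) 0 := hg.div analyticAt_const hg0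
    refine h1.cpow analyticAt_const ?_
    rw [div_self hg0]
    exact Complex.one_mem_slitPlane
  have hu0 : u 0 = 1 := by simp [hu, div_self hg0]
  have huk : ∀ z, u z ^ k = g z / g 0 := fun z => Complex.cpow_nat_inv_pow _ hk0
  have hw : HasStrictDerivAt (fun z => z * u z) 1 0 := by
    have h1 : HasStrictDerivAt (fun z : ℂ => z * u z) (1 * u 0 + 0 * deriv u 0) 0 :=
      (hasStrictDerivAt_id (0 : ℂ)).mul hua.hasStrictDerivAt
    simpa only [hu0, one_mul, zero_mul, add_zero] using h1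
  have hmap := hw.map_nhds_eq one_ne_zero
  rw [zero_mul] at hmap
  have hV : ∀ᶠ z in 𝓝 (0 : ℂ), φ z - φ 0 = z ^ k * g z ∧ z ∈ ball (0 : ℂ) r :=
    hFg.and (ball_mem_nhds 0 hr)
  have hW : (fun z => z * u z) '' {z | φ z - φ 0 = z ^ k * g z ∧ z ∈ ball (0 : ℂ) r} ∈
      𝓝 (0 : ℂ) := by
    rw [← hmap]
    exact image_mem_map hV
  set W := (fun z => z * u z) '' {z | φ z - φ 0 = z ^ k * g z ∧ z ∈ ball (0 : ℂ) r} with hWdef
  set ζ : ℂ := Complex.exp (2 * Real.pi * Complex.I / k) with hζ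
  have hprim : IsPrimitiveRoot ζ k := Complex.isPrimitiveRoot_exp k hk0
  have hζ1 : ζ ≠ 1 := hprim.ne_one (by omega)
  have hζW : ∀ᶠ η in 𝓝 (0 : ℂ), ζ * η ∈ W := by
    have : Tendsto (fun η : ℂ => ζ * η) (𝓝 0) (𝓝 (ζ * 0)) :=
      (continuous_const.mul continuous_id).tendsto 0
    rw [mul_zero] at this
    exact this hW
  have hW' : ∀ᶠ η in 𝓝 (0 : ℂ), η ∈ W := hW
  have h2 : ∀ᶠ η in 𝓝[≠] (0 : ℂ), (η ∈ W ∧ ζ * η ∈ W) ∧ η ≠ 0 :=
    ((hW'.and hζW).filter_mono nhdsWithin_le_nhds).and eventually_mem_nhdsWithin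
  obtain ⟨η, ⟨⟨z1, ⟨hz1, hz1'⟩, he1⟩, ⟨z2, ⟨hz2, hz2'⟩, he2⟩⟩, hη⟩ := h2.exists
  simp only at he1 he2
  have hval : ∀ z, z ^ k * g z = (z * u z) ^ k * g 0 := by
    intro z
    rw [mul_pow, huk]
    field_simp
  have heq : φ z1 = φ z2 := by
    have h1 : φ z1 - φ 0 = η ^ k * g 0 := by rw [hz1, hval, he1]
    have h2 : φ z2 - φ 0 = η ^ k * g 0 := by
      rw [hz2, hval, he2, mul_pow, hprim.pow_eq_one, one_mul]
    have := h1.trans h2.symm
    exact sub_left_injective this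
  have hz12 := hinj hz1' hz2' heq
  rw [hz12, he2] at he1
  apply hζ1
  have : ζ * η = 1 * η := by rw [he1, one_mul]
  exact mul_right_cancel₀ hη this

/-- The induction hypothesis. -/
def P (n : ℕ) : Prop := ∀ (E F : Type) [NormedAddCommGroup E] [NormedSpace ℂ E]
  [FiniteDimensional ℂ E] [NormedAddCommGroup F] [NormedSpace ℂ F] [FiniteDimensional ℂ F],
  finrank ℂ E = n → finrank ℂ F = n → ∀ (U : Set E) (f : E → F), IsOpen U →
  DifferentiableOn ℂ f U → InjOn f U → ∀ a ∈ U, Function.Injective (fderiv ℂ f a)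

/-- Step 1: nonzero derivatives are injective. -/
lemma step1 {n : ℕ} (IH : P n) {E F : Type} [NormedAddCommGroup E] [NormedSpace ℂ E]
    [FiniteDimensional ℂ E] [NormedAddCommGroup F] [NormedSpace ℂ F] [FiniteDimensional ℂ F]
    (hE : finrank ℂ E = n + 1) (hF : finrank ℂ F = n + 1) {U : Set E} {f : E → F}
    (hU : IsOpen U) (hf : DifferentiableOn ℂ f U) (hinj : InjOn f U) {b : E} (hb : b ∈ U)
    (hb0 : fderiv ℂ f b ≠ 0) : Function.Injective (fderiv ℂ f b) := by
  have : CompleteSpace E := FiniteDimensional.complete ℂ E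
  have : CompleteSpace F := FiniteDimensional.complete ℂ F
  obtain ⟨X0, hX0⟩ : ∃ X, fderiv ℂ f b X ≠ 0 := by
    by_contra h
    push Not at h
    exact hb0 (ContinuousLinearMap.ext h)
  obtain ⟨l, hl⟩ : ∃ l : F →L[ℂ] ℂ, l (fderiv ℂ f b X0) ≠ 0 := SeparatingDual.exists_ne_zero hX0
  set lam : E →L[ℂ] ℂ := l.comp (fderiv ℂ f b) with hlam
  have hlX : lam X0 ≠ 0 := hl
  set e : E := (lam X0)⁻¹ • X0 with he
  have hle : lam e = 1 := by rw [he, map_smul, smul_eq_mul, inv_mul_cancel₀ hlX]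
  set F0 : F := fderiv ℂ f b e with hF0
  have hlF0 : l F0 = 1 := hle
  -- the straightening map
  set Φ : E → E := fun z => z + (l (f (b + z)) - l (f b) - lam z) • e with hΦ
  have hΦ0 : Φ 0 = 0 := by simp [hΦ]
  set U' : Set E := (fun z => b + z) ⁻¹' U with hU'
  have hU'o : IsOpen U' := hU.preimage (by fun_prop)
  have h0U' : (0 : E) ∈ U' := by simp [hU', hb]
  have hfsh : DifferentiableOn ℂ (fun z => f (b + z)) U' := by
    refine hf.comp ?_ (fun z hz => hz)
    fun_prop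
  have hΦd : DifferentiableOn ℂ Φ U' := by
    have h1 : DifferentiableOn ℂ (fun z => l (f (b + z))) U' :=
      l.differentiable.comp_differentiableOn hfsh
    have h2 : DifferentiableOn ℂ (fun z : E => lam z) U' := lam.differentiable.differentiableOn
    exact differentiableOn_id.add (((h1.sub_const _).sub h2).smul_const e)
  have hΦc : ContDiffAt ℂ 1 Φ 0 := by exact_mod_cast Hol.contDiffAt hU'o hΦd h0U' 1
  have hfb : HasFDerivAt (fun z => f (b + z)) (fderiv ℂ f b) 0 := by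
    have h1 : HasFDerivAt f (fderiv ℂ f b) (b + 0) := by
      rw [add_zero]
      exact (hf.differentiableAt (hU.mem_nhds hb)).hasFDerivAt
    have := HasFDerivAt.comp (0 : E) h1 ((hasFDerivAt_id (0 : E)).const_add b)
    rwa [ContinuousLinearMap.comp_id] at this
  have hΦ' : HasFDerivAt Φ ((ContinuousLinearEquiv.refl ℂ E : E ≃L[ℂ] E) : E →L[ℂ] E) 0 := by
    have h1 : HasFDerivAt (fun z => l (f (b + z))) lam 0 := l.hasFDerivAt.comp (0 : E) hfb
    have h2 : HasFDerivAt (fun z : E => lam z) lam 0 := lam.hasFDerivAt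
    have h3 := (hasFDerivAt_id (0 : E)).add (((h1.sub_const (l (f b))).sub h2).smul_const e)
    refine h3.congr_fderiv ?_
    ext x
    simp
  set Ψ : E → E := hΦc.localInverse hΦ' one_ne_zero with hΨ
  have hΨc : ContDiffAt ℂ 1 Ψ 0 := by
    have := hΦc.to_localInverse hΦ' one_ne_zero
    rwa [hΦ0] at this
  have hΨ0 : Ψ 0 = 0 := by
    have := hΦc.localInverse_apply_image hΦ' one_ne_zero
    rwa [hΦ0] at this
  have hstrict := hΦc.hasStrictFDerivAt' hΦ' one_ne_zero
  have hr : ∀ᶠ y in 𝓝 (0 : E), Φ (Ψ y) = y := by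
    have := hstrict.eventually_right_inverse
    rwa [hΦ0] at this
  have hΨ' : HasFDerivAt Ψ (ContinuousLinearMap.id ℂ E) 0 := by
    have := hstrict.to_localInverse.hasFDerivAt
    rw [hΦ0] at this
    exact this
  have hU'ev : ∀ᶠ y in 𝓝 (0 : E), Ψ y ∈ U' := by
    have : Tendsto Ψ (𝓝 0) (𝓝 (Ψ 0)) := hΨc.continuousAt
    rw [hΨ0] at this
    exact this (hU'o.mem_nhds h0U')
  have hdev : ∀ᶠ y in 𝓝 (0 : E), DifferentiableAt ℂ Ψ y := by
    have := hΨc.eventually (by simp)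
    exact this.mono fun y hy => hy.differentiableAt one_ne_zero
  obtain ⟨δ, hδ, hball⟩ := Metric.eventually_nhds_iff_ball.1 ((hr.and hU'ev).and hdev)
  -- the restricted map
  set E' := LinearMap.ker (lam : E →ₗ[ℂ] ℂ) with hE'
  set F' := LinearMap.ker (l : F →ₗ[ℂ] ℂ) with hF'
  have hlamne : (lam : E →ₗ[ℂ] ℂ) ≠ 0 := by
    intro h
    exact hlX (by simpa using congrArg (fun g : E →ₗ[ℂ] ℂ => g X0) h)
  have hlne : (l : F →ₗ[ℂ] ℂ) ≠ 0 := by
    intro h
    exact hl (by simpa using congrArg (fun g : F →ₗ[ℂ] ℂ => g (fderiv ℂ f b X0)) h)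
  have hE'n : finrank ℂ E' = n := by
    have : finrank ℂ E' + 1 = finrank ℂ E := Module.Dual.finrank_ker_add_one_of_ne_zero hlamne
    omega
  have hF'n : finrank ℂ F' = n := by
    have : finrank ℂ F' + 1 = finrank ℂ F := Module.Dual.finrank_ker_add_one_of_ne_zero hlne
    omega
  let π : F →L[ℂ] F' := (ContinuousLinearMap.id ℂ F - l.smulRight F0).codRestrict F' (by
    intro y
    simp [hF', hlF0])
  have hπ : ∀ y : F, l y = 0 → ((π y : F') : F) = y := by
    intro y hy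
    simp [π, hy]
  set V : Set E' := ball (0 : E') δ with hV
  have hVb : ∀ w ∈ V, (w : E) ∈ ball (0 : E) δ := by
    intro w hw
    simpa [hV] using hw
  have hin : ∀ w ∈ V, l (f (b + Ψ w) - f b) = 0 := by
    intro w hw
    have h1 := (hball _ (hVb w hw)).1.1
    have h2 : lam (Φ (Ψ w)) = l (f (b + Ψ w)) - l (f b) := by
      simp only [hΦ, map_add, map_smul, smul_eq_mul, hle, mul_one]
      ring
    rw [h1] at h2
    have h3 : lam (w : E) = 0 := w.2
    rw [map_sub, ← h2, h3]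
  set f' : E' → F' := fun w => π (f (b + Ψ w) - f b) with hf'
  have hf'd : DifferentiableOn ℂ f' V := by
    intro w hw
    have h1 := (hball _ (hVb w hw))
    have h2 : DifferentiableAt ℂ Ψ (w : E) := h1.2
    have h3 : DifferentiableAt ℂ (fun w : E' => Ψ (w : E)) w :=
      h2.comp w E'.subtypeL.differentiableAt
    have h4 : DifferentiableAt ℂ (fun z => f (b + z)) (Ψ w) :=
      hfsh.differentiableAt (hU'o.mem_nhds h1.1.2)
    have h5 : DifferentiableAt ℂ (fun w : E' => f (b + Ψ w)) w :=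
      DifferentiableAt.comp (g := fun z => f (b + z)) w h4 h3
    exact (π.differentiableAt.comp w (h5.sub_const (f b))).differentiableWithinAt
  have hf'inj : InjOn f' V := by
    intro w1 h1 w2 h2 h12
    have e1 := hπ _ (hin w1 h1)
    have e2 := hπ _ (hin w2 h2)
    have e3 : f (b + Ψ w1) - f b = f (b + Ψ w2) - f b := by
      rw [← e1, ← e2]
      exact congrArg _ h12
    have e4 : f (b + Ψ w1) = f (b + Ψ w2) := sub_left_injective e3
    have e5 := hinj (hball _ (hVb w1 h1)).1.2 (hball _ (hVb w2 h2)).1.2 e4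
    have e6 : Ψ w1 = Ψ w2 := add_left_cancel e5
    have e7 : (w1 : E) = w2 := by
      rw [← (hball _ (hVb w1 h1)).1.1, ← (hball _ (hVb w2 h2)).1.1, e6]
    exact Subtype.ext e7
  have hI := IH E' F' hE'n hF'n V f' isOpen_ball hf'd hf'inj 0 (mem_ball_self hδ)
  have hf'0 : HasFDerivAt f' (π.comp ((fderiv ℂ f b).comp E'.subtypeL)) 0 := by
    have h1 : HasFDerivAt (fun w : E' => Ψ (w : E)) E'.subtypeL 0 := by
      have h0 : HasFDerivAt Ψ (ContinuousLinearMap.id ℂ E) (E'.subtypeL 0) := by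
        simpa using hΨ'
      have := HasFDerivAt.comp (0 : E') h0 E'.subtypeL.hasFDerivAt
      rwa [ContinuousLinearMap.id_comp] at this
    have h2 : HasFDerivAt (fun z => f (b + z)) (fderiv ℂ f b) (Ψ ((0 : E') : E)) := by
      rw [ZeroMemClass.coe_zero, hΨ0]; exact hfb
    have h3 : HasFDerivAt (fun w : E' => f (b + Ψ w)) ((fderiv ℂ f b).comp E'.subtypeL) 0 :=
      HasFDerivAt.comp (g := fun z => f (b + z)) (0 : E') h2 h1
    exact π.hasFDerivAt.comp (0 : E') (h3.sub_const (f b))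
  rw [hf'0.fderiv] at hI
  rw [injective_iff_map_eq_zero]
  intro X hX
  have hXmem : X ∈ E' := by
    rw [hE', LinearMap.mem_ker]
    simp [hlam, hX]
  have : (⟨X, hXmem⟩ : E') = 0 := by
    apply hI
    simp [hX]
  exact congrArg Subtype.val this

/-! ### Iterated derivatives along a direction -/

section iter

variable {E : Type} [NormedAddCommGroup E] [NormedSpace ℂ E]

/-- `k`-th derivative in the direction `e` -/
noncomputable def iter (e : E) (h : E → ℂ) : ℕ → E → ℂ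
  | 0 => h
  | (k + 1) => fun z => fderiv ℂ (iter e h k) z e

lemma iter_diff {U : Set E} (hU : IsOpen U) {h : E → ℂ} (hh : DifferentiableOn ℂ h U) (e : E)
    (k : ℕ) : DifferentiableOn ℂ (iter e h k) U := by
  induction k with
  | zero => exact hh
  | succ k ih => exact Hol.differentiableOn_fderiv_apply hU ih e

lemma iter_line {U : Set E} (hU : IsOpen U) {h : E → ℂ} (hh : DifferentiableOn ℂ h U) {a e : E}
    {R : ℝ} (hR : ∀ t ∈ ball (0 : ℂ) R, a + t • e ∈ U) (k : ℕ) :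
    ∀ t ∈ ball (0 : ℂ) R, iteratedDeriv k (fun t : ℂ => h (a + t • e)) t =
      iter e h k (a + t • e) := by
  induction k with
  | zero => intro t _; simp [iter]
  | succ k ih =>
    intro t ht
    rw [iteratedDeriv_succ]
    have h1 : iteratedDeriv k (fun t : ℂ => h (a + t • e)) =ᶠ[𝓝 t]
        fun t => iter e h k (a + t • e) := by
      filter_upwards [isOpen_ball.mem_nhds ht] with s hs using ih s hs
    rw [h1.deriv_eq]
    have h2 : HasFDerivAt (iter e h k) (fderiv ℂ (iter e h k) (a + t • e)) (a + t • e) :=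
      ((iter_diff hU hh e k).differentiableAt (hU.mem_nhds (hR t ht))).hasFDerivAt
    have h3 : HasDerivAt (fun t : ℂ => a + t • e) e t := by
      simpa using ((hasDerivAt_id t).smul_const e).const_add a
    exact (h2.comp_hasDerivAt t h3).deriv

lemma zero_of_iter {U : Set E} (hU : IsOpen U) {h : E → ℂ} (hh : DifferentiableOn ℂ h U) {a : E}
    {ρ : ℝ} (hρ : ball a ρ ⊆ U) (h0 : ∀ e k, iter e h k a = 0) : ∀ x ∈ ball a ρ, h x = 0 := by
  intro x hx
  by_cases hxa : x = a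
  · rw [hxa]; exact h0 0 0
  have hne : 0 < ‖x - a‖ := norm_pos_iff.2 (sub_ne_zero.2 hxa)
  have hlt : ‖x - a‖ < ρ := by rwa [mem_ball, dist_eq_norm] at hx
  set R : ℝ := ρ / ‖x - a‖ with hR
  have hR1 : 1 < R := by rw [hR, lt_div_iff₀ hne]; linarith
  have hline : ∀ t ∈ ball (0 : ℂ) R, a + t • (x - a) ∈ U := by
    intro t ht
    apply hρ
    rw [mem_ball, dist_eq_norm, add_sub_cancel_left, norm_smul]
    have : ‖t‖ < R := by simpa using ht
    calc ‖t‖ * ‖x - a‖ < R * ‖x - a‖ := mul_lt_mul_of_pos_right this hne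
      _ = ρ := by rw [hR]; field_simp
  have hφ : DifferentiableOn ℂ (fun t : ℂ => h (a + t • (x - a))) (ball 0 R) := by
    refine hh.comp ?_ hline
    fun_prop
  have h1 : (1 : ℂ) ∈ ball (0 : ℂ) R := by simpa using hR1
  have hs := Complex.hasSum_taylorSeries_on_ball hφ h1
  have hz : ∀ n, iteratedDeriv n (fun t : ℂ => h (a + t • (x - a))) 0 = 0 := by
    intro n
    rw [iter_line hU hh hline n 0 (mem_ball_self (by linarith))]
    simp [h0]
  simp only [hz, smul_zero] at hs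
  have := hs.unique hasSum_zero
  simpa using this

end iter

/-! ### The determinant of the derivative -/

lemma exists_jac {m : ℕ} (hm : m ≠ 0) {E F : Type} [NormedAddCommGroup E] [NormedSpace ℂ E]
    [FiniteDimensional ℂ E] [NormedAddCommGroup F] [NormedSpace ℂ F] [FiniteDimensional ℂ F]
    (hE : finrank ℂ E = m) (hF : finrank ℂ F = m) {U : Set E} {f : E → F}
    (hU : IsOpen U) (hf : DifferentiableOn ℂ f U)
    (hst : ∀ b ∈ U, fderiv ℂ f b ≠ 0 → Function.Injective (fderiv ℂ f b)) :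
    ∃ h : E → ℂ, DifferentiableOn ℂ h U ∧ ∀ z ∈ U, h z = 0 ↔ fderiv ℂ f z = 0 := by
  have : CompleteSpace E := FiniteDimensional.complete ℂ E
  have : CompleteSpace F := FiniteDimensional.complete ℂ F
  let A : F ≃L[ℂ] E := ContinuousLinearEquiv.ofFinrankEq (hF.trans hE.symm)
  let bE : Basis (Fin m) ℂ E := finBasisOfFinrankEq ℂ E hE
  have hNE : Nonempty (Fin m) := ⟨⟨0, Nat.pos_of_ne_zero hm⟩⟩
  let T : E → (E →ₗ[ℂ] E) := fun z =>
    ((A : F →L[ℂ] E).comp (fderiv ℂ f z) : E →L[ℂ] E)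
  refine ⟨fun z => (LinearMap.toMatrix bE bE (T z)).det, ?_, fun z hz => ?_⟩
  · have hent : ∀ i j, DifferentiableOn ℂ (fun z => LinearMap.toMatrix bE bE (T z) i j) U := by
      intro i j
      have h1 : DifferentiableOn ℂ (fun z => fderiv ℂ f z (bE j)) U :=
        Hol.differentiableOn_fderiv_apply hU hf (bE j)
      let c : E →L[ℂ] ℂ := LinearMap.toContinuousLinearMap (bE.coord i)
      have h2 : DifferentiableOn ℂ (fun z => c (A (fderiv ℂ f z (bE j)))) U :=
        (c.comp (A : F →L[ℂ] E)).differentiable.comp_differentiableOn h1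
      refine h2.congr fun z _ => ?_
      simp [LinearMap.toMatrix_apply, T, c]
    simp only [Matrix.det_apply']
    refine DifferentiableOn.fun_sum fun σ _ => ?_
    refine DifferentiableOn.const_mul ?_ _
    intro z hz
    exact (HasFDerivWithinAt.finsetProd fun i _ =>
      (hent (σ i) i z hz).hasFDerivWithinAt).differentiableWithinAt
  · constructor
    · intro h
      by_contra hne
      have hinj := hst z hz hne
      have hTinj : Function.Injective (T z) := by
        intro x y hxy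
        exact hinj (A.injective hxy)
      have hu : IsUnit (T z) := by
        rw [LinearMap.isUnit_iff_ker_eq_bot]
        exact LinearMap.ker_eq_bot.2 hTinj
      have := LinearMap.isUnit_det _ hu
      rw [← LinearMap.det_toMatrix bE] at this
      rw [show ((LinearMap.toMatrix bE bE) (T z)).det = 0 from h] at this
      exact not_isUnit_zero this
    · intro h
      have : T z = 0 := by
        ext x
        simp [T, h]
      simp only [this, map_zero]
      exact Matrix.det_zero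

/-! ### Step 2 -/

/-- Zeros persist in one direction (Hurwitz). -/
lemma hurwitz {E : Type} [NormedAddCommGroup E] [NormedSpace ℂ E] {U : Set E} {h : E → ℂ}
    (hh : DifferentiableOn ℂ h U) {b e w : E} {ε η : ℝ} (hη : ball b η ⊆ U)
    (hε : 0 < ε) (heps : ε * ‖e‖ < η / 2) (hb : h b = 0)
    (hnz : ∀ t : ℂ, ‖t‖ = ε → h (b + t • e) ≠ 0) :
    ∃ δ > 0, δ * ‖w‖ ≤ η / 2 ∧ ∀ s : ℂ, ‖s‖ < δ → ∃ t : ℂ, ‖t‖ ≤ ε ∧ h (b + s • w + t • e) = 0 := by
  have hη0 : 0 < η / 2 := lt_of_le_of_lt (by positivity) heps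
  have hU' : ∀ s t : ℂ, ‖s • w‖ < η / 2 → ‖t‖ ≤ ε → b + s • w + t • e ∈ ball b η := by
    intro s t hs ht
    rw [mem_ball, dist_eq_norm]
    calc ‖b + s • w + t • e - b‖ = ‖s • w + t • e‖ := by congr 1; abel
      _ ≤ ‖s • w‖ + ‖t • e‖ := norm_add_le _ _
      _ < η / 2 + η / 2 := by
          refine add_lt_add hs (lt_of_le_of_lt ?_ heps)
          rw [norm_smul]
          exact mul_le_mul_of_nonneg_right ht (norm_nonneg _)
      _ = η := by ring
  have hcont : ∀ s t : ℂ, ‖s • w‖ < η / 2 → ‖t‖ ≤ ε →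
      ContinuousAt (fun p : ℂ × ℂ => h (b + p.1 • w + p.2 • e)) (s, t) := by
    intro s t hs ht
    have h1 : DifferentiableOn ℂ h (ball b η) := hh.mono hη
    have h2 : ContinuousAt h (b + s • w + t • e) :=
      (h1.differentiableAt (isOpen_ball.mem_nhds (hU' s t hs ht))).continuousAt
    exact ContinuousAt.comp (g := h) (f := fun p : ℂ × ℂ => b + p.1 • w + p.2 • e) h2
      (by fun_prop)
  -- minimum on the circle
  have hsph : (sphere (0 : ℂ) ε).Nonempty := NormedSpace.sphere_nonempty.2 hε.le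
  have h0w : ‖(0 : ℂ) • w‖ < η / 2 := by simpa using hη0
  obtain ⟨t₀, ht₀, hmin⟩ := (isCompact_sphere (0 : ℂ) ε).exists_isMinOn hsph
    (f := fun t : ℂ => ‖h (b + (0 : ℂ) • w + t • e)‖) (by
      intro t ht
      have ht' : ‖t‖ ≤ ε := by
        have := mem_sphere_zero_iff_norm.1 ht
        exact this.le
      have h1 := hcont 0 t h0w ht'
      have h2 : ContinuousAt (fun t : ℂ => h (b + (0 : ℂ) • w + t • e)) t :=
        ContinuousAt.comp (g := fun p : ℂ × ℂ => h (b + p.1 • w + p.2 • e))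
          (f := fun t : ℂ => ((0 : ℂ), t)) h1 (by fun_prop)
      exact h2.norm.continuousWithinAt)
  set c : ℝ := ‖h (b + (0 : ℂ) • w + t₀ • e)‖ with hc
  have hcpos : 0 < c := by
    rw [hc, norm_pos_iff, zero_smul, add_zero]
    exact hnz t₀ (mem_sphere_zero_iff_norm.1 ht₀)
  have hev1 : ∀ᶠ s in 𝓝 (0 : ℂ), ∀ t ∈ sphere (0 : ℂ) ε, c / 2 < ‖h (b + s • w + t • e)‖ := by
    refine (isCompact_sphere (0 : ℂ) ε).eventually_forall_of_forall_eventually
      (P := fun s t => c / 2 < ‖h (b + s • w + t • e)‖) fun t ht => ?_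
    have ht' : ‖t‖ ≤ ε := (mem_sphere_zero_iff_norm.1 ht).le
    have h1 := (hcont 0 t h0w ht').norm
    have h2 : c / 2 < ‖h (b + (0 : ℂ) • w + t • e)‖ := by
      have : c ≤ ‖h (b + (0 : ℂ) • w + t • e)‖ := hmin ht
      linarith
    exact h1.eventually_const_lt h2
  have hev2 : ∀ᶠ s in 𝓝 (0 : ℂ), ‖h (b + s • w + (0 : ℂ) • e)‖ < c / 2 := by
    have h1 := hcont 0 0 h0w (by simpa using hε.le)
    have h2 : ContinuousAt (fun s : ℂ => ‖h (b + s • w + (0 : ℂ) • e)‖) 0 :=
      (ContinuousAt.comp (g := fun p : ℂ × ℂ => h (b + p.1 • w + p.2 • e))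
        (f := fun s : ℂ => (s, (0 : ℂ))) h1 (by fun_prop)).norm
    refine h2.eventually_lt_const ?_
    simp only [zero_smul, add_zero, hb, norm_zero]
    positivity
  have hev3 : ∀ᶠ s in 𝓝 (0 : ℂ), ‖s • w‖ < η / 2 := by
    have h2 : ContinuousAt (fun s : ℂ => ‖s • w‖) 0 := by fun_prop
    exact h2.eventually_lt_const h0w
  obtain ⟨δ', hδ', hball⟩ := Metric.eventually_nhds_iff_ball.1 ((hev1.and hev2).and hev3)
  refine ⟨min δ' (η / 2 / (‖w‖ + 1)), lt_min hδ' (by positivity), ?_, fun s hs => ?_⟩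
  · calc min δ' (η / 2 / (‖w‖ + 1)) * ‖w‖ ≤ (η / 2 / (‖w‖ + 1)) * (‖w‖ + 1) :=
          mul_le_mul (min_le_right _ _) (by linarith) (norm_nonneg _) (by positivity)
      _ = η / 2 := by field_simp
  have hsb : s ∈ ball (0 : ℂ) δ' := by
    rw [mem_ball_zero_iff]
    exact lt_of_lt_of_le hs (min_le_left _ _)
  obtain ⟨⟨h1, h2⟩, h3⟩ := hball s hsb
  by_contra hno
  push Not at hno
  have hψ : DifferentiableOn ℂ (fun t : ℂ => (h (b + s • w + t • e))⁻¹) (closedBall 0 ε) := by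
    intro t ht
    have ht' : ‖t‖ ≤ ε := by simpa using ht
    have h4 : DifferentiableAt ℂ h (b + s • w + t • e) :=
      (hh.mono hη).differentiableAt (isOpen_ball.mem_nhds (hU' s t h3 ht'))
    have h5 : DifferentiableAt ℂ (fun t : ℂ => h (b + s • w + t • e)) t :=
      DifferentiableAt.comp (g := h) (f := fun t : ℂ => b + s • w + t • e) t h4 (by fun_prop)
    exact (h5.fun_inv (hno t ht')).differentiableWithinAt
  have hdc : DiffContOnCl ℂ (fun t : ℂ => (h (b + s • w + t • e))⁻¹) (ball 0 ε) := by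
    apply DifferentiableOn.diffContOnCl
    rwa [closure_ball _ hε.ne']
  have hmax := Complex.norm_le_of_forall_mem_frontier_norm_le isBounded_ball hdc (C := 2 / c) (by
    intro t ht
    rw [frontier_ball _ hε.ne'] at ht
    rw [norm_inv]
    have := h1 t ht
    rw [inv_le_comm₀ (by linarith) (by positivity)]
    rw [inv_div]
    exact this.le) (z := 0) (subset_closure (mem_ball_self hε))
  rw [norm_inv] at hmax
  have hpos : 0 < ‖h (b + s • w + (0 : ℂ) • e)‖ := by
    rw [norm_pos_iff]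
    exact hno 0 (by simpa using hε.le)
  have h6 : c / 2 ≤ ‖h (b + s • w + (0 : ℂ) • e)‖ := by
    rw [inv_le_comm₀ hpos (by positivity), inv_div] at hmax
    exact hmax
  linarith

/-- Second order estimate for holomorphic maps at critical points. -/
lemma quad_est {E F : Type} [NormedAddCommGroup E] [NormedSpace ℂ E] [NormedAddCommGroup F]
    [NormedSpace ℂ F] {f : E → F} {b : E} {η K : ℝ} (hK : 0 ≤ K)
    (hd : ∀ z ∈ ball b η, DifferentiableAt ℂ f z)
    (hlip : ∀ z ∈ ball b η, ∀ w ∈ ball b η, ‖fderiv ℂ f z - fderiv ℂ f w‖ ≤ K * ‖z - w‖)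
    {x y : E} (hx : x ∈ ball b η) (hy : y ∈ ball b η) (h0 : fderiv ℂ f x = 0) :
    ‖f y - f x‖ ≤ K * ‖y - x‖ ^ 2 := by
  set s : Set E := ball b η ∩ closedBall x ‖y - x‖ with hs
  have hsconv : Convex ℝ s := (convex_ball _ _).inter (convex_closedBall _ _)
  have hxs : x ∈ s := ⟨hx, mem_closedBall_self (norm_nonneg _)⟩
  have hys : y ∈ s := ⟨hy, by rw [mem_closedBall, dist_eq_norm]⟩
  have hb : ∀ z ∈ s, ‖fderiv ℂ f z‖ ≤ K * ‖y - x‖ := by
    intro z hz
    have h1 := hlip z hz.1 x hx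
    rw [h0, sub_zero] at h1
    refine h1.trans (mul_le_mul_of_nonneg_left ?_ hK)
    have := hz.2
    rwa [mem_closedBall, dist_eq_norm] at this
  have := hsconv.norm_image_sub_le_of_norm_fderiv_le (𝕜 := ℂ) (f := f)
    (fun z hz => hd z hz.1) hb hxs hys
  calc ‖f y - f x‖ ≤ K * ‖y - x‖ * ‖y - x‖ := this
    _ = K * ‖y - x‖ ^ 2 := by ring

/-- Step 2 in dimension at least two. -/
lemma step2 {m : ℕ} (hm : 2 ≤ m) {E F : Type} [NormedAddCommGroup E] [NormedSpace ℂ E]
    [FiniteDimensional ℂ E] [NormedAddCommGroup F] [NormedSpace ℂ F] [FiniteDimensional ℂ F]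
    (hE : finrank ℂ E = m) {U : Set E} {f : E → F}
    (hU : IsOpen U) (hf : DifferentiableOn ℂ f U) (hinj : InjOn f U) {h : E → ℂ}
    (hh : DifferentiableOn ℂ h U) (hz : ∀ z ∈ U, h z = 0 ↔ fderiv ℂ f z = 0) {a : E}
    (ha : a ∈ U) : fderiv ℂ f a ≠ 0 := by
  intro ha0
  have : CompleteSpace E := FiniteDimensional.complete ℂ E
  have : CompleteSpace F := FiniteDimensional.complete ℂ F
  have hnt : Nontrivial E := Module.nontrivial_of_finrank_pos (R := ℂ) (by omega)
  -- a direction of finite order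
  obtain ⟨e, k₀, hk₀⟩ : ∃ e k, iter e h k a ≠ 0 := by
    by_contra hno
    push Not at hno
    obtain ⟨ρ, hρ, hball⟩ := Metric.isOpen_iff.1 hU a ha
    have h1 := zero_of_iter hU hh hball hno
    have h2 : EqOn (fderiv ℂ f) 0 (ball a ρ) := fun x hx => (hz x (hball hx)).1 (h1 x hx)
    obtain ⟨v, hv⟩ := exists_ne (0 : E)
    have hv' : 0 < ‖v‖ := norm_pos_iff.2 hv
    set x : E := a + ((ρ / 2 / ‖v‖ : ℝ) : ℂ) • v with hx
    have hxv : ‖((ρ / 2 / ‖v‖ : ℝ) : ℂ) • v‖ = ρ / 2 := by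
      rw [norm_smul, Complex.norm_real, Real.norm_eq_abs, abs_of_pos (by positivity)]
      field_simp
    have hxb : x ∈ ball a ρ := by
      rw [mem_ball, dist_eq_norm, hx, add_sub_cancel_left, hxv]
      linarith
    have h3 := isOpen_ball.is_const_of_fderiv_eq_zero (convex_ball a ρ).isPreconnected
      (hf.mono hball) h2 hxb (mem_ball_self hρ)
    have h4 := hinj (hball hxb) ha h3
    have h5 : ((ρ / 2 / ‖v‖ : ℝ) : ℂ) • v = 0 := by
      rw [hx] at h4
      simpa using h4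
    rw [h5, norm_zero] at hxv
    linarith
  -- minimal order
  have hex : ∃ k, ∃ b ∈ U, fderiv ℂ f b = 0 ∧ iter e h k b ≠ 0 := ⟨k₀, a, ha, ha0, hk₀⟩
  classical
  obtain ⟨b, hbU, hb0, hbk⟩ := Nat.find_spec hex
  have hmin := fun m (hm : m < Nat.find hex) => Nat.find_min hex hm
  generalize Nat.find hex = k at hbk hmin
  obtain ⟨m', rfl⟩ : ∃ m', k = m' + 1 := by
    cases k with
    | zero => exact absurd ((hz b hbU).2 hb0) hbk
    | succ m' => exact ⟨m', rfl⟩
  set G : E → ℂ := iter e h m' with hG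
  have hGd : DifferentiableOn ℂ G U := iter_diff hU hh e m'
  have hGZ : ∀ z ∈ U, fderiv ℂ f z = 0 → G z = 0 := by
    intro z hzU hz0
    by_contra hne
    exact hmin m' (Nat.lt_succ_self _) ⟨z, hzU, hz0, hne⟩
  set D : E →L[ℂ] ℂ := fderiv ℂ G b with hD
  have hDe : D e ≠ 0 := hbk
  have he : e ≠ 0 := by rintro rfl; simp at hDe
  have hen : 0 < ‖e‖ := norm_pos_iff.2 he
  have hDen : 0 < ‖D e‖ := norm_pos_iff.2 hDe
  -- a second direction
  obtain ⟨w, hw0, hDw⟩ : ∃ w : E, w ≠ 0 ∧ D w = 0 := by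
    have hDne : (D : E →ₗ[ℂ] ℂ) ≠ 0 := by
      intro h
      exact hDe (by simpa using congrArg (fun g : E →ₗ[ℂ] ℂ => g e) h)
    have h1 : finrank ℂ (LinearMap.ker (D : E →ₗ[ℂ] ℂ)) + 1 = finrank ℂ E :=
      Module.Dual.finrank_ker_add_one_of_ne_zero hDne
    have h2 : LinearMap.ker (D : E →ₗ[ℂ] ℂ) ≠ ⊥ := by
      intro h
      rw [h, finrank_bot] at h1
      omega
    obtain ⟨w, hw, hw0⟩ := Submodule.exists_mem_ne_zero_of_ne_bot h2
    exact ⟨w, hw0, hw⟩
  have hb' : h b = 0 := (hz b hbU).2 hb0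
  -- neighbourhood
  have hGs : HasStrictFDerivAt G D b := (Hol.contDiffAt hU hGd hbU 1).hasStrictFDerivAt (by simp)
  set c : NNReal := ⟨‖D e‖ / (2 * ‖e‖), by positivity⟩ with hc
  have hcpos : 0 < c := by
    rw [← NNReal.coe_pos]
    change 0 < ‖D e‖ / (2 * ‖e‖)
    positivity
  obtain ⟨S, hS, hSapp⟩ := hGs.approximates_deriv_on_nhds (Or.inr hcpos)
  obtain ⟨r, hr, K, hK, hrU, hlip⟩ := Hol.fderiv_lip hU hf hbU
  obtain ⟨r', hr', hr'S⟩ := Metric.mem_nhds_iff.1 hS
  set η : ℝ := min r r' with hη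
  have hηpos : 0 < η := lt_min hr hr'
  have hηU : ball b η ⊆ U := (ball_subset_ball (min_le_left _ _)).trans hrU
  have hηS : ball b η ⊆ S := (ball_subset_ball (min_le_right _ _)).trans hr'S
  have hηr : ball b η ⊆ ball b r := ball_subset_ball (min_le_left _ _)
  -- isolated zero on the line
  obtain ⟨ε₀, hε₀, hiso⟩ : ∃ ε₀ > 0, ∀ t : ℂ, t ≠ 0 → ‖t‖ < ε₀ → h (b + t • e) ≠ 0 := by
    have hline : ∀ t ∈ ball (0 : ℂ) (η / ‖e‖), b + t • e ∈ U := by
      intro t ht
      apply hηU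
      rw [mem_ball, dist_eq_norm, add_sub_cancel_left, norm_smul]
      have : ‖t‖ < η / ‖e‖ := by simpa using ht
      rwa [lt_div_iff₀ hen] at this
    have hφ : DifferentiableOn ℂ (fun t : ℂ => h (b + t • e)) (ball 0 (η / ‖e‖)) := by
      refine hh.comp ?_ hline
      fun_prop
    have hφa : AnalyticAt ℂ (fun t : ℂ => h (b + t • e)) 0 :=
      hφ.analyticAt (ball_mem_nhds 0 (by positivity))
    rcases hφa.eventually_eq_zero_or_eventually_ne_zero with hev | hev
    · exfalso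
      have h1 : ∀ᶠ t in 𝓝 (0 : ℂ), G (b + t • e) = 0 := by
        filter_upwards [hev, ball_mem_nhds (0 : ℂ) (show 0 < η / ‖e‖ by positivity)] with t ht1 ht2
        exact hGZ _ (hline t ht2) ((hz _ (hline t ht2)).1 ht1)
      have h2 : HasDerivAt (fun t : ℂ => G (b + t • e)) (D e) 0 := by
        have h3 : HasDerivAt (fun t : ℂ => b + t • e) e 0 := by
          simpa using ((hasDerivAt_id (0 : ℂ)).smul_const e).const_add b
        have h4 : HasFDerivAt G D (b + (0 : ℂ) • e) := by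
          rw [zero_smul, add_zero]; exact hGs.hasFDerivAt
        exact h4.comp_hasDerivAt (0 : ℂ) h3
      have h5 : HasDerivAt (fun t : ℂ => G (b + t • e)) 0 0 :=
        (hasDerivAt_const (0 : ℂ) (0 : ℂ)).congr_of_eventuallyEq h1
      exact hDe (h2.unique h5)
    · rw [eventually_nhdsWithin_iff] at hev
      obtain ⟨ε₀, hε₀, hball⟩ := Metric.eventually_nhds_iff_ball.1 hev
      exact ⟨ε₀, hε₀, fun t ht0 ht => hball t (by simpa using ht) ht0⟩
  set ε : ℝ := min (ε₀ / 2) (η / (4 * ‖e‖)) with hε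
  have hεpos : 0 < ε := lt_min (by positivity) (by positivity)
  have hεe : ε * ‖e‖ < η / 2 := by
    calc ε * ‖e‖ ≤ η / (4 * ‖e‖) * ‖e‖ := mul_le_mul_of_nonneg_right (min_le_right _ _) hen.le
      _ = η / 4 := by field_simp
      _ < η / 2 := by linarith
  have hnz : ∀ t : ℂ, ‖t‖ = ε → h (b + t • e) ≠ 0 := by
    intro t ht
    refine hiso t ?_ ?_
    · rintro rfl
      rw [norm_zero] at ht
      linarith
    · rw [ht]
      calc ε ≤ ε₀ / 2 := min_le_left _ _
        _ < ε₀ := by linarith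
  obtain ⟨δ, hδ, hδw, hzero⟩ := hurwitz (w := w) hh hηU hεpos hεe hb' hnz
  choose! τ hτε hτ0 using hzero
  set X : ℂ → E := fun s => b + s • w + τ s • e with hX
  have hXb : ∀ s : ℂ, ‖s‖ < δ → X s ∈ ball b η := by
    intro s hs
    rw [mem_ball, dist_eq_norm]
    calc ‖X s - b‖ = ‖s • w + τ s • e‖ := by simp only [hX]; congr 1; abel
      _ ≤ ‖s • w‖ + ‖τ s • e‖ := norm_add_le _ _
      _ < η / 2 + η / 2 := by
          refine add_lt_add_of_le_of_lt ?_ (lt_of_le_of_lt ?_ hεe)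
          · rw [norm_smul]
            exact (mul_le_mul_of_nonneg_right hs.le (norm_nonneg _)).trans hδw
          · rw [norm_smul]
            exact mul_le_mul_of_nonneg_right (hτε s hs) (norm_nonneg _)
      _ = η := by ring
  have hXf : ∀ s : ℂ, ‖s‖ < δ → fderiv ℂ f (X s) = 0 := fun s hs =>
    (hz _ (hηU (hXb s hs))).1 (hτ0 s hs)
  have hXG : ∀ s : ℂ, ‖s‖ < δ → G (X s) = 0 := fun s hs =>
    hGZ _ (hηU (hXb s hs)) (hXf s hs)
  have hXsub : ∀ s s' : ℂ, X s - X s' = (s - s') • w + (τ s - τ s') • e := by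
    intro s s'
    simp only [hX, sub_smul]
    abel
  have hDX : ∀ s s' : ℂ, D (X s - X s') = (τ s - τ s') * D e := by
    intro s s'
    rw [hXsub, map_add, map_smul, map_smul, hDw, smul_zero, zero_add, smul_eq_mul]
  -- Lipschitz estimate for the zeros
  have hτlip : ∀ s s' : ℂ, ‖s‖ < δ → ‖s'‖ < δ →
      ‖τ s - τ s'‖ ≤ ‖w‖ / ‖e‖ * ‖s - s'‖ := by
    intro s s' hs hs'
    have h1 := hSapp _ (hηS (hXb s hs)) _ (hηS (hXb s' hs'))
    rw [hXG s hs, hXG s' hs', sub_zero, zero_sub, norm_neg, hDX, norm_mul] at h1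
    have h2 : ‖X s - X s'‖ ≤ ‖s - s'‖ * ‖w‖ + ‖τ s - τ s'‖ * ‖e‖ := by
      rw [hXsub]
      refine (norm_add_le _ _).trans ?_
      rw [norm_smul, norm_smul]
    have h3 : (c : ℝ) = ‖D e‖ / (2 * ‖e‖) := rfl
    have h4 : ‖τ s - τ s'‖ * ‖D e‖ ≤
        ‖D e‖ / (2 * ‖e‖) * (‖s - s'‖ * ‖w‖ + ‖τ s - τ s'‖ * ‖e‖) := by
      rw [← h3]
      exact h1.trans (mul_le_mul_of_nonneg_left h2 c.2)
    have h5 : ‖D e‖ / (2 * ‖e‖) * (‖s - s'‖ * ‖w‖ + ‖τ s - τ s'‖ * ‖e‖) =
        ‖D e‖ / 2 * (‖w‖ / ‖e‖ * ‖s - s'‖ + ‖τ s - τ s'‖) := by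
      field_simp
    rw [h5] at h4
    have h6 : ‖D e‖ / 2 * ‖τ s - τ s'‖ ≤ ‖D e‖ / 2 * (‖w‖ / ‖e‖ * ‖s - s'‖) := by
      linarith
    exact le_of_mul_le_mul_left h6 (by positivity)
  have hXlip : ∀ s s' : ℂ, ‖s‖ < δ → ‖s'‖ < δ → ‖X s - X s'‖ ≤ 2 * ‖w‖ * ‖s - s'‖ := by
    intro s s' hs hs'
    have h1 := hτlip s s' hs hs'
    rw [hXsub]
    calc ‖(s - s') • w + (τ s - τ s') • e‖ ≤ ‖(s - s') • w‖ + ‖(τ s - τ s') • e‖ :=
          norm_add_le _ _
      _ = ‖s - s'‖ * ‖w‖ + ‖τ s - τ s'‖ * ‖e‖ := by rw [norm_smul, norm_smul]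
      _ ≤ ‖s - s'‖ * ‖w‖ + ‖w‖ / ‖e‖ * ‖s - s'‖ * ‖e‖ := by gcongr
      _ = 2 * ‖w‖ * ‖s - s'‖ := by field_simp; ring
  have hder : ∀ s ∈ ball (0 : ℂ) δ, HasFDerivAt (fun s => f (X s)) (0 : ℂ →L[ℂ] F) s := by
    intro s hs
    have hs' : ‖s‖ < δ := by simpa using hs
    have h1 : (fun s' => f (X s') - f (X s)) =O[𝓝 s] fun s' => ‖s' - s‖ ^ 2 := by
      refine Asymptotics.IsBigO.of_bound (K * (2 * ‖w‖) ^ 2) ?_
      filter_upwards [isOpen_ball.mem_nhds hs] with s' hs''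
      have hs3 : ‖s'‖ < δ := by simpa using hs''
      have h2 := quad_est hK (fun z hz => hf.differentiableAt (hU.mem_nhds (hηU hz)))
        (fun z hz w hw => hlip z (hηr hz) w (hηr hw)) (hXb s hs') (hXb s' hs3) (hXf s hs')
      refine h2.trans ?_
      rw [Real.norm_of_nonneg (by positivity)]
      calc K * ‖X s' - X s‖ ^ 2 ≤ K * (2 * ‖w‖ * ‖s' - s‖) ^ 2 := by
            have := hXlip s' s hs3 hs'
            gcongr
        _ = K * (2 * ‖w‖) ^ 2 * ‖s' - s‖ ^ 2 := by ring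
    have h3 : HasFDerivAt (fun s' => f (X s') - f (X s)) (0 : ℂ →L[ℂ] F) s :=
      h1.hasFDerivAt (by norm_num)
    have h4 := h3.add_const (f (X s))
    simpa using h4
  have hcst := isOpen_ball.is_const_of_fderiv_eq_zero (𝕜 := ℂ)
    (convex_ball (0 : ℂ) δ).isPreconnected
    (fun s hs => (hder s hs).differentiableAt.differentiableWithinAt)
    (fun s hs => (hder s hs).fderiv) (x := ((δ / 2 : ℝ) : ℂ)) (y := 0)
    (by
      rw [mem_ball_zero_iff, Complex.norm_real, Real.norm_eq_abs, abs_of_pos (by positivity)]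
      linarith) (mem_ball_self hδ)
  have hs1 : ‖((δ / 2 : ℝ) : ℂ)‖ < δ := by
    rw [Complex.norm_real, Real.norm_eq_abs, abs_of_pos (by positivity)]
    linarith
  have hs0 : ‖(0 : ℂ)‖ < δ := by simpa using hδ
  have hXeq := hinj (hηU (hXb _ hs1)) (hηU (hXb _ hs0)) hcst
  have hXs : X ((δ / 2 : ℝ) : ℂ) - X 0 = 0 := sub_eq_zero.2 hXeq
  have h1 := hDX ((δ / 2 : ℝ) : ℂ) 0
  rw [hXs, map_zero] at h1
  have h2 : τ ((δ / 2 : ℝ) : ℂ) - τ 0 = 0 := by
    rcases mul_eq_zero.1 h1.symm with h | h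
    · exact h
    · exact absurd h hDe
  have h3 := hXsub ((δ / 2 : ℝ) : ℂ) 0
  rw [hXs, h2, zero_smul, add_zero, sub_zero] at h3
  rcases smul_eq_zero.1 h3.symm with h | h
  · have : (δ / 2 : ℝ) = 0 := by exact_mod_cast h
    linarith
  · exact hw0 h

/-- Step 2 in dimension one. -/
lemma step2_one {E F : Type} [NormedAddCommGroup E] [NormedSpace ℂ E]
    [FiniteDimensional ℂ E] [NormedAddCommGroup F] [NormedSpace ℂ F] [FiniteDimensional ℂ F]
    (hE : finrank ℂ E = 1) (hF : finrank ℂ F = 1) {U : Set E} {f : E → F}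
    (hU : IsOpen U) (hf : DifferentiableOn ℂ f U) (hinj : InjOn f U) {a : E}
    (ha : a ∈ U) : fderiv ℂ f a ≠ 0 := by
  intro ha0
  have : CompleteSpace E := FiniteDimensional.complete ℂ E
  have : CompleteSpace F := FiniteDimensional.complete ℂ F
  have hnt : Nontrivial E := Module.nontrivial_of_finrank_pos (R := ℂ) (by omega)
  obtain ⟨e, he⟩ := exists_ne (0 : E)
  have hen : 0 < ‖e‖ := norm_pos_iff.2 he
  let A : F ≃L[ℂ] ℂ := ContinuousLinearEquiv.ofFinrankEq (hF.trans (finrank_self ℂ).symm)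
  obtain ⟨ρ, hρ, hball⟩ := Metric.isOpen_iff.1 hU a ha
  have hline : ∀ t ∈ ball (0 : ℂ) (ρ / ‖e‖), a + t • e ∈ U := by
    intro t ht
    apply hball
    rw [mem_ball, dist_eq_norm, add_sub_cancel_left, norm_smul]
    have : ‖t‖ < ρ / ‖e‖ := by simpa using ht
    rwa [lt_div_iff₀ hen] at this
  have hd : DifferentiableOn ℂ (fun t : ℂ => A (f (a + t • e))) (ball 0 (ρ / ‖e‖)) := by
    refine (A : F →L[ℂ] ℂ).differentiable.comp_differentiableOn (hf.comp ?_ hline)
    fun_prop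
  have hi : InjOn (fun t : ℂ => A (f (a + t • e))) (ball 0 (ρ / ‖e‖)) := by
    intro t ht s hs hts
    have h1 := hinj (hline t ht) (hline s hs) (A.injective hts)
    have h2 : t • e = s • e := add_left_cancel h1
    exact smul_left_injective ℂ he h2
  apply one_var (by positivity) hd hi
  have h3 : HasDerivAt (fun t : ℂ => a + t • e) e 0 := by
    simpa using ((hasDerivAt_id (0 : ℂ)).smul_const e).const_add a
  have h4 : HasFDerivAt f (0 : E →L[ℂ] F) (a + (0 : ℂ) • e) := by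
    rw [zero_smul, add_zero, ← ha0]
    exact (hf.differentiableAt (hU.mem_nhds ha)).hasFDerivAt
  have h5 : HasDerivAt (fun t : ℂ => f (a + t • e)) ((0 : E →L[ℂ] F) e) 0 :=
    h4.comp_hasDerivAt (0 : ℂ) h3
  have h6 : HasDerivAt (fun t : ℂ => A (f (a + t • e))) (A ((0 : E →L[ℂ] F) e)) 0 :=
    (A : F →L[ℂ] ℂ).hasFDerivAt.comp_hasDerivAt (0 : ℂ) h5
  rw [h6.deriv]
  simp

/-- Osgood's theorem. -/
theorem osgood (n : ℕ) : P n := by
  induction n with
  | zero =>
    intro E F _ _ _ _ _ _ hE hF U f hU hf hinj a ha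
    have : Subsingleton E := Module.finrank_zero_iff.1 hE
    exact Function.injective_of_subsingleton _
  | succ n ih =>
    intro E F _ _ _ _ _ _ hE hF U f hU hf hinj a ha
    have hst : ∀ b ∈ U, fderiv ℂ f b ≠ 0 → Function.Injective (fderiv ℂ f b) :=
      fun b hb hb0 => step1 ih hE hF hU hf hinj hb hb0
    apply hst a ha
    rcases Nat.eq_zero_or_pos n with rfl | hn
    · exact step2_one hE hF hU hf hinj ha
    · obtain ⟨h, hh, hz⟩ := exists_jac (Nat.succ_ne_zero n) hE hF hU hf hst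
      exact step2 (by omega) hE hU hf hinj hh hz ha

end Osg

theorem osgoodInv : OsgoodInv := by
  intro n Ω f r hΩ hf hinj hball
  have hex : ∀ b ∈ ball (0 : E n) r, ∃ x ∈ Ω, f x = b := fun b hb => hball hb
  choose! g hgΩ hgf using hex
  have hgl : ∀ x ∈ Ω, f x ∈ ball (0 : E n) r → g (f x) = x := fun x hx hfx =>
    hinj (hgΩ _ hfx) hx (hgf _ hfx)
  refine ⟨g, ?_, hgΩ, hgf, hgl⟩
  intro b hb
  have hx : g b ∈ Ω := hgΩ b hb
  have hinj' : Function.Injective (fderiv ℂ f (g b)) :=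
    Osg.osgood n (E n) (E n) (by simp) (by simp) Ω f hΩ hf hinj (g b) hx
  have hker : LinearMap.ker (fderiv ℂ f (g b) : E n →ₗ[ℂ] E n) = ⊥ :=
    LinearMap.ker_eq_bot.2 hinj'
  have hran : LinearMap.range (fderiv ℂ f (g b) : E n →ₗ[ℂ] E n) = ⊤ :=
    LinearMap.ker_eq_bot_iff_range_eq_top.1 hker
  let f' : E n ≃L[ℂ] E n := ContinuousLinearEquiv.ofBijective (fderiv ℂ f (g b)) hker hran
  have hs : HasStrictFDerivAt f (f' : E n →L[ℂ] E n) (g b) := by
    have := (Hol.contDiffAt hΩ hf hx 1).hasStrictFDerivAt (by simp)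
    have he : (f' : E n →L[ℂ] E n) = fderiv ℂ f (g b) := by
      ext x
      rfl
    rw [he]
    exact this
  have h1 := hs.to_localInverse.hasFDerivAt
  rw [hgf b hb] at h1
  refine (h1.congr_of_eventuallyEq ?_).differentiableAt.differentiableWithinAt
  have h2 : ∀ᶠ y in 𝓝 b, f (hs.localInverse f f' (g b) y) = y := by
    have := hs.eventually_right_inverse
    rwa [hgf b hb] at this
  have h3 : ∀ᶠ y in 𝓝 b, hs.localInverse f f' (g b) y ∈ Ω := by
    have h4 := hs.localInverse_tendsto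
    rw [hgf b hb] at h4
    exact h4 (hΩ.mem_nhds hx)
  filter_upwards [h2, h3, isOpen_ball.mem_nhds hb] with y hy1 hy2 hy3
  have := hgl _ hy2 (by rw [hy1]; exact hy3)
  rw [hy1] at this
  exact this

end Sqz
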