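import Pool.Agent.Sqz.Slice

/-!
# Upper bounds for `VV` on the normal slice (job J8b)
-/

set_option autoImplicit false

open Metric Set Filter Topology

namespace Sqz

namespace Slice

lemma exists_bd {X W : Type*} [NormedAddCommGroup X] [NormedSpace ℝ X] [FiniteDimensional ℝ X]
    [NormedAddCommGroup W] [NormedSpace ℝ W] {F : X → W} (hF : ContDiff ℝ 1 F) (p : X) :
    ∃ K : ℝ, ∀ x ∈ closedBall p 1, ‖F x‖ ≤ K :=
  (isCompact_closedBall p 1).exists_bound_of_continuousOn hF.continuous.continuousOn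

section Ell

variable {n : ℕ} {Ω : Set (E n)} {ρ : E n → ℝ} {p N v : E n}

/-- The Levi form of the complex tangent vector `ww` on the normal slice. -/
noncomputable def ell (ρ : E n → ℝ) (p N v : E n) (ζ : ℂ) : ℝ :=
  Lev ρ (p - ζ • N) (ww ρ N v (p - ζ • N))

lemma contDiff_slice (p N : E n) {m : WithTop ℕ∞} :
    ContDiff ℝ m (fun ζ : ℂ => p - ζ • N) := by
  have h : ContDiff ℝ m (fun ζ : ℂ => ζ • N) :=
    ((ContinuousLinearMap.toSpanSingleton ℂ N).restrictScalars ℝ).contDiff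
  exact contDiff_const.sub h

lemma contDiff_csmul {X : Type*} [NormedAddCommGroup X] [NormedSpace ℝ X] {f : X → ℂ}
    {g : X → E n} {m : WithTop ℕ∞} (hf : ContDiff ℝ m f) (hg : ContDiff ℝ m g) :
    ContDiff ℝ m (fun x => f x • g x) := by
  have h : (fun x => f x • g x) = fun x => (f x).re • g x + (f x).im • (Complex.I • g x) := by
    funext x; exact smul_decomp _ _
  rw [h]
  have hre : ContDiff ℝ m (fun x => (f x).re) := Complex.reCLM.contDiff.comp hf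
  have him : ContDiff ℝ m (fun x => (f x).im) := Complex.imCLM.contDiff.comp hf
  have hI : ContDiff ℝ m (fun x => Complex.I • g x) :=
    (((Complex.I • ContinuousLinearMap.id ℂ (E n)).restrictScalars ℝ).contDiff).comp hg
  exact (hre.smul hg).add (him.smul hI)

lemma contDiff_kap (hρ : ContDiff ℝ ((⊤ : ℕ∞) : WithTop ℕ∞) ρ) (u : E n) {m : ℕ} :
    ContDiff ℝ m (fun ζ : ℂ => kap ρ u (p - ζ • N)) := by
  have hfd : ContDiff ℝ m (fderiv ℝ ρ) := hρ.fderiv_right (m := (m : WithTop ℕ∞)) (by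
    have : ((m : WithTop ℕ∞) + 1) = ((m + 1 : ℕ) : WithTop ℕ∞) := by norm_cast
    rw [this]
    exact_mod_cast le_top)
  have h1 : ∀ w : E n, ContDiff ℝ m (fun ζ : ℂ => ((fderiv ℝ ρ (p - ζ • N) w : ℝ) : ℂ)) := by
    intro w
    exact Complex.ofRealCLM.contDiff.comp ((hfd.comp (contDiff_slice p N)).clm_apply contDiff_const)
  exact (h1 u).sub (contDiff_const.mul (h1 _))

lemma contDiff_ell (hρ : ContDiff ℝ ((⊤ : ℕ∞) : WithTop ℕ∞) ρ) {m : ℕ} :
    ContDiff ℝ m (ell ρ p N v) := by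
  have hfd : ContDiff ℝ m (fderiv ℝ (fderiv ℝ ρ)) := by
    have h1 : ContDiff ℝ ((m : WithTop ℕ∞) + 1) (fderiv ℝ ρ) :=
      hρ.fderiv_right (m := ((m : WithTop ℕ∞) + 1)) (by
        have : ((m : WithTop ℕ∞) + 1 + 1) = ((m + 1 + 1 : ℕ) : WithTop ℕ∞) := by norm_cast
        rw [this]
        exact_mod_cast le_top)
    exact h1.fderiv_right le_rfl
  have hw : ContDiff ℝ m (fun ζ : ℂ => ww ρ N v (p - ζ • N)) := by
    unfold ww
    exact (contDiff_csmul (contDiff_kap hρ N) contDiff_const).sub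
      (contDiff_csmul (contDiff_kap hρ v) contDiff_const)
  have hIw : ContDiff ℝ m (fun ζ : ℂ => Complex.I • ww ρ N v (p - ζ • N)) :=
    contDiff_csmul contDiff_const hw
  have hB : ContDiff ℝ m (fun ζ : ℂ => fderiv ℝ (fderiv ℝ ρ) (p - ζ • N)) :=
    hfd.comp (contDiff_slice p N)
  unfold ell Lev
  exact ((hB.clm_apply hw).clm_apply hw).add ((hB.clm_apply hIw).clm_apply hIw)

lemma ell_zero (hN : ‖N‖ = 1) (hg : ∀ w : E n, fderiv ℝ ρ p w = (inner ℂ N w : ℂ).re)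
    (hNv : (inner ℂ N v : ℂ) = 0) (hlev : Lev ρ p v = 0) : ell ρ p N v 0 = 0 := by
  rw [ell, zero_smul, sub_zero, ww, kap_N hN hg, kap_v hNv hg, one_smul, zero_smul, sub_zero, hlev]

/-- At boundary points of the slice the Levi form is nonnegative. -/
lemma ell_nonneg (hD : Dom n Ω ρ) {ζ : ℂ} (hz : ρ (p - ζ • N) = 0)
    (hk : kap ρ N (p - ζ • N) ≠ 0) : 0 ≤ ell ρ p N v ζ := by
  set z := p - ζ • N with hzdef
  have hfd : fderiv ℝ ρ z ≠ 0 := by
    intro h0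
    apply hk
    simp [kap, h0]
  have hfr := mem_frontier hD hz hfd
  refine hD.levi z hfr _ ?_ ?_
  · have := fderiv_ww ρ N v z 1
    rwa [one_smul] at this
  · exact fderiv_ww ρ N v z Complex.I

lemma fderiv_complex (f : ℂ → ℝ) (z ζ : ℂ) :
    fderiv ℝ f z ζ = ζ.re * fderiv ℝ f z 1 + ζ.im * fderiv ℝ f z Complex.I := by
  have h : ζ = ζ.re • (1 : ℂ) + ζ.im • Complex.I := by
    simp [Complex.re_add_im]
  conv_lhs => rw [h]
  rw [map_add, map_smul, map_smul, smul_eq_mul, smul_eq_mul]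

/-- The derivative of `ell` along the boundary direction vanishes. -/
lemma ell_tangent (hD : Dom n Ω ρ) (hp : p ∈ frontier Ω) (hN : ‖N‖ = 1)
    (hg : ∀ w : E n, fderiv ℝ ρ p w = (inner ℂ N w : ℂ).re)
    (hNv : (inner ℂ N v : ℂ) = 0) (hlev : Lev ρ p v = 0) :
    fderiv ℝ (ell ρ p N v) 0 Complex.I = 0 := by
  obtain ⟨c, C, hc0, hC1, hr, -⟩ := sliceGeom n Ω ρ hD p hp N hN hg
  obtain ⟨c', hc'0, hc'1, hc'⟩ := kap_near hD hN hg
  obtain ⟨K, hK1, hK⟩ := exists_taylor1 (F := ell ρ p N v)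
    (contDiff_ell (m := 2) hD.smooth) 0
  set α := fderiv ℝ (ell ρ p N v) 0 1 with hα
  set β := fderiv ℝ (ell ρ p N v) 0 Complex.I with hβ
  have hC0 : 0 < C := by linarith
  have hK0 : 0 < K := by linarith
  -- the key inequality
  set K' := 2 * C * |α| + 2 * K with hK'
  have hK'0 : 0 < K' := by positivity
  set δ := min (min (c / 4) (c' / 4)) (1 / (4 * C)) with hδ
  have hδ0 : 0 < δ := by positivity
  have key : ∀ y : ℝ, |y| ≤ δ → 0 ≤ y * β + K' * y ^ 2 := by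
    intro y hy
    have hy1 : |y| ≤ c / 4 := hy.trans ((min_le_left _ _).trans (min_le_left _ _))
    have hy1' : |y| ≤ c' / 4 := hy.trans ((min_le_left _ _).trans (min_le_right _ _))
    have hy2 : |y| ≤ 1 / (4 * C) := hy.trans (min_le_right _ _)
    have hy3 : C * |y| ≤ 1 / 4 := by
      have := mul_le_mul_of_nonneg_left hy2 hC0.le
      have e : C * (1 / (4 * C)) = 1 / 4 := by field_simp
      linarith
    have hy4 : C * y ^ 2 ≤ |y| / 4 := by
      rw [← sq_abs]; nlinarith [abs_nonneg y]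
    have hy5 : (2 * C * y ^ 2) ^ 2 ≤ y ^ 2 := by
      have h0 : 0 ≤ C * y ^ 2 := by positivity
      have h1 : 2 * C * y ^ 2 ≤ |y| := by linarith [abs_nonneg y]
      calc (2 * C * y ^ 2) ^ 2 ≤ |y| ^ 2 := by
            apply pow_le_pow_left₀ (by positivity) h1
        _ = y ^ 2 := sq_abs y
    have hcont : ContinuousOn (fun b : ℝ => -ρ (p - ((b : ℂ) + y * Complex.I) • N))
        (Icc (-(2 * C * y ^ 2)) (2 * C * y ^ 2)) := by
      have h1 : Continuous ρ := hD.smooth.continuous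
      exact (by fun_prop : Continuous fun b : ℝ =>
        -ρ (p - ((b : ℂ) + y * Complex.I) • N)).continuousOn
    have hnorm : ∀ b : ℝ, |b| ≤ 2 * C * y ^ 2 → ‖(b : ℂ) + y * Complex.I‖ ≤ 2 * |y| := by
      intro b hb
      calc ‖(b : ℂ) + y * Complex.I‖ ≤ ‖(b : ℂ)‖ + ‖(y : ℂ) * Complex.I‖ := norm_add_le _ _
        _ = |b| + |y| := by
            rw [norm_mul, Complex.norm_I, mul_one, Complex.norm_real, Complex.norm_real,
              Real.norm_eq_abs, Real.norm_eq_abs]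
        _ ≤ 2 * |y| := by linarith [abs_nonneg y]
    have hnsq : ∀ b : ℝ, ‖(b : ℂ) + y * Complex.I‖ ^ 2 = b ^ 2 + y ^ 2 := by
      intro b
      rw [← Complex.normSq_eq_norm_sq, Complex.normSq_add_mul_I]
    have hre : ∀ b : ℝ, ((b : ℂ) + y * Complex.I).re = b := by intro b; simp
    have him : ∀ b : ℝ, ((b : ℂ) + y * Complex.I).im = y := by intro b; simp
    by_cases hy0 : y = 0
    · simp [hy0]
    have hypos : 0 < |y| := abs_pos.2 hy0
    have hlt : ∀ b : ℝ, |b| ≤ 2 * C * y ^ 2 → ‖(b : ℂ) + y * Complex.I‖ < c := fun b hb =>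
      lt_of_le_of_lt (hnorm b hb) (by linarith)
    have hend1 : -ρ (p - (((-(2 * C * y ^ 2) : ℝ) : ℂ) + y * Complex.I) • N) ≤ 0 := by
      have h1 := hr (((-(2 * C * y ^ 2) : ℝ) : ℂ) + y * Complex.I) (hlt _ (by
        rw [abs_neg, abs_of_nonneg (by positivity)]))
      rw [hnsq, hre] at h1
      have h2 := (abs_le.1 h1).2
      nlinarith
    have hend2 : 0 ≤ -ρ (p - (((2 * C * y ^ 2 : ℝ) : ℂ) + y * Complex.I) • N) := by
      have h1 := hr (((2 * C * y ^ 2 : ℝ) : ℂ) + y * Complex.I) (hlt _ (by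
        rw [abs_of_nonneg (by positivity)]))
      rw [hnsq, hre] at h1
      have h2 := (abs_le.1 h1).1
      nlinarith
    obtain ⟨b, hb, hb0⟩ := intermediate_value_Icc (by
      have : 0 ≤ 2 * C * y ^ 2 := by positivity
      linarith) hcont ⟨hend1, hend2⟩
    have hb' : |b| ≤ 2 * C * y ^ 2 := abs_le.2 hb
    simp only [neg_eq_zero] at hb0
    set ζ : ℂ := (b : ℂ) + y * Complex.I with hζ
    have hkne : kap ρ N (p - ζ • N) ≠ 0 := by
      intro h0
      have h1 := hc' (p - ζ • N) (by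
        rw [sub_sub_cancel_left, norm_neg, norm_smul, hN, mul_one]
        exact (hnorm b hb').trans (by linarith))
      rw [h0, zero_sub, norm_neg, norm_one] at h1
      norm_num at h1
    have h0 := ell_nonneg (v := v) hD hb0 hkne
    have hζ1 : ζ ∈ closedBall (0 : ℂ) 1 := by
      rw [mem_closedBall, dist_zero_right]
      refine (hnorm b hb').trans ?_
      have : |y| ≤ 1 / 4 := by nlinarith [abs_nonneg y]
      linarith
    have h1 := hK 0 (mem_closedBall_self zero_le_one) ζ hζ1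
    rw [ell_zero hN hg hNv hlev, sub_zero, sub_zero, fderiv_complex, hnsq, hre, him,
      Real.norm_eq_abs] at h1
    have h2 := (abs_le.1 h1).2
    have h3 : b * α ≤ 2 * C * y ^ 2 * |α| := by
      calc b * α ≤ |b * α| := le_abs_self _
        _ = |b| * |α| := abs_mul _ _
        _ ≤ _ := by gcongr
    have h4 : b ^ 2 ≤ y ^ 2 := by
      calc b ^ 2 = |b| ^ 2 := (sq_abs b).symm
        _ ≤ (2 * C * y ^ 2) ^ 2 := by gcongr
        _ ≤ _ := hy5
    rw [hK']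
    nlinarith
  -- conclusion
  by_contra hne
  have hβpos : 0 < |β| := abs_pos.2 hne
  set t := min δ (|β| / (2 * K')) with ht
  have ht0 : 0 < t := by positivity
  have ht1 : t ≤ δ := min_le_left _ _
  have ht2 : K' * t ≤ |β| / 2 := by
    calc K' * t ≤ K' * (|β| / (2 * K')) := by
          gcongr
          exact min_le_right _ _
      _ = |β| / 2 := by field_simp
  have k1 := key t (by rwa [abs_of_pos ht0])
  have k2 := key (-t) (by rwa [abs_neg, abs_of_pos ht0])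
  have k3 : |β| * t ≤ K' * t * t := by
    rcases abs_cases β with ⟨h, -⟩ | ⟨h, -⟩ <;> rw [h] <;> nlinarith
  nlinarith [mul_pos hβpos ht0]

/-- Upper bound for the Levi form on the normal slice. -/
lemma ell_le (hD : Dom n Ω ρ) (hp : p ∈ frontier Ω) (hN : ‖N‖ = 1)
    (hg : ∀ w : E n, fderiv ℝ ρ p w = (inner ℂ N w : ℂ).re)
    (hNv : (inner ℂ N v : ℂ) = 0) (hlev : Lev ρ p v = 0) :
    ∃ c C : ℝ, 0 < c ∧ 1 ≤ C ∧ ∀ ζ : ℂ, ‖ζ‖ < c → 0 < -ρ (p - ζ • N) →
      ell ρ p N v ζ ≤ C * (-ρ (p - ζ • N) + ζ.im ^ 2) := by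
  obtain ⟨c, C, hc0, hC1, hr, -⟩ := sliceGeom n Ω ρ hD p hp N hN hg
  obtain ⟨K, hK1, hK⟩ := exists_taylor1 (F := ell ρ p N v)
    (contDiff_ell (m := 2) hD.smooth) 0
  have htan := ell_tangent hD hp hN hg hNv hlev
  set α := fderiv ℝ (ell ρ p N v) 0 1 with hα
  have hC0 : 0 < C := by linarith
  have hK0 : 0 < K := by linarith
  refine ⟨min c (1 / (2 * C)), (|α| + K) * (2 * C + 2) + K, by positivity, ?_, fun ζ hζ hpos => ?_⟩
  · have : 0 ≤ (|α| + K) * (2 * C + 2) := by positivity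
    linarith
  have hζc : ‖ζ‖ < c := hζ.trans_le (min_le_left _ _)
  have hζC : ‖ζ‖ < 1 / (2 * C) := hζ.trans_le (min_le_right _ _)
  have hζ1 : ‖ζ‖ ≤ 1 := by
    refine hζC.le.trans ?_
    rw [div_le_one (by positivity)]
    linarith
  have hx : |ζ.re| ≤ ‖ζ‖ := Complex.abs_re_le_norm ζ
  have hCx : C * |ζ.re| ≤ 1 / 2 := by
    calc C * |ζ.re| ≤ C * (1 / (2 * C)) := by
          gcongr
          exact hx.trans hζC.le
      _ = 1 / 2 := by field_simp
  have hnsq : ‖ζ‖ ^ 2 = ζ.re ^ 2 + ζ.im ^ 2 := by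
    rw [← Complex.normSq_eq_norm_sq, Complex.normSq_apply]; ring
  have h1 := hr ζ hζc
  rw [hnsq] at h1
  set r := -ρ (p - ζ • N) with hrdef
  have h2 : |ζ.re| ≤ 2 * r + 2 * C * ζ.im ^ 2 := by
    have h3 : |ζ.re| - |r| ≤ |r - ζ.re| := by
      have := abs_sub_abs_le_abs_sub ζ.re r
      rwa [abs_sub_comm] at this
    rw [abs_of_pos hpos] at h3
    have h4 : C * ζ.re ^ 2 ≤ |ζ.re| / 2 := by
      rw [← sq_abs ζ.re]
      nlinarith [abs_nonneg ζ.re]
    nlinarith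
  have h5 := hK 0 (mem_closedBall_self zero_le_one) ζ (by
    rw [mem_closedBall, dist_zero_right]; exact hζ1)
  rw [ell_zero hN hg hNv hlev, sub_zero, sub_zero, fderiv_complex, htan, mul_zero, add_zero, hnsq,
    Real.norm_eq_abs] at h5
  have h6 := (abs_le.1 h5).2
  have h7 : ζ.re * α ≤ |α| * |ζ.re| := by
    calc ζ.re * α ≤ |ζ.re * α| := le_abs_self _
      _ = _ := by rw [abs_mul, mul_comm]
  have h8 : K * ζ.re ^ 2 ≤ K * |ζ.re| := by
    rw [← sq_abs ζ.re]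
    have : |ζ.re| ≤ 1 := hx.trans hζ1
    have h9 := abs_nonneg ζ.re
    gcongr
    nlinarith
  calc ell ρ p N v ζ ≤ (|α| + K) * |ζ.re| + K * ζ.im ^ 2 := by nlinarith
    _ ≤ (|α| + K) * (2 * r + 2 * C * ζ.im ^ 2) + K * ζ.im ^ 2 := by gcongr
    _ ≤ ((|α| + K) * (2 * C + 2) + K) * (r + ζ.im ^ 2) := by
        have h10 : 0 ≤ (|α| + K) := by positivity
        have h11 := sq_nonneg ζ.im
        nlinarith [mul_nonneg h10 hpos.le, mul_nonneg h10 h11, mul_nonneg (mul_nonneg h10 hC0.le) hpos.le,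
          mul_nonneg hK0.le hpos.le]

end Ell

section Disc

variable {n : ℕ} {Ω : Set (E n)} {ρ : E n → ℝ} {p N v : E n}

/-- All the Taylor bounds needed for the discs. -/
lemma disc_bound (hD : Dom n Ω ρ) (hN : ‖N‖ = 1) (hv : ‖v‖ = 1)
    (hg : ∀ w : E n, fderiv ℝ ρ p w = (inner ℂ N w : ℂ).re) :
    ∃ c C : ℝ, 0 < c ∧ c ≤ 1 ∧ 1 ≤ C ∧ ∀ z : E n, ‖z - p‖ ≤ c →
      ‖kap ρ N z - 1‖ ≤ 1 / 4 ∧
      (∀ ξ : ℂ, ‖ξ‖ ≤ c → ρ (z + ξ • ww ρ N v z) ≤ ρ z + C * ‖ξ‖ ^ 2) ∧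
      (∀ h : E n, ‖h‖ ≤ c → ρ (z + h) ≤ ρ z + C * ‖h‖) ∧
      ∃ β : ℂ, ∀ ξ : ℂ, ‖ξ‖ ≤ c → ρ (z + (ξ • ww ρ N v z - (β * ξ ^ 2) • N)) ≤
        ρ z + ‖ξ‖ ^ 2 * Lev ρ z (ww ρ N v z) / 4 + C * ‖ξ‖ ^ 3 := by
  obtain ⟨c₀, hc0, hc1, hc⟩ := kap_near hD hN hg
  obtain ⟨K0, hK01, hK0⟩ := exists_lip (F := ρ) (hD.smooth.of_le (by norm_cast)) p
  obtain ⟨K1, hK11, hK1⟩ := exists_taylor1 (F := ρ) (hD.smooth.of_le (by norm_cast)) p
  obtain ⟨K2, hK21, hK2⟩ := exists_taylor2 (F := ρ) (hD.smooth.of_le (by norm_cast)) p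
  have hf1 : ContDiff ℝ 1 (fderiv ℝ ρ) := hD.smooth.fderiv_right (by norm_cast)
  have hf2 : ContDiff ℝ 1 (fderiv ℝ (fderiv ℝ ρ)) :=
    (hD.smooth.fderiv_right (m := 2) (by norm_cast)).fderiv_right (by norm_num)
  obtain ⟨G', hG'⟩ := (isCompact_closedBall p 1).exists_bound_of_continuousOn
    hf1.continuous.continuousOn
  obtain ⟨M', hM'⟩ := exists_bd (F := fderiv ℝ (fderiv ℝ ρ)) hf2 p
  set G := max G' 1 with hGdef
  set M := max M' 1 with hMdef
  have hG1 : 1 ≤ G := le_max_right _ _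
  have hM1 : 1 ≤ M := le_max_right _ _
  have hG : ∀ z ∈ closedBall p 1, ‖fderiv ℝ ρ z‖ ≤ G := fun z hz => (hG' z hz).trans (le_max_left _ _)
  have hM : ∀ z ∈ closedBall p 1, ‖fderiv ℝ (fderiv ℝ ρ) z‖ ≤ M :=
    fun z hz => (hM' z hz).trans (le_max_left _ _)
  set W := 4 * G with hW
  set Bb := 2 * M * W ^ 2 with hBb
  have hW4 : 4 ≤ W := by linarith
  have hW0 : 0 < W := by linarith
  have hBb0 : 0 < Bb := by positivity
  set S := W + Bb with hS
  have hS0 : 0 < S := by positivity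
  have hS4 : 4 ≤ S := by linarith
  set C := max (max (K1 * W ^ 2) K0) (M * W * Bb + M * Bb ^ 2 + K2 * S ^ 3) with hC
  have hCa : K1 * W ^ 2 ≤ C := (le_max_left _ _).trans (le_max_left _ _)
  have hCb : K0 ≤ C := (le_max_right _ _).trans (le_max_left _ _)
  have hCc : M * W * Bb + M * Bb ^ 2 + K2 * S ^ 3 ≤ C := le_max_right _ _
  refine ⟨min c₀ (1 / (2 * S)), C, by positivity, (min_le_left _ _).trans hc1, by linarith,
    fun z hz => ?_⟩
  have hzc : ‖z - p‖ ≤ c₀ := hz.trans (min_le_left _ _)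
  have hzS : ‖z - p‖ ≤ 1 / (2 * S) := hz.trans (min_le_right _ _)
  have hS2 : 1 / (2 * S) ≤ 1 / 2 := by
    apply one_div_le_one_div_of_le (by norm_num); linarith
  have hz1 : z ∈ closedBall p 1 := by
    rw [mem_closedBall, dist_eq_norm]; linarith
  have hzh : ∀ h : E n, ‖h‖ ≤ 1 / 2 → z + h ∈ closedBall p 1 := by
    intro h hh
    rw [mem_closedBall, dist_eq_norm, add_sub_right_comm]
    exact (norm_add_le _ _).trans (by linarith)
  have hkap := hc z hzc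
  set κ := kap ρ N z with hκ
  set w := ww ρ N v z with hw
  have hκ34 : 3 / 4 ≤ ‖κ‖ := by
    have h1 : ‖(1 : ℂ)‖ ≤ ‖κ‖ + ‖κ - 1‖ := by
      have := norm_sub_le κ (κ - 1)
      rwa [sub_sub_cancel] at this
    rw [norm_one] at h1
    linarith
  have hκ0 : κ ≠ 0 := by
    intro h0
    rw [h0, norm_zero] at hκ34
    norm_num at hκ34
  have hwW : ‖w‖ ≤ W := by
    rw [hw, ww]
    refine (norm_sub_le _ _).trans ?_
    rw [norm_smul, norm_smul, hN, hv, mul_one, mul_one]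
    have h1 := norm_kap_le ρ N z
    have h2 := norm_kap_le ρ v z
    rw [hN, mul_one] at h1
    rw [hv, mul_one] at h2
    have h3 := hG z hz1
    linarith
  refine ⟨hkap, fun ξ hξ => ?_, fun h hh => ?_, ?_⟩
  · have hξS : ‖ξ‖ ≤ 1 / (2 * S) := hξ.trans (min_le_right _ _)
    have hX : ‖ξ • w‖ ≤ ‖ξ‖ * W := by rw [norm_smul]; gcongr
    have hX2 : ‖ξ • w‖ ≤ 1 / 2 := by
      calc ‖ξ • w‖ ≤ ‖ξ‖ * W := hX
        _ ≤ 1 / (2 * S) * S := by
            gcongr
            linarith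
        _ = 1 / 2 := by field_simp
    have h1 := hK1 z hz1 (z + ξ • w) (hzh _ hX2)
    rw [add_sub_cancel_left, hw, fderiv_ww, sub_zero, Real.norm_eq_abs] at h1
    have h2 := (abs_le.1 h1).2
    have h3 : K1 * ‖ξ • ww ρ N v z‖ ^ 2 ≤ C * ‖ξ‖ ^ 2 := by
      calc K1 * ‖ξ • ww ρ N v z‖ ^ 2 ≤ K1 * (‖ξ‖ * W) ^ 2 := by gcongr
        _ = K1 * W ^ 2 * ‖ξ‖ ^ 2 := by ring
        _ ≤ _ := by gcongr
    linarith
  · have hhS : ‖h‖ ≤ 1 / 2 := (hh.trans (min_le_right _ _)).trans hS2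
    have h1 := hK0 z hz1 (z + h) (hzh _ hhS)
    rw [add_sub_cancel_left, Real.norm_eq_abs] at h1
    have h2 := (abs_le.1 h1).2
    have h3 : K0 * ‖h‖ ≤ C * ‖h‖ := by gcongr
    linarith
  · set B := fderiv ℝ (fderiv ℝ ρ) z with hB
    set H : ℂ := (((B w w - B (Complex.I • w) (Complex.I • w)) / 2 : ℝ) : ℂ) -
        Complex.I * (((B w (Complex.I • w) + B (Complex.I • w) w) / 2 : ℝ) : ℂ) with hH
    have hBn : ∀ a b : E n, |B a b| ≤ M * ‖a‖ * ‖b‖ := by
      intro a b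
      have h1 := B.le_opNorm₂ a b
      rw [Real.norm_eq_abs] at h1
      refine h1.trans ?_
      gcongr
      exact hM z hz1
    have hIw : ‖Complex.I • w‖ = ‖w‖ := by rw [norm_smul, Complex.norm_I, one_mul]
    have hHn : ‖H‖ ≤ 2 * M * W ^ 2 := by
      have hM0 : 0 ≤ M := by linarith
      have hb1 : |B w w| ≤ M * W * W := (hBn _ _).trans (by gcongr)
      have hb2 : |B (Complex.I • w) (Complex.I • w)| ≤ M * W * W :=
        (hBn _ _).trans (by rw [hIw]; gcongr)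
      have hb3 : |B w (Complex.I • w)| ≤ M * W * W := (hBn _ _).trans (by rw [hIw]; gcongr)
      have hb4 : |B (Complex.I • w) w| ≤ M * W * W := (hBn _ _).trans (by rw [hIw]; gcongr)
      rw [hH]
      refine (norm_sub_le _ _).trans ?_
      rw [norm_mul, Complex.norm_I, one_mul, Complex.norm_real, Complex.norm_real,
        Real.norm_eq_abs, Real.norm_eq_abs, abs_div, abs_div, abs_two]
      have h1 := abs_sub (B w w) (B (Complex.I • w) (Complex.I • w))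
      have h2 := abs_add_le (B w (Complex.I • w)) (B (Complex.I • w) w)
      nlinarith
    set β : ℂ := H / (2 * κ) with hβ
    have hβn : ‖β‖ ≤ Bb := by
      rw [hβ, norm_div, norm_mul, Complex.norm_two, div_le_iff₀ (by positivity)]
      have : 1 ≤ 2 * ‖κ‖ := by linarith
      calc ‖H‖ ≤ Bb := hHn
        _ = Bb * 1 := by ring
        _ ≤ Bb * (2 * ‖κ‖) := by gcongr
    refine ⟨β, fun ξ hξ => ?_⟩
    have hξS : ‖ξ‖ ≤ 1 / (2 * S) := hξ.trans (min_le_right _ _)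
    have hξ1 : ‖ξ‖ ≤ 1 := by linarith
    have hξ0 := norm_nonneg ξ
    set Y : E n := (β * ξ ^ 2) • N with hY
    have hYn : ‖Y‖ ≤ Bb * ‖ξ‖ ^ 2 := by
      rw [hY, norm_smul, hN, mul_one, norm_mul, norm_pow]
      gcongr
    have hXn : ‖ξ • w‖ ≤ W * ‖ξ‖ := by rw [norm_smul, mul_comm]; gcongr
    have hX : ‖ξ • w - Y‖ ≤ S * ‖ξ‖ := by
      refine (norm_sub_le _ _).trans ?_
      have : Bb * ‖ξ‖ ^ 2 ≤ Bb * ‖ξ‖ := by
        gcongr
        nlinarith
      rw [hS]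
      nlinarith
    have hX2 : ‖ξ • w - Y‖ ≤ 1 / 2 := by
      calc ‖ξ • w - Y‖ ≤ S * ‖ξ‖ := hX
        _ ≤ S * (1 / (2 * S)) := by gcongr
        _ = 1 / 2 := by field_simp
    have h1 := hK2 z hz1 (z + (ξ • w - Y)) (hzh _ hX2)
    rw [add_sub_cancel_left, Real.norm_eq_abs, smul_eq_mul] at h1
    have h2 := (abs_le.1 h1).2
    have h3 : fderiv ℝ ρ z (ξ • w - Y) = -(ξ ^ 2 * H).re / 2 := by
      rw [map_sub, hw, fderiv_ww, hY, fderiv_smul, zero_sub, ← hκ]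
      have : κ * (β * ξ ^ 2) = (ξ ^ 2 * H) / 2 := by
        rw [hβ]; field_simp
      rw [this]
      simp
      ring
    have h4 : B (ξ • w - Y) (ξ • w - Y) = B (ξ • w) (ξ • w) - B (ξ • w) Y - B Y (ξ • w) + B Y Y := by
      simp only [map_sub, sub_apply]
      ring
    have h5 := bil B w ξ
    rw [← hH] at h5
    have hM0 : 0 ≤ M := by linarith
    have h6 : |B (ξ • w) Y| ≤ M * W * Bb * ‖ξ‖ ^ 3 := by
      calc |B (ξ • w) Y| ≤ M * ‖ξ • w‖ * ‖Y‖ := hBn _ _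
        _ ≤ M * (W * ‖ξ‖) * (Bb * ‖ξ‖ ^ 2) := by gcongr
        _ = _ := by ring
    have h7 : |B Y (ξ • w)| ≤ M * W * Bb * ‖ξ‖ ^ 3 := by
      calc |B Y (ξ • w)| ≤ M * ‖Y‖ * ‖ξ • w‖ := hBn _ _
        _ ≤ M * (Bb * ‖ξ‖ ^ 2) * (W * ‖ξ‖) := by gcongr
        _ = _ := by ring
    have h8 : |B Y Y| ≤ M * Bb ^ 2 * ‖ξ‖ ^ 3 := by
      calc |B Y Y| ≤ M * ‖Y‖ * ‖Y‖ := hBn _ _
        _ ≤ M * (Bb * ‖ξ‖ ^ 2) * (Bb * ‖ξ‖ ^ 2) := by gcongr
        _ = M * Bb ^ 2 * (‖ξ‖ ^ 3 * ‖ξ‖) := by ring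
        _ ≤ M * Bb ^ 2 * (‖ξ‖ ^ 3 * 1) := by gcongr
        _ = _ := by ring
    have h9 : ‖ξ • w - Y‖ ^ 3 ≤ S ^ 3 * ‖ξ‖ ^ 3 := by
      rw [← mul_pow]
      gcongr
    have h10 : Lev ρ z w = B w w + B (Complex.I • w) (Complex.I • w) := rfl
    have h11 : K2 * ‖ξ • w - Y‖ ^ 3 ≤ K2 * (S ^ 3 * ‖ξ‖ ^ 3) := by gcongr
    have h12 : (M * W * Bb + M * Bb ^ 2 + K2 * S ^ 3) * ‖ξ‖ ^ 3 ≤ C * ‖ξ‖ ^ 3 := by gcongr
    have h13 : 0 ≤ M * Bb ^ 2 * ‖ξ‖ ^ 3 := by positivity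
    rw [h3, h4, h5] at h2
    rw [h10]
    have h6' := (abs_le.1 h6).1
    have h7' := (abs_le.1 h7).1
    have h8' := (abs_le.1 h8).2
    linarith

end Disc

/-- `VV` is bounded through two discs. -/
lemma VV_le (hU : VUpper) {n : ℕ} {Ω : Set (E n)} (hΩ : IsOpen Ω) (ρ : E n → ℝ)
    (N v z : E n) (κ β : ℂ) (hκ : κ ≠ 0) (hκdef : κ = kap ρ N z) (r₁ R : ℝ) (hN : ‖N‖ = 1)
    (hr₁ : 0 < r₁)
    (hR : 0 < R) (h1 : ∀ h : E n, ‖h‖ < r₁ → z + h ∈ Ω)
    (h2 : ∀ ξ : ℂ, ‖ξ‖ < R / ‖κ‖ → z + (ξ • ww ρ N v z - (β * ξ ^ 2) • N) ∈ Ω) :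
    VV Ω N v z ≤ 1 / (r₁ * R) ^ 2 := by
  have hκn : 0 < ‖κ‖ := norm_pos_iff.2 hκ
  refine hU n Ω N v z (kap ρ v z / κ) r₁ R (fun s => z + ((r₁ : ℂ) * s) • N)
    (fun s => z + (((R / κ : ℂ) * s) • ww ρ N v z - (β * ((R / κ : ℂ) * s) ^ 2) • N))
    hΩ ?_ hr₁ hR ?_ ?_ ?_ ?_ ?_ ?_ ?_ ?_
  · have := h1 0 (by simpa using hr₁)
    simpa using this
  · fun_prop
  · intro s hs
    rw [mem_ball, dist_zero_right] at hs
    apply h1
    rw [norm_smul, hN, mul_one, norm_mul, Complex.norm_real, Real.norm_of_nonneg hr₁.le]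
    nlinarith
  · simp
  · have hd : HasDerivAt (fun s : ℂ => z + ((r₁ : ℂ) * s) • N) ((r₁ : ℂ) • N) 0 := by
      have h3 : HasDerivAt (fun s : ℂ => (r₁ : ℂ) * s) (r₁ : ℂ) 0 := by
        simpa using (hasDerivAt_id (0 : ℂ)).const_mul (r₁ : ℂ)
      exact (h3.smul_const N).const_add z
    exact hd.deriv
  · fun_prop
  · intro s hs
    rw [mem_ball, dist_zero_right] at hs
    apply h2
    rw [norm_mul, norm_div, Complex.norm_real, Real.norm_of_nonneg hR.le]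
    have : 0 < R / ‖κ‖ := by positivity
    nlinarith
  · simp
  · have h3 : HasDerivAt (fun s : ℂ => (R / κ : ℂ) * s) (R / κ : ℂ) 0 := by
      simpa using (hasDerivAt_id (0 : ℂ)).const_mul (R / κ : ℂ)
    have h4 : HasDerivAt (fun s : ℂ => β * ((R / κ : ℂ) * s) ^ 2) 0 0 := by
      have := (h3.pow 2).const_mul β
      simpa using this
    have hd : HasDerivAt (fun s : ℂ => z + (((R / κ : ℂ) * s) • ww ρ N v z -
        (β * ((R / κ : ℂ) * s) ^ 2) • N)) ((R / κ : ℂ) • ww ρ N v z - (0 : ℂ) • N) 0 :=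
      ((h3.smul_const _).sub (h4.smul_const N)).const_add z
    rw [hd.deriv, zero_smul, sub_zero, ww, ← hκdef, smul_sub, smul_smul, smul_sub, smul_smul,
      smul_smul]
    congr 2
    · field_simp
    · field_simp

end Slice

open Slice in
/-- (J8b) upper bounds for `VV` on the normal slice through a point with degenerate Levi form. -/
theorem sliceV (hU : VUpper) : SliceV := by
  intro n Ω ρ hD p hp N v hN hv hg hNv hlev
  obtain ⟨c1, C1, hc10, hC11, hell⟩ := ell_le hD hp hN hg hNv hlev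
  obtain ⟨c2, C2, hc20, hc21, hC21, hdisc⟩ := disc_bound hD hN hv hg (v := v)
  have hρp := rho_eq_zero hD hp
  have hC10 : 0 < C1 := by linarith
  have hC20 : 0 < C2 := by linarith
  set c₀ : ℝ := 1 / (32 * C1 * C2) with hc₀
  have hc₀0 : 0 < c₀ := by positivity
  have hCC : 1 ≤ C1 * C2 := by nlinarith
  have hc₀1 : c₀ ≤ 1 / 32 := by
    rw [hc₀]
    apply one_div_le_one_div_of_le (by norm_num)
    nlinarith
  have hc₀C1 : C1 * c₀ ≤ 1 / 32 := by
    have e : C1 * c₀ = 1 / (32 * C2) := by rw [hc₀]; field_simp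
    rw [e]
    apply one_div_le_one_div_of_le (by norm_num)
    nlinarith
  have hc₀C2 : C2 * c₀ ≤ 1 / 32 := by
    have e : C2 * c₀ = 1 / (32 * C1) := by rw [hc₀]; field_simp
    rw [e]
    apply one_div_le_one_div_of_le (by norm_num)
    nlinarith
  set C : ℝ := (C2 / c₀) ^ 2 with hC
  have hC1 : 1 ≤ C := by
    rw [hC]
    apply one_le_pow₀
    rw [le_div_iff₀ hc₀0]
    linarith
  refine ⟨min (min c1 c2) (c2 ^ 2 / C2), C, by positivity, hC1, ?_, ?_⟩
  · intro ζ hζ hpos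
    have hζ1 : ‖ζ‖ < c1 := hζ.trans_le ((min_le_left _ _).trans (min_le_left _ _))
    have hζ2 : ‖ζ‖ < c2 := hζ.trans_le ((min_le_left _ _).trans (min_le_right _ _))
    have hζ3 : ‖ζ‖ < c2 ^ 2 / C2 := hζ.trans_le (min_le_right _ _)
    set z := p - ζ • N with hz
    have hzp : ‖z - p‖ = ‖ζ‖ := by
      rw [hz, sub_sub_cancel_left, norm_neg, norm_smul, hN, mul_one]
    obtain ⟨hk, hd1, hd2, -⟩ := hdisc z (by rw [hzp]; exact hζ2.le)
    set r := -ρ z with hr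
    have hρz : ρ z = -r := by rw [hr, neg_neg]
    have hrζ : r ≤ C2 * ‖ζ‖ := by
      have h1 := hd2 (p - z) (by rw [norm_sub_rev, hzp]; exact hζ2.le)
      rw [add_sub_cancel, hρp, norm_sub_rev, hzp] at h1
      linarith
    have hrc : r ≤ c2 ^ 2 := by
      have : C2 * ‖ζ‖ ≤ C2 * (c2 ^ 2 / C2) := by gcongr
      have e : C2 * (c2 ^ 2 / C2) = c2 ^ 2 := by field_simp
      linarith
    have hsr : 0 < Real.sqrt r := Real.sqrt_pos.2 hpos
    have hsr2 : Real.sqrt r ^ 2 = r := Real.sq_sqrt hpos.le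
    have hsrc : Real.sqrt r ≤ c2 := Real.sqrt_le_iff.2 ⟨hc20.le, hrc⟩
    set κ := kap ρ N z with hκ
    have hκ34 : 3 / 4 ≤ ‖κ‖ := by
      have h1 : ‖(1 : ℂ)‖ ≤ ‖κ‖ + ‖κ - 1‖ := by
        have := norm_sub_le κ (κ - 1)
        rwa [sub_sub_cancel] at this
      rw [norm_one] at h1
      linarith
    have hκ0 : κ ≠ 0 := by
      intro h0
      rw [h0, norm_zero] at hκ34
      norm_num at hκ34
    have hmem : ∀ x : E n, ρ x < 0 → x ∈ Ω := fun x hx => by rw [hD.eq]; exact hx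
    have hb := VV_le hU hD.isOpen ρ N v z κ 0 hκ0 hκ (r / C2) (c₀ * Real.sqrt r) hN
      (by positivity) (by positivity) (fun h hh => ?_) (fun ξ hξ => ?_)
    · refine hb.trans (le_of_eq ?_)
      rw [hC]
      have e : (r / C2 * (c₀ * Real.sqrt r)) ^ 2 = r ^ 3 * (c₀ / C2) ^ 2 := by
        calc (r / C2 * (c₀ * Real.sqrt r)) ^ 2 = r ^ 2 * (c₀ / C2) ^ 2 * Real.sqrt r ^ 2 := by ring
          _ = _ := by rw [hsr2]; ring
      rw [e]
      field_simp
    · apply hmem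
      have hh2 : ‖h‖ ≤ c2 := by
        refine hh.le.trans ?_
        rw [div_le_iff₀ hC20]
        nlinarith
      have h1 := hd2 h hh2
      have h2 : C2 * ‖h‖ < r := by
        rw [lt_div_iff₀ hC20] at hh
        linarith
      linarith
    · apply hmem
      have hξ' : ‖ξ‖ ≤ 2 * (c₀ * Real.sqrt r) := by
        refine hξ.le.trans ?_
        rw [div_le_iff₀ (by linarith)]
        have : 0 < c₀ * Real.sqrt r := by positivity
        nlinarith
      have hξ2 : ‖ξ‖ ≤ c2 := by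
        refine hξ'.trans ?_
        nlinarith
      have h1 := hd1 ξ hξ2
      have h2 : C2 * ‖ξ‖ ^ 2 < r := by
        calc C2 * ‖ξ‖ ^ 2 ≤ C2 * (2 * (c₀ * Real.sqrt r)) ^ 2 := by gcongr
          _ = 4 * (C2 * c₀) * c₀ * Real.sqrt r ^ 2 := by ring
          _ = 4 * (C2 * c₀) * c₀ * r := by rw [hsr2]
          _ ≤ 4 * (1 / 32) * (1 / 32) * r := by gcongr
          _ < r := by linarith
      rw [zero_mul, zero_smul, sub_zero]
      linarith
  · intro ζ hζ hpos hry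
    have hζ1 : ‖ζ‖ < c1 := hζ.trans_le ((min_le_left _ _).trans (min_le_left _ _))
    have hζ2 : ‖ζ‖ < c2 := hζ.trans_le ((min_le_left _ _).trans (min_le_right _ _))
    have hζ3 : ‖ζ‖ < c2 ^ 2 / C2 := hζ.trans_le (min_le_right _ _)
    set z := p - ζ • N with hz
    have hzp : ‖z - p‖ = ‖ζ‖ := by
      rw [hz, sub_sub_cancel_left, norm_neg, norm_smul, hN, mul_one]
    obtain ⟨hk, -, hd2, β, hd3⟩ := hdisc z (by rw [hzp]; exact hζ2.le)
    have hel := hell ζ hζ1 hpos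
    rw [ell, ← hz] at hel
    set r := -ρ z with hr
    have hρz : ρ z = -r := by rw [hr, neg_neg]
    set y := |ζ.im| with hy
    have hyζ : y ≤ ‖ζ‖ := Complex.abs_im_le_norm ζ
    have hy0 : 0 ≤ y := abs_nonneg _
    have hyc : y ≤ c2 := hyζ.trans hζ2.le
    have hy1 : y ≤ 1 := hyc.trans hc21
    have hC0 : 0 < C := by linarith
    have hry6 : r ≤ y ^ 6 := by
      refine hry.trans ?_
      rw [div_le_iff₀ hC0]
      have : 0 ≤ y ^ 6 := by positivity
      nlinarith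
    have hypos : 0 < y := by
      rcases hy0.lt_or_eq with h | h
      · exact h
      · rw [← h] at hry6
        norm_num at hry6
        linarith
    have hrζ : r ≤ C2 * ‖ζ‖ := by
      have h1 := hd2 (p - z) (by rw [norm_sub_rev, hzp]; exact hζ2.le)
      rw [add_sub_cancel, hρp, norm_sub_rev, hzp] at h1
      linarith
    have hrc : r ≤ C2 * c2 := by nlinarith
    have hsr : 0 < Real.sqrt r := Real.sqrt_pos.2 hpos
    have hsr2 : Real.sqrt r ^ 2 = r := Real.sq_sqrt hpos.le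
    have hsr3 : Real.sqrt r ≤ y ^ 3 := Real.sqrt_le_iff.2 ⟨by positivity, by nlinarith⟩
    set κ := kap ρ N z with hκ
    have hκ34 : 3 / 4 ≤ ‖κ‖ := by
      have h1 : ‖(1 : ℂ)‖ ≤ ‖κ‖ + ‖κ - 1‖ := by
        have := norm_sub_le κ (κ - 1)
        rwa [sub_sub_cancel] at this
      rw [norm_one] at h1
      linarith
    have hκ0 : κ ≠ 0 := by
      intro h0
      rw [h0, norm_zero] at hκ34
      norm_num at hκ34
    have hmem : ∀ x : E n, ρ x < 0 → x ∈ Ω := fun x hx => by rw [hD.eq]; exact hx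
    set R := c₀ * Real.sqrt r / y with hR
    have hR0 : 0 < R := by positivity
    have hRy : R * y = c₀ * Real.sqrt r := by rw [hR]; field_simp
    have hR2 : R ≤ c₀ * y ^ 2 := by
      rw [hR, div_le_iff₀ hypos]
      calc c₀ * Real.sqrt r ≤ c₀ * y ^ 3 := by gcongr
        _ = _ := by ring
    have hRc : R ≤ c2 / 32 := by
      calc R ≤ c₀ * y ^ 2 := hR2
        _ ≤ (1 / 32) * (c2 * 1) := by
            gcongr
            calc y ^ 2 = y * y := by ring
              _ ≤ c2 * 1 := by gcongr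
        _ = _ := by ring
    have hb := VV_le hU hD.isOpen ρ N v z κ β hκ0 hκ (r / C2) R hN
      (by positivity) hR0 (fun h hh => ?_) (fun ξ hξ => ?_)
    · refine hb.trans (le_of_eq ?_)
      rw [hC]
      have e : (r / C2 * R) ^ 2 * y ^ 2 = r ^ 3 * (c₀ / C2) ^ 2 := by
        calc (r / C2 * R) ^ 2 * y ^ 2 = (r / C2) ^ 2 * (R * y) ^ 2 := by ring
          _ = (r / C2) ^ 2 * c₀ ^ 2 * Real.sqrt r ^ 2 := by rw [hRy]; ring
          _ = _ := by rw [hsr2]; ring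
      have e2 : 1 / (r / C2 * R) ^ 2 = y ^ 2 / ((r / C2 * R) ^ 2 * y ^ 2) := by
        have : (r / C2 * R) ^ 2 ≠ 0 := by positivity
        field_simp
      rw [e2, e]
      field_simp
    · apply hmem
      have hh2 : ‖h‖ ≤ c2 := by
        refine hh.le.trans ?_
        rw [div_le_iff₀ hC20]
        linarith
      have h1 := hd2 h hh2
      have h2 : C2 * ‖h‖ < r := by
        rw [lt_div_iff₀ hC20] at hh
        linarith
      linarith
    · apply hmem
      have hξ' : ‖ξ‖ ≤ 2 * R := by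
        refine hξ.le.trans ?_
        rw [div_le_iff₀ (by linarith)]
        nlinarith
      have hξ2 : ‖ξ‖ ≤ c2 := by linarith
      have h1 := hd3 ξ hξ2
      have hry2 : r ≤ y ^ 2 := by
        refine hry6.trans ?_
        exact pow_le_pow_of_le_one hy0 hy1 (by norm_num)
      have h2 : ‖ξ‖ ^ 2 * Lev ρ z (ww ρ N v z) / 4 ≤ r / 4 := by
        have h3 : Lev ρ z (ww ρ N v z) ≤ C1 * (2 * y ^ 2) := by
          refine hel.trans ?_
          rw [← sq_abs ζ.im, ← hy]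
          gcongr
          linarith
        have h4 : ‖ξ‖ ^ 2 * Lev ρ z (ww ρ N v z) ≤ (2 * R) ^ 2 * (C1 * (2 * y ^ 2)) := by
          calc ‖ξ‖ ^ 2 * Lev ρ z (ww ρ N v z) ≤ ‖ξ‖ ^ 2 * (C1 * (2 * y ^ 2)) := by gcongr
            _ ≤ _ := by gcongr
        have h5 : (2 * R) ^ 2 * (C1 * (2 * y ^ 2)) = 8 * (C1 * c₀) * c₀ * r := by
          calc (2 * R) ^ 2 * (C1 * (2 * y ^ 2)) = 8 * C1 * (R * y) ^ 2 := by ring
            _ = 8 * C1 * c₀ ^ 2 * Real.sqrt r ^ 2 := by rw [hRy]; ring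
            _ = _ := by rw [hsr2]; ring
        have h6 : 8 * (C1 * c₀) * c₀ * r ≤ 8 * (1 / 32) * (1 / 32) * r := by gcongr
        linarith
      have h7 : C2 * ‖ξ‖ ^ 3 ≤ r / 4 := by
        have hR3 : R ^ 2 * R ≤ c₀ ^ 2 * r := by
          have e : R ^ 2 * y ^ 2 = c₀ ^ 2 * r := by
            calc R ^ 2 * y ^ 2 = (R * y) ^ 2 := by ring
              _ = c₀ ^ 2 * Real.sqrt r ^ 2 := by rw [hRy]; ring
              _ = _ := by rw [hsr2]
          rw [← e]
          gcongr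
          refine hR2.trans ?_
          have : 0 ≤ y ^ 2 := by positivity
          nlinarith
        calc C2 * ‖ξ‖ ^ 3 ≤ C2 * (2 * R) ^ 3 := by gcongr
          _ = 8 * C2 * (R ^ 2 * R) := by ring
          _ ≤ 8 * C2 * (c₀ ^ 2 * r) := by gcongr
          _ = 8 * (C2 * c₀) * c₀ * r := by ring
          _ ≤ 8 * (1 / 32) * (1 / 32) * r := by gcongr
          _ ≤ _ := by linarith
      linarith

end Sqz
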