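import Mathlib
import Pool.Agent.Sqz.Spec

/-!
# Job J7: upper bound for `VV` and its behaviour in charts
-/

set_option autoImplicit false

open Metric Set
open scoped ComplexConjugate

namespace Sqz
namespace VF

/-- pairing of two functions -/
noncomputable def pr {n : ℕ} (h₁ h₂ : E n → ℂ) (x : E n) : E 2 := !₂[h₁ x, h₂ x]

/-- two by two determinant -/
noncomputable def det2 (p q : E 2) : ℂ := p 0 * q 1 - q 0 * p 1

theorem norm_det2_le (p q : E 2) : ‖det2 p q‖ ≤ ‖p‖ * ‖q‖ := by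
  unfold det2
  have h1 : ‖p 0 * q 1 - q 0 * p 1‖ ≤ ‖p 0‖ * ‖q 1‖ + ‖q 0‖ * ‖p 1‖ := by
    refine (norm_sub_le _ _).trans ?_
    rw [norm_mul, norm_mul]
  have hp : ‖p‖ ^ 2 = ‖p 0‖ ^ 2 + ‖p 1‖ ^ 2 := by
    rw [EuclideanSpace.norm_sq_eq, Fin.sum_univ_two]
  have hq : ‖q‖ ^ 2 = ‖q 0‖ ^ 2 + ‖q 1‖ ^ 2 := by
    rw [EuclideanSpace.norm_sq_eq, Fin.sum_univ_two]
  refine h1.trans ?_
  apply le_of_sq_le_sq _ (by positivity)
  rw [mul_pow, hp, hq]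
  nlinarith [sq_nonneg (‖p 0‖ * ‖q 0‖ - ‖p 1‖ * ‖q 1‖)]

theorem norm_pr_sq {n : ℕ} (h₁ h₂ : E n → ℂ) (x : E n) :
    ‖pr h₁ h₂ x‖ ^ 2 = ‖h₁ x‖ ^ 2 + ‖h₂ x‖ ^ 2 := by
  rw [EuclideanSpace.norm_sq_eq, Fin.sum_univ_two]
  simp [pr]

theorem pr_mem_ball {n : ℕ} {Ω : Set (E n)} {h₁ h₂ : E n → ℂ} (h : IsMap2 Ω h₁ h₂) {x : E n}
    (hx : x ∈ Ω) : pr h₁ h₂ x ∈ ball (0 : E 2) 1 := by
  rw [mem_ball_zero_iff]
  have h1 := h.lt x hx
  rw [← norm_pr_sq] at h1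
  nlinarith [norm_nonneg (pr h₁ h₂ x)]

theorem pr_diff {n : ℕ} {Ω : Set (E n)} {h₁ h₂ : E n → ℂ} (h : IsMap2 Ω h₁ h₂) :
    DifferentiableOn ℂ (pr h₁ h₂) Ω := by
  rw [differentiableOn_euclidean]
  intro i
  fin_cases i
  · simpa [pr] using h.d1
  · simpa [pr] using h.d2

theorem jac_eq {n : ℕ} {h₁ h₂ : E n → ℂ} {z : E n} {L : E n →L[ℂ] E 2}
    (hL : HasFDerivAt (pr h₁ h₂) L z) (N v : E n) :
    Jac h₁ h₂ N v z = det2 (L N) (L v) := by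
  have e1 : HasFDerivAt h₁ ((EuclideanSpace.proj (0 : Fin 2) : E 2 →L[ℂ] ℂ).comp L) z := by
    have := (EuclideanSpace.proj (0 : Fin 2) : E 2 →L[ℂ] ℂ).hasFDerivAt.comp z hL
    exact this
  have e2 : HasFDerivAt h₂ ((EuclideanSpace.proj (1 : Fin 2) : E 2 →L[ℂ] ℂ).comp L) z := by
    have := (EuclideanSpace.proj (1 : Fin 2) : E 2 →L[ℂ] ℂ).hasFDerivAt.comp z hL
    exact this
  unfold Jac det2
  rw [e1.fderiv, e2.fderiv]
  rfl

theorem pr_zero {n : ℕ} {h₁ h₂ : E n → ℂ} {z : E n} (h1 : h₁ z = 0) (h2 : h₂ z = 0) :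
    pr h₁ h₂ z = 0 := by
  have := norm_pr_sq h₁ h₂ z
  rw [h1, h2] at this
  simpa using this

/-- Schwarz along one disc -/
theorem disc_bound {n : ℕ} {Ω : Set (E n)} {h₁ h₂ : E n → ℂ} (hΩ : IsOpen Ω)
    (h : IsMap2 Ω h₁ h₂) {z : E n} (hz : z ∈ Ω) (h1 : h₁ z = 0) (h2 : h₂ z = 0)
    {φ : ℂ → E n} {r : ℝ} {X : E n} (hr : 0 < r)
    (dφ : DifferentiableOn ℂ φ (ball 0 1)) (mφ : MapsTo φ (ball 0 1) Ω) (φ0 : φ 0 = z)
    (hd : deriv φ 0 = (r : ℂ) • X) :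
    ‖fderiv ℂ (pr h₁ h₂) z X‖ ≤ 1 / r := by
  have hH : DifferentiableAt ℂ (pr h₁ h₂) z :=
    (pr_diff h).differentiableAt (hΩ.mem_nhds hz)
  have hcomp : DifferentiableOn ℂ (fun s => pr h₁ h₂ (φ s)) (ball 0 1) :=
    (pr_diff h).comp dφ mφ
  have hmap : MapsTo (fun s => pr h₁ h₂ (φ s)) (ball 0 1)
      (closedBall (pr h₁ h₂ (φ 0)) 1) := by
    intro s hs
    rw [φ0, pr_zero h1 h2]
    exact ball_subset_closedBall (pr_mem_ball h (mφ hs))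
  have h3 := Complex.norm_deriv_le_div_of_mapsTo_ball hcomp hmap one_pos
  have hφ : HasDerivAt φ ((r : ℂ) • X) 0 := by
    rw [← hd]
    exact (dφ.differentiableAt (ball_mem_nhds _ one_pos)).hasDerivAt
  have h4 : HasDerivAt (fun s => pr h₁ h₂ (φ s)) (fderiv ℂ (pr h₁ h₂) z ((r : ℂ) • X)) 0 := by
    have h5 : HasFDerivAt (pr h₁ h₂) (fderiv ℂ (pr h₁ h₂) z) (φ 0) := by
      rw [φ0]; exact hH.hasFDerivAt
    exact h5.comp_hasDerivAt 0 hφ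
  rw [h4.deriv, map_smul, norm_smul, Complex.norm_real, Real.norm_of_nonneg hr.le] at h3
  rw [le_div_iff₀ hr, mul_comm]
  simpa using h3

theorem det2_sub (p q : E 2) (a : ℂ) : det2 p (q - a • p) = det2 p q := by
  unfold det2
  simp
  ring

/-- each competitor is bounded by the two discs -/
theorem comp_bound {n : ℕ} {Ω : Set (E n)} {N v z : E n} {a : ℂ} {r₁ r₂ : ℝ}
    {φ₁ φ₂ : ℂ → E n} (hΩ : IsOpen Ω) (hz : z ∈ Ω) (hr₁ : 0 < r₁) (hr₂ : 0 < r₂)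
    (d1 : DifferentiableOn ℂ φ₁ (ball 0 1)) (m1 : MapsTo φ₁ (ball 0 1) Ω) (z1 : φ₁ 0 = z)
    (e1 : deriv φ₁ 0 = (r₁ : ℂ) • N)
    (d2 : DifferentiableOn ℂ φ₂ (ball 0 1)) (m2 : MapsTo φ₂ (ball 0 1) Ω) (z2 : φ₂ 0 = z)
    (e2 : deriv φ₂ 0 = (r₂ : ℂ) • (v - a • N)) {h₁ h₂ : E n → ℂ} (h : IsMap2 Ω h₁ h₂)
    (h1 : h₁ z = 0) (h2 : h₂ z = 0) :
    ‖Jac h₁ h₂ N v z‖ ^ 2 ≤ 1 / (r₁ * r₂) ^ 2 := by
  have b1 := disc_bound hΩ h hz h1 h2 hr₁ d1 m1 z1 e1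
  have b2 := disc_bound hΩ h hz h1 h2 hr₂ d2 m2 z2 e2
  have hH : DifferentiableAt ℂ (pr h₁ h₂) z :=
    (pr_diff h).differentiableAt (hΩ.mem_nhds hz)
  rw [map_sub, map_smul] at b2
  have e3 : ‖Jac h₁ h₂ N v z‖ ≤ 1 / (r₁ * r₂) := by
    rw [jac_eq hH.hasFDerivAt, ← det2_sub _ _ a]
    refine (norm_det2_le _ _).trans ?_
    calc _ ≤ (1 / r₁) * (1 / r₂) := by gcongr
      _ = 1 / (r₁ * r₂) := by field_simp
  calc ‖Jac h₁ h₂ N v z‖ ^ 2 ≤ (1 / (r₁ * r₂)) ^ 2 := by gcongr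
    _ = _ := by rw [div_pow, one_pow]

theorem zero_mem {n : ℕ} (Ω : Set (E n)) (N v z : E n) :
    (0 : ℝ) ∈ {t | ∃ h₁ h₂ : E n → ℂ, IsMap2 Ω h₁ h₂ ∧ h₁ z = 0 ∧ h₂ z = 0 ∧
    t = ‖Jac h₁ h₂ N v z‖ ^ 2} := by
  refine ⟨fun _ => 0, fun _ => 0, ⟨differentiableOn_const _, differentiableOn_const _, ?_⟩,
    rfl, rfl, ?_⟩
  · intro x _; simp
  · simp [Jac]

end VF

/-- (J7a) -/
theorem vUpper : VUpper := by
  intro n Ω N v z a r₁ r₂ φ₁ φ₂ hΩ hz hr₁ hr₂ d1 m1 z1 e1 d2 m2 z2 e2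
  apply csSup_le ⟨0, VF.zero_mem Ω N v z⟩
  rintro t ⟨h₁, h₂, h, h1, h2, rfl⟩
  exact VF.comp_bound hΩ hz hr₁ hr₂ d1 m1 z1 e1 d2 m2 z2 e2 h h1 h2

namespace VF

/-- the defining set is bounded above -/
theorem bddAbove {n : ℕ} {Ω : Set (E n)} {N v x : E n} (hΩ : IsOpen Ω) (hN : ‖N‖ = 1)
    (hv : ‖v‖ = 1) (hx : x ∈ Ω) :
    BddAbove {t | ∃ h₁ h₂ : E n → ℂ, IsMap2 Ω h₁ h₂ ∧ h₁ x = 0 ∧ h₂ x = 0 ∧
    t = ‖Jac h₁ h₂ N v x‖ ^ 2} := by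
  obtain ⟨r, hr, hball⟩ := Metric.isOpen_iff.1 hΩ x hx
  have key : ∀ X : E n, ‖X‖ = 1 → DifferentiableOn ℂ (fun s : ℂ => x + s • ((r : ℂ) • X)) (ball 0 1)
      ∧ MapsTo (fun s : ℂ => x + s • ((r : ℂ) • X)) (ball 0 1) Ω
      ∧ (fun s : ℂ => x + s • ((r : ℂ) • X)) 0 = x
      ∧ deriv (fun s : ℂ => x + s • ((r : ℂ) • X)) 0 = (r : ℂ) • X := by
    intro X hX
    refine ⟨by fun_prop, ?_, by simp, ?_⟩
    · intro s hs
      apply hball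
      rw [mem_ball_zero_iff] at hs
      simp only [mem_ball, dist_self_add_left, norm_smul, Complex.norm_real, hX,
        Real.norm_of_nonneg hr.le, mul_one]
      nlinarith
    · have h1 : HasDerivAt (fun s : ℂ => x + s • ((r : ℂ) • X)) ((1 : ℂ) • ((r : ℂ) • X)) 0 :=
        ((hasDerivAt_id (0 : ℂ)).smul_const ((r : ℂ) • X)).const_add x
      rw [h1.deriv, one_smul]
  obtain ⟨a1, a2, a3, a4⟩ := key N hN
  obtain ⟨b1, b2, b3, b4⟩ := key v hv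
  refine ⟨1 / (r * r) ^ 2, ?_⟩
  rintro t ⟨h₁, h₂, h, h1, h2, rfl⟩
  exact comp_bound (a := 0) hΩ hx hr hr a1 a2 a3 a4 b1 b2 b3 (by rw [b4]; simp) h h1 h2

theorem le_VV {n : ℕ} {Ω : Set (E n)} {N v x : E n} (hΩ : IsOpen Ω) (hN : ‖N‖ = 1)
    (hv : ‖v‖ = 1) (hx : x ∈ Ω) {h₁ h₂ : E n → ℂ} (h : IsMap2 Ω h₁ h₂)
    (h1 : h₁ x = 0) (h2 : h₂ x = 0) : ‖Jac h₁ h₂ N v x‖ ^ 2 ≤ VV Ω N v x :=
  le_csSup (bddAbove hΩ hN hv hx) ⟨h₁, h₂, h, h1, h2, rfl⟩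

/-- linear algebra of a chart at its centre -/
theorem chart_linear {n : ℕ} {Ω : Set (E n)} (hΩ : IsOpen Ω) {D ρ₀ : ℝ}
    (hdist : ∀ x ∈ Ω, ∀ y ∈ Ω, dist x y ≤ D) (hρ : 0 < ρ₀) {z : E n} (hz : z ∈ Ω)
    {f g : E n → E n} (h : IsChart Ω Ω ρ₀ z f g) :
    g 0 = z ∧ HasFDerivAt f (fderiv ℂ f z) z ∧ HasFDerivAt g (fderiv ℂ g 0) 0 ∧
      (∀ X, fderiv ℂ g 0 (fderiv ℂ f z X) = X) ∧ ‖fderiv ℂ g 0‖ ≤ D / ρ₀ := by
  have g0 : g 0 = z := by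
    have := h.gf z hz (by rw [h.fz]; exact mem_ball_self hρ)
    rwa [h.fz] at this
  have hf : HasFDerivAt f (fderiv ℂ f z) z :=
    (h.df.differentiableAt (hΩ.mem_nhds hz)).hasFDerivAt
  have hg : HasFDerivAt g (fderiv ℂ g 0) 0 :=
    (h.dg.differentiableAt (ball_mem_nhds _ hρ)).hasFDerivAt
  refine ⟨g0, hf, hg, ?_, ?_⟩
  · have hg' : HasFDerivAt g (fderiv ℂ g 0) (f z) := by rw [h.fz]; exact hg
    have h1 : HasFDerivAt (fun x => g (f x)) ((fderiv ℂ g 0).comp (fderiv ℂ f z)) z :=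
      hg'.comp z hf
    have h2 : (fun x => g (f x)) =ᶠ[nhds z] id := by
      have h3 : ∀ᶠ x in nhds z, f x ∈ ball (0 : E n) ρ₀ := by
        apply hf.continuousAt
        rw [h.fz]
        exact ball_mem_nhds _ hρ
      filter_upwards [hΩ.mem_nhds hz, h3] with x hx1 hx2
      exact h.gf x hx1 hx2
    have h4 : HasFDerivAt (fun x => g (f x)) (ContinuousLinearMap.id ℂ (E n)) z :=
      (hasFDerivAt_id z).congr_of_eventuallyEq h2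
    have h5 := h1.unique h4
    intro X
    exact congrArg (fun T : E n →L[ℂ] E n => T X) h5
  · apply Complex.norm_fderiv_le_div_of_mapsTo_ball h.dg _ hρ
    intro x hx
    rw [mem_closedBall, g0]
    exact hdist _ (h.mg hx) _ hz

/-- competitors in a chart -/
theorem competitor_linear {n : ℕ} {Ω : Set (E n)} (hΩ : IsOpen Ω) {D ρ₀ : ℝ}
    (hdist : ∀ x ∈ Ω, ∀ y ∈ Ω, dist x y ≤ D) (hρ : 0 < ρ₀) {z : E n} (hz : z ∈ Ω)
    {f g : E n → E n} (h : IsChart Ω Ω ρ₀ z f g) {h₁ h₂ : E n → ℂ} (hh : IsMap2 Ω h₁ h₂)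
    (h1 : h₁ z = 0) (h2 : h₂ z = 0) :
    ∃ T : E n →L[ℂ] E 2, ‖T‖ ≤ 1 / ρ₀ ∧
      ∀ X, fderiv ℂ (pr h₁ h₂) z X = T (fderiv ℂ f z X) := by
  obtain ⟨g0, hf, hg, hid, hn⟩ := chart_linear hΩ hdist hρ hz h
  have hH : DifferentiableAt ℂ (pr h₁ h₂) z :=
    (pr_diff hh).differentiableAt (hΩ.mem_nhds hz)
  have hcomp : HasFDerivAt (fun b => pr h₁ h₂ (g b))
      ((fderiv ℂ (pr h₁ h₂) z).comp (fderiv ℂ g 0)) 0 := by
    have h5 : HasFDerivAt (pr h₁ h₂) (fderiv ℂ (pr h₁ h₂) z) (g 0) := by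
      rw [g0]; exact hH.hasFDerivAt
    exact h5.comp 0 hg
  refine ⟨(fderiv ℂ (pr h₁ h₂) z).comp (fderiv ℂ g 0), ?_, ?_⟩
  · have hd : DifferentiableOn ℂ (fun b => pr h₁ h₂ (g b)) (ball 0 ρ₀) :=
      (pr_diff hh).comp h.dg h.mg
    have hm : MapsTo (fun b => pr h₁ h₂ (g b)) (ball 0 ρ₀)
        (closedBall (pr h₁ h₂ (g 0)) 1) := by
      intro s hs
      rw [g0, pr_zero h1 h2]
      exact ball_subset_closedBall (pr_mem_ball hh (h.mg hs))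
    have := Complex.norm_fderiv_le_div_of_mapsTo_ball hd hm hρ
    rwa [hcomp.fderiv] at this
  · intro X
    rw [ContinuousLinearMap.comp_apply, hid]

/-- orthogonal projection away from two orthonormal vectors -/
theorem proj_sq {n : ℕ} {e₁ e₂ : E n} (h11 : ‖e₁‖ = 1) (h22 : ‖e₂‖ = 1)
    (h12 : inner ℂ e₁ e₂ = (0 : ℂ)) (w : E n) :
    ‖w - (inner ℂ e₁ w : ℂ) • e₁ - (inner ℂ e₂ w : ℂ) • e₂‖ ^ 2 =
      ‖w‖ ^ 2 - ‖(inner ℂ e₁ w : ℂ)‖ ^ 2 - ‖(inner ℂ e₂ w : ℂ)‖ ^ 2 := by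
  set a : ℂ := inner ℂ e₁ w with ha
  set b : ℂ := inner ℂ e₂ w with hb
  have h21 : inner ℂ e₂ e₁ = (0 : ℂ) := by
    rw [← inner_conj_symm, h12, map_zero]
  have i11 : inner ℂ e₁ e₁ = (1 : ℂ) := by
    rw [inner_self_eq_norm_sq_to_K, h11]; norm_num
  have i22 : inner ℂ e₂ e₂ = (1 : ℂ) := by
    rw [inner_self_eq_norm_sq_to_K, h22]; norm_num
  have a' : inner ℂ w e₁ = conj a := by rw [ha, inner_conj_symm]
  have b' : inner ℂ w e₂ = conj b := by rw [hb, inner_conj_symm]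
  have key : (inner ℂ (w - a • e₁ - b • e₂) (w - a • e₁ - b • e₂) : ℂ) =
      inner ℂ w w - conj a * a - conj b * b := by
    simp only [inner_sub_left, inner_sub_right, inner_smul_left, inner_smul_right, h12, h21,
      i11, i22, ← ha, ← hb, a', b']
    ring
  rw [inner_self_eq_norm_sq_to_K, inner_self_eq_norm_sq_to_K, Complex.conj_mul',
    Complex.conj_mul'] at key
  apply Complex.ofReal_injective
  push_cast
  exact key

theorem hasFDerivAt_quot {n : ℕ} {a b : E n → ℂ} {a' b' : E n →L[ℂ] ℂ} {x : E n}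
    (ha : HasFDerivAt a a' x) (hb : HasFDerivAt b b' x) (h : b x ≠ 0) :
    HasFDerivAt (fun y => a y / b y) ((b x)⁻¹ • a' - (a x / (b x) ^ 2) • b') x := by
  have h1 : HasFDerivAt (fun y => (b y)⁻¹) (-((b x) ^ 2)⁻¹ • b') x :=
    (hasDerivAt_inv h).comp_hasFDerivAt x hb
  have h2 : HasFDerivAt (fun y => a y * (b y)⁻¹) (a x • (-((b x) ^ 2)⁻¹ • b') + (b x)⁻¹ • a') x :=
    ha.mul h1
  simp only [div_eq_mul_inv]
  refine h2.congr_fderiv ?_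
  ext X
  simp
  ring

/-- transport to another point by an automorphism of the two-ball -/
theorem transport {n : ℕ} {Ω : Set (E n)} {N v x : E n} (hΩ : IsOpen Ω) (hN : ‖N‖ = 1)
    (hv : ‖v‖ = 1) (hx : x ∈ Ω) {F₁ F₂ : E n → ℂ} (h : IsMap2 Ω F₁ F₂) :
    ‖Jac F₁ F₂ N v x‖ ^ 2 ≤ (1 - ‖F₁ x‖ ^ 2 - ‖F₂ x‖ ^ 2) ^ 3 * VV Ω N v x := by
  -- unit vector in the direction of the value
  obtain ⟨α, u₁, u₂, hα0, hα, hu, hF1, hF2⟩ : ∃ (α : ℝ) (u₁ u₂ : ℂ), 0 ≤ α ∧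
      α ^ 2 = ‖F₁ x‖ ^ 2 + ‖F₂ x‖ ^ 2 ∧ ‖u₁‖ ^ 2 + ‖u₂‖ ^ 2 = 1 ∧ F₁ x = α * u₁ ∧
      F₂ x = α * u₂ := by
    by_cases h0 : ‖F₁ x‖ ^ 2 + ‖F₂ x‖ ^ 2 = 0
    · have e1 : F₁ x = 0 := by
        have : ‖F₁ x‖ ^ 2 = 0 := by nlinarith [sq_nonneg ‖F₁ x‖, sq_nonneg ‖F₂ x‖]
        simpa using this
      have e2 : F₂ x = 0 := by
        have : ‖F₂ x‖ ^ 2 = 0 := by nlinarith [sq_nonneg ‖F₁ x‖, sq_nonneg ‖F₂ x‖]
        simpa using this
      exact ⟨0, 1, 0, le_rfl, by rw [h0]; norm_num, by norm_num, by simp [e1], by simp [e2]⟩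
    · have hpos : 0 < ‖F₁ x‖ ^ 2 + ‖F₂ x‖ ^ 2 := lt_of_le_of_ne (by positivity) (Ne.symm h0)
      have hs := Real.sqrt_pos.2 hpos
      have hsq := Real.sq_sqrt hpos.le
      set α := Real.sqrt (‖F₁ x‖ ^ 2 + ‖F₂ x‖ ^ 2) with hαdef
      have hαc : (α : ℂ) ≠ 0 := by exact_mod_cast hs.ne'
      refine ⟨α, F₁ x / α, F₂ x / α, hs.le, hsq, ?_, ?_, ?_⟩
      · rw [norm_div, norm_div, Complex.norm_real, Real.norm_of_nonneg hs.le, div_pow, div_pow,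
          ← add_div, hsq, div_self h0]
      · field_simp
      · field_simp
  have hα1 : α < 1 := by
    have := h.lt x hx
    rw [← hα] at this
    nlinarith
  have huc : conj u₁ * u₁ + conj u₂ * u₂ = 1 := by
    rw [Complex.conj_mul', Complex.conj_mul']
    exact_mod_cast hu
  have hd1 : DifferentiableAt ℂ F₁ x := h.d1.differentiableAt (hΩ.mem_nhds hx)
  have hd2 : DifferentiableAt ℂ F₂ x := h.d2.differentiableAt (hΩ.mem_nhds hx)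
  set R₁ : E n → ℂ := fun y => conj u₁ * F₁ y + conj u₂ * F₂ y with hR1
  set R₂ : E n → ℂ := fun y => -u₂ * F₁ y + u₁ * F₂ y with hR2
  have hR1x : R₁ x = α := by
    simp only [hR1, hF1, hF2]
    linear_combination (α : ℂ) * huc
  have hR2x : R₂ x = 0 := by
    simp only [hR2, hF1, hF2]
    ring
  have hRn : ∀ y, ‖R₁ y‖ ^ 2 + ‖R₂ y‖ ^ 2 = ‖F₁ y‖ ^ 2 + ‖F₂ y‖ ^ 2 := by
    intro y
    have : conj (R₁ y) * R₁ y + conj (R₂ y) * R₂ y = conj (F₁ y) * F₁ y + conj (F₂ y) * F₂ y := by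
      simp only [hR1, hR2, map_add, map_mul, map_neg, Complex.conj_conj]
      linear_combination (conj (F₁ y) * F₁ y + conj (F₂ y) * F₂ y) * huc
    rw [Complex.conj_mul', Complex.conj_mul', Complex.conj_mul', Complex.conj_mul'] at this
    exact_mod_cast this
  have hRlt : ∀ y ∈ Ω, ‖R₁ y‖ ^ 2 + ‖R₂ y‖ ^ 2 < 1 := fun y hy => by
    rw [hRn]; exact h.lt y hy
  -- the denominator
  have hden : ∀ y ∈ Ω, (1 : ℂ) - α * R₁ y ≠ 0 := by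
    intro y hy h0
    have h1 : (α : ℂ) * R₁ y = 1 := by linear_combination -h0
    have h2 : α * ‖R₁ y‖ = 1 := by
      have := congrArg norm h1
      rwa [norm_mul, Complex.norm_real, Real.norm_of_nonneg hα0, norm_one] at this
    have h3 := hRlt y hy
    nlinarith [sq_nonneg ‖R₂ y‖, norm_nonneg (R₁ y)]
  set s : ℝ := Real.sqrt (1 - α ^ 2) with hs
  have h1α : 0 < 1 - α ^ 2 := by nlinarith
  have hs2 : s ^ 2 = 1 - α ^ 2 := Real.sq_sqrt h1α.le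
  set G₁ : E n → ℂ := fun y => (R₁ y - α) / (1 - α * R₁ y) with hG1
  set G₂ : E n → ℂ := fun y => s * R₂ y / (1 - α * R₁ y) with hG2
  have dR1 : DifferentiableOn ℂ R₁ Ω := (h.d1.const_mul _).add (h.d2.const_mul _)
  have dR2 : DifferentiableOn ℂ R₂ Ω := (h.d1.const_mul _).add (h.d2.const_mul _)
  have dG1 : DifferentiableOn ℂ G₁ Ω := by
    intro y hy
    have a1 := (dR1.differentiableAt (hΩ.mem_nhds hy)).hasFDerivAt
    exact (hasFDerivAt_quot (a1.sub_const (α : ℂ)) ((a1.const_mul (α : ℂ)).const_sub 1)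
      (hden y hy)).differentiableAt.differentiableWithinAt
  have dG2 : DifferentiableOn ℂ G₂ Ω := by
    intro y hy
    have a1 := (dR1.differentiableAt (hΩ.mem_nhds hy)).hasFDerivAt
    have a2 := (dR2.differentiableAt (hΩ.mem_nhds hy)).hasFDerivAt
    exact (hasFDerivAt_quot (a2.const_mul (s : ℂ)) ((a1.const_mul (α : ℂ)).const_sub 1)
      (hden y hy)).differentiableAt.differentiableWithinAt
  have hGlt : ∀ y ∈ Ω, ‖G₁ y‖ ^ 2 + ‖G₂ y‖ ^ 2 < 1 := by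
    intro y hy
    have hd := hden y hy
    have hdn : 0 < ‖(1 : ℂ) - α * R₁ y‖ ^ 2 := by positivity
    simp only [hG1, hG2]
    rw [norm_div, norm_div, div_pow, div_pow, ← add_div, div_lt_one hdn, norm_mul,
      Complex.norm_real, mul_pow, Real.norm_eq_abs, sq_abs, hs2]
    have e1 : ‖(1 : ℂ) - α * R₁ y‖ ^ 2 - ‖R₁ y - α‖ ^ 2 = (1 - α ^ 2) * (1 - ‖R₁ y‖ ^ 2) := by
      rw [Complex.sq_norm, Complex.sq_norm, Complex.sq_norm, Complex.normSq_apply,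
        Complex.normSq_apply, Complex.normSq_apply]
      simp
      ring
    have := hRlt y hy
    nlinarith
  have hG : IsMap2 Ω G₁ G₂ := ⟨dG1, dG2, hGlt⟩
  have hG1x : G₁ x = 0 := by simp [hG1, hR1x]
  have hG2x : G₂ x = 0 := by simp [hG2, hR2x]
  have hle := le_VV hΩ hN hv hx hG hG1x hG2x
  -- derivatives
  have fR1 : HasFDerivAt R₁ (conj u₁ • fderiv ℂ F₁ x + conj u₂ • fderiv ℂ F₂ x) x :=
    (hd1.hasFDerivAt.const_mul _).add (hd2.hasFDerivAt.const_mul _)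
  have fR2 : HasFDerivAt R₂ (-u₂ • fderiv ℂ F₁ x + u₁ • fderiv ℂ F₂ x) x :=
    (hd1.hasFDerivAt.const_mul _).add (hd2.hasFDerivAt.const_mul _)
  have hdx := hden x hx
  have hdx' : (1 : ℂ) - α * α ≠ 0 := by rwa [hR1x] at hdx
  have fG1 : HasFDerivAt G₁ (((1 : ℂ) - α * α)⁻¹ •
      (conj u₁ • fderiv ℂ F₁ x + conj u₂ • fderiv ℂ F₂ x)) x := by
    have := hasFDerivAt_quot (fR1.sub_const (α : ℂ)) ((fR1.const_mul (α : ℂ)).const_sub 1) hdx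
    refine this.congr_fderiv ?_
    rw [hR1x]
    ext X
    simp
  have fG2 : HasFDerivAt G₂ (((s : ℂ) * ((1 : ℂ) - α * α)⁻¹) •
      (-u₂ • fderiv ℂ F₁ x + u₁ • fderiv ℂ F₂ x)) x := by
    have := hasFDerivAt_quot (fR2.const_mul (s : ℂ)) ((fR1.const_mul (α : ℂ)).const_sub 1) hdx
    refine this.congr_fderiv ?_
    rw [hR1x, hR2x]
    ext X
    simp
    field_simp
  have hJ : Jac G₁ G₂ N v x = (s : ℂ) * ((1 : ℂ) - α * α)⁻¹ ^ 2 * Jac F₁ F₂ N v x := by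
    unfold Jac
    rw [fG1.fderiv, fG2.fderiv]
    simp only [smul_apply, add_apply, smul_eq_mul]
    linear_combination ((s : ℂ) * ((1 : ℂ) - α * α)⁻¹ ^ 2 * (fderiv ℂ F₁ x N * fderiv ℂ F₂ x v -
      fderiv ℂ F₁ x v * fderiv ℂ F₂ x N)) * huc
  have hJn : ‖Jac F₁ F₂ N v x‖ ^ 2 = (1 - α ^ 2) ^ 3 * ‖Jac G₁ G₂ N v x‖ ^ 2 := by
    rw [hJ]
    have e1 : (1 : ℂ) - α * α = ((1 - α ^ 2 : ℝ) : ℂ) := by push_cast; ring
    rw [e1, norm_mul, norm_mul, norm_pow, norm_inv, Complex.norm_real, Complex.norm_real,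
      Real.norm_of_nonneg h1α.le, Real.norm_eq_abs, mul_pow, mul_pow, sq_abs, hs2]
    field_simp
  rw [hJn]
  have e2 : 1 - ‖F₁ x‖ ^ 2 - ‖F₂ x‖ ^ 2 = 1 - α ^ 2 := by rw [hα]; ring
  rw [e2]
  gcongr

end VF

/-- (J7b) -/
theorem vChart : VChart := by
  intro n Ω N v D hΩ hN hv hNv hD hdist ρ₀ z f g hρ hz h
  obtain ⟨g0, hf, hg, hid, hgn⟩ := VF.chart_linear hΩ hdist hρ hz h
  set Lf := fderiv ℂ f z with hLf
  -- lower bound for the derivative of the chart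
  have hlow : ∀ X : E n, ρ₀ / D * ‖X‖ ≤ ‖Lf X‖ := by
    intro X
    have h1 : ‖X‖ ≤ D / ρ₀ * ‖Lf X‖ := by
      calc ‖X‖ = ‖fderiv ℂ g 0 (Lf X)‖ := by rw [hid]
        _ ≤ ‖fderiv ℂ g 0‖ * ‖Lf X‖ := ContinuousLinearMap.le_opNorm _ _
        _ ≤ _ := by gcongr
    calc ρ₀ / D * ‖X‖ ≤ ρ₀ / D * (D / ρ₀ * ‖Lf X‖) := by gcongr
      _ = ‖Lf X‖ := by field_simp
  set A := Lf N with hA
  set B := Lf v with hB
  have hρD : 0 < ρ₀ / D := by positivity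
  have hAn : ρ₀ / D ≤ ‖A‖ := by
    have := hlow N
    rwa [hN, mul_one] at this
  have hApos : 0 < ‖A‖ := hρD.trans_le hAn
  have hAc : (‖A‖ : ℂ) ≠ 0 := by exact_mod_cast hApos.ne'
  set e₁ : E n := (‖A‖ : ℂ)⁻¹ • A with he₁
  have ne1 : ‖e₁‖ = 1 := by
    rw [he₁, norm_smul, norm_inv, Complex.norm_real, norm_norm, inv_mul_cancel₀ hApos.ne']
  have hAe : A = (‖A‖ : ℂ) • e₁ := by
    rw [he₁, smul_smul, mul_inv_cancel₀ hAc, one_smul]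
  set β : ℂ := inner ℂ e₁ B with hβ
  set w : E n := B - β • e₁ with hw
  have hwL : w = Lf (v - (β * (‖A‖ : ℂ)⁻¹) • N) := by
    rw [map_sub, map_smul, hw, he₁, smul_smul]
  have hγ : ρ₀ / D ≤ ‖w‖ := by
    have h1 : 1 ≤ ‖v - (β * (‖A‖ : ℂ)⁻¹) • N‖ := by
      set c : ℂ := β * (‖A‖ : ℂ)⁻¹
      have h2 : (inner ℂ v (v - c • N) : ℂ) = 1 := by
        have h3 : (inner ℂ v N : ℂ) = 0 := by rw [← inner_conj_symm, hNv, map_zero]
        rw [inner_sub_right, inner_smul_right, h3, mul_zero, sub_zero,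
          inner_self_eq_norm_sq_to_K, hv]
        norm_num
      have h4 := norm_inner_le_norm (𝕜 := ℂ) v (v - c • N)
      rw [h2, hv, one_mul, norm_one] at h4
      exact h4
    calc ρ₀ / D = ρ₀ / D * 1 := by rw [mul_one]
      _ ≤ ρ₀ / D * ‖v - (β * (‖A‖ : ℂ)⁻¹) • N‖ := by gcongr
      _ ≤ ‖w‖ := by rw [hwL]; exact hlow _
  have hγpos : 0 < ‖w‖ := hρD.trans_le hγ
  have hγc : (‖w‖ : ℂ) ≠ 0 := by exact_mod_cast hγpos.ne'
  set e₂ : E n := (‖w‖ : ℂ)⁻¹ • w with he₂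
  have ne2 : ‖e₂‖ = 1 := by
    rw [he₂, norm_smul, norm_inv, Complex.norm_real, norm_norm, inv_mul_cancel₀ hγpos.ne']
  have hwe : w = (‖w‖ : ℂ) • e₂ := by
    rw [he₂, smul_smul, mul_inv_cancel₀ hγc, one_smul]
  have i11 : inner ℂ e₁ e₁ = (1 : ℂ) := by
    rw [inner_self_eq_norm_sq_to_K, ne1]; norm_num
  have i22 : inner ℂ e₂ e₂ = (1 : ℂ) := by
    rw [inner_self_eq_norm_sq_to_K, ne2]; norm_num
  have i12 : inner ℂ e₁ e₂ = (0 : ℂ) := by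
    rw [he₂, inner_smul_right, hw, inner_sub_right, inner_smul_right, i11, ← hβ]
    ring
  have i21 : inner ℂ e₂ e₁ = (0 : ℂ) := by
    rw [← inner_conj_symm, i12, map_zero]
  have e1A : inner ℂ e₁ A = (‖A‖ : ℂ) := by
    rw [hAe, inner_smul_right, i11, mul_one, ← hAe]
  have e2A : inner ℂ e₂ A = (0 : ℂ) := by
    rw [hAe, inner_smul_right, i21, mul_zero]
  have e2B : inner ℂ e₂ B = (‖w‖ : ℂ) := by
    have : B = w + β • e₁ := by rw [hw]; abel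
    rw [this, inner_add_right, inner_smul_right, i21, mul_zero, add_zero, hwe, inner_smul_right,
      i22, mul_one, ← hwe]
  -- the two functions
  set F₁ : E n → ℂ := fun x => inner ℂ e₁ (f x) with hF1
  set F₂ : E n → ℂ := fun x => inner ℂ e₂ (f x) with hF2
  have hF1' : F₁ = fun x => innerSL ℂ e₁ (f x) := rfl
  have hF2' : F₂ = fun x => innerSL ℂ e₂ (f x) := rfl
  have hbes : ∀ x, ‖F₁ x‖ ^ 2 + ‖F₂ x‖ ^ 2 ≤ ‖f x‖ ^ 2 := by
    intro x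
    have h1 := VF.proj_sq ne1 ne2 i12 (f x)
    have h2 : 0 ≤ ‖f x - (inner ℂ e₁ (f x) : ℂ) • e₁ - (inner ℂ e₂ (f x) : ℂ) • e₂‖ ^ 2 := by
      positivity
    rw [h1] at h2
    simp only [hF1, hF2]
    linarith
  have hF : IsMap2 Ω F₁ F₂ := by
    refine ⟨?_, ?_, ?_⟩
    · rw [hF1']
      exact (innerSL ℂ e₁).differentiable.comp_differentiableOn h.df
    · rw [hF2']
      exact (innerSL ℂ e₂).differentiable.comp_differentiableOn h.df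
    · intro x hx
      have h1 := h.mf hx
      rw [mem_ball_zero_iff] at h1
      have h2 := hbes x
      have h3 := norm_nonneg (f x)
      nlinarith
  have hF1z : F₁ z = 0 := by simp [hF1, h.fz]
  have hF2z : F₂ z = 0 := by simp [hF2, h.fz]
  have fF1 : HasFDerivAt F₁ ((innerSL ℂ e₁).comp Lf) z :=
    (innerSL ℂ e₁).hasFDerivAt.comp z hf
  have fF2 : HasFDerivAt F₂ ((innerSL ℂ e₂).comp Lf) z :=
    (innerSL ℂ e₂).hasFDerivAt.comp z hf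
  have hJ : Jac F₁ F₂ N v z = (‖A‖ : ℂ) * (‖w‖ : ℂ) := by
    unfold Jac
    rw [fF1.fderiv, fF2.fderiv]
    simp only [ContinuousLinearMap.comp_apply, innerSL_apply_apply, ← hA, ← hB, e1A, e2A, e2B]
    ring
  have hJn : ‖Jac F₁ F₂ N v z‖ ^ 2 = (‖A‖ * ‖w‖) ^ 2 := by
    rw [hJ, norm_mul, Complex.norm_real, Complex.norm_real, norm_norm, norm_norm]
  have hle := VF.le_VV hΩ hN hv hz hF hF1z hF2z
  have hlower : (ρ₀ / D) ^ 2 * ‖A‖ ^ 2 ≤ VV Ω N v z := by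
    refine le_trans ?_ hle
    rw [hJn, mul_pow, mul_comm]
    gcongr
  refine ⟨hlower, lt_of_lt_of_le (by positivity) hlower, F₁, F₂, hF, fun x _ => hbes x, ?_,
    fun x hx => VF.transport hΩ hN hv hx hF, ?_⟩
  · -- near-extremality
    rw [hJn]
    apply csSup_le ⟨0, VF.zero_mem Ω N v z⟩
    rintro t ⟨h₁, h₂, hh, h1, h2, rfl⟩
    obtain ⟨T, hTn, hT⟩ := VF.competitor_linear hΩ hdist hρ hz h hh h1 h2
    have hH : DifferentiableAt ℂ (VF.pr h₁ h₂) z :=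
      (VF.pr_diff hh).differentiableAt (hΩ.mem_nhds hz)
    have h3 : ‖Jac h₁ h₂ N v z‖ ≤ (1 / ρ₀ * ‖A‖) * (1 / ρ₀ * ‖w‖) := by
      rw [VF.jac_eq hH.hasFDerivAt, hT, hT, ← hLf, ← hA, ← hB,
        ← VF.det2_sub _ _ (β * (‖A‖ : ℂ)⁻¹)]
      refine (VF.norm_det2_le _ _).trans ?_
      have h5 : T B - (β * (‖A‖ : ℂ)⁻¹) • T A = T w := by
        rw [hw, map_sub, map_smul, he₁, map_smul, smul_smul]
      rw [h5]
      have h6 : ‖T A‖ ≤ 1 / ρ₀ * ‖A‖ :=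
        (T.le_opNorm A).trans (by gcongr)
      have h7 : ‖T w‖ ≤ 1 / ρ₀ * ‖w‖ :=
        (T.le_opNorm w).trans (by gcongr)
      gcongr
    calc ‖Jac h₁ h₂ N v z‖ ^ 2 ≤ ((1 / ρ₀ * ‖A‖) * (1 / ρ₀ * ‖w‖)) ^ 2 := by gcongr
      _ = (‖A‖ * ‖w‖) ^ 2 / ρ₀ ^ 4 := by field_simp
  · -- second order vanishing of the remaining components
    intro r hr hsub ζ hζ
    set G : ℂ → E n := fun ξ => f (z + ξ • N) - (inner ℂ e₁ (f (z + ξ • N)) : ℂ) • e₁ -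
      (inner ℂ e₂ (f (z + ξ • N)) : ℂ) • e₂ with hG
    have hGsq : ∀ ξ, ‖G ξ‖ ^ 2 = ‖f (z + ξ • N)‖ ^ 2 - ‖F₁ (z + ξ • N)‖ ^ 2 -
        ‖F₂ (z + ξ • N)‖ ^ 2 := fun ξ => VF.proj_sq ne1 ne2 i12 _
    have G0 : G 0 = 0 := by simp [hG, h.fz]
    have hline : DifferentiableOn ℂ (fun ξ : ℂ => f (z + ξ • N)) (ball 0 r) := by
      apply h.df.comp (by fun_prop)
      intro ξ hξ
      exact hsub ξ (by simpa using hξ)
    have hGd : DifferentiableOn ℂ G (ball 0 r) := by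
      have a1 : DifferentiableOn ℂ (fun ξ : ℂ => (innerSL ℂ e₁ (f (z + ξ • N)) : ℂ)) (ball 0 r) :=
        (innerSL ℂ e₁).differentiable.comp_differentiableOn hline
      have a2 : DifferentiableOn ℂ (fun ξ : ℂ => (innerSL ℂ e₂ (f (z + ξ • N)) : ℂ)) (ball 0 r) :=
        (innerSL ℂ e₂).differentiable.comp_differentiableOn hline
      exact (hline.sub (a1.smul_const e₁)).sub (a2.smul_const e₂)
    have hGm : MapsTo G (ball 0 r) (closedBall (G 0) 1) := by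
      intro ξ hξ
      rw [G0, mem_closedBall_zero_iff]
      have h1 : ‖f (z + ξ • N)‖ < 1 := by
        have := h.mf (hsub ξ (by simpa using hξ))
        rwa [mem_ball_zero_iff] at this
      have h2 := hGsq ξ
      have h3 := norm_nonneg (f (z + ξ • N))
      have h4 : ‖G ξ‖ ^ 2 ≤ 1 := by
        rw [h2]
        nlinarith [sq_nonneg ‖F₁ (z + ξ • N)‖, sq_nonneg ‖F₂ (z + ξ • N)‖]
      nlinarith [norm_nonneg (G ξ)]
    have hGder : HasDerivAt G 0 0 := by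
      have b0 : HasDerivAt (fun ξ : ℂ => z + ξ • N) N 0 := by
        have := ((hasDerivAt_id (0 : ℂ)).smul_const N).const_add z
        rwa [one_smul] at this
      have b1 : HasDerivAt (fun ξ : ℂ => f (z + ξ • N)) A 0 := by
        have h5 : HasFDerivAt f Lf ((fun ξ : ℂ => z + ξ • N) 0) := by
          simpa using hf
        exact h5.comp_hasDerivAt 0 b0
      have a1 : HasDerivAt (fun ξ : ℂ => (innerSL ℂ e₁ (f (z + ξ • N)) : ℂ)) (innerSL ℂ e₁ A) 0 :=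
        (innerSL ℂ e₁).hasFDerivAt.comp_hasDerivAt 0 b1
      have a2 : HasDerivAt (fun ξ : ℂ => (innerSL ℂ e₂ (f (z + ξ • N)) : ℂ)) (innerSL ℂ e₂ A) 0 :=
        (innerSL ℂ e₂).hasFDerivAt.comp_hasDerivAt 0 b1
      have b3 : HasDerivAt G (A - innerSL ℂ e₁ A • e₁ - innerSL ℂ e₂ A • e₂) 0 :=
        (b1.sub (a1.smul_const e₁)).sub (a2.smul_const e₂)
      have b4 : A - innerSL ℂ e₁ A • e₁ - innerSL ℂ e₂ A • e₂ = 0 := by
        rw [innerSL_apply_apply, innerSL_apply_apply, e1A, e2A, zero_smul, sub_zero, ← hAe,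
          sub_self]
      rwa [b4] at b3
    have hlo : (fun ξ => G ξ - G 0) =o[nhds 0] (fun ξ : ℂ => ‖ξ - 0‖ ^ 1) := by
      have := hGder.isLittleO
      simp only [smul_zero, sub_zero] at this
      simpa using this.norm_right
    have hfin := Complex.dist_le_mul_div_pow_of_mapsTo_ball_of_isLittleO (n := 1) hGd hGm hlo
      (by simpa using hζ : ζ ∈ ball (0 : ℂ) r)
    rw [G0, dist_zero_right, dist_zero_right, one_mul] at hfin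
    rw [← hGsq ζ]
    calc ‖G ζ‖ ^ 2 ≤ ((‖ζ‖ / r) ^ (1 + 1)) ^ 2 := by gcongr
      _ = (‖ζ‖ / r) ^ 4 := by ring

end Sqz
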