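import Pool.Agent.Sqz.Spec

set_option autoImplicit false

open Metric Set
open scoped ComplexConjugate

namespace Sqz

theorem log_one_add_le {x : ℝ} (hx : |x| ≤ 1 / 2) :
    Real.log (1 + x) ≤ x - x ^ 2 / 2 + 2 * |x| ^ 3 := by
  have h := Real.abs_log_sub_add_sum_range_le (x := -x) (by rw [abs_neg]; linarith) 2
  simp only [Finset.sum_range_succ, Finset.sum_range_zero, abs_neg] at h
  have h2 := (abs_le.mp h).2
  have h3 : |x| ^ (2 + 1) / (1 - |x|) ≤ 2 * |x| ^ 3 := by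
    rw [div_le_iff₀ (by linarith)]
    have : 0 ≤ |x| ^ 3 := by positivity
    have h4 : |x| ^ (2 + 1) = |x| ^ 3 := by norm_num
    rw [h4]
    nlinarith
  have e : (1 : ℝ) - -x = 1 + x := by ring
  rw [e] at h2
  push_cast at h2
  norm_num at h2
  nlinarith

/-- the holomorphic exponent on a small circle -/
theorem circle_fn {ζ₀ κ : ℂ} {r₀ C ε : ℝ} (hr₀ : 0 < r₀) (hκ : ‖κ - 1‖ ≤ 1 / 4) (hC : 1 ≤ C)
    (hCr : C * r₀ ≤ 1 / 200) {R : ℂ → ℝ}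
    (hR : ∀ ξ : ℂ, ‖ξ‖ = 1 / 300 * r₀ → 0 < R ξ ∧ R ξ ≤ r₀ + (κ * ξ).re + C * ‖ξ‖ ^ 2)
    (hs : ∀ s : ℂ, ‖s‖ ≤ 1 → ζ₀ + -(((1 / 300 * r₀ : ℝ) : ℂ) * s) ∈ Complex.slitPlane) :
    ∃ h : ℂ → ℂ, DiffContOnCl ℂ h (ball 0 1) ∧
      (∀ s : ℂ, ‖s‖ = 1 → R (-(((1 / 300 * r₀ : ℝ) : ℂ) * s)) ^ (1 / 24 : ℝ) *
        ‖ζ₀ + -(((1 / 300 * r₀ : ℝ) : ℂ) * s)‖ ^ (3 / 2 : ℝ) *
        Real.exp (ε * ((ζ₀ + -(((1 / 300 * r₀ : ℝ) : ℂ) * s)) ^ (-1 / 2 : ℂ)).re) ≤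
          Real.exp (h s).re) ∧
      Real.exp (h 0).re ≤ r₀ ^ (1 / 24 : ℝ) * ‖ζ₀‖ ^ (3 / 2 : ℝ) *
        Real.exp (ε * (ζ₀ ^ (-1 / 2 : ℂ)).re) * Real.exp (-(1 / (240 * 90000))) := by
  set τ : ℝ := 1 / 300 with hτ
  clear_value τ
  have hτ0 : 0 < τ := by rw [hτ]; norm_num
  set ξ : ℂ → ℂ := fun s => -(((τ * r₀ : ℝ) : ℂ) * s) with hξ
  set w : ℂ → ℂ := fun s => -((τ : ℂ) * κ * s) with hw
  set cst : ℝ := -(τ ^ 2 * ‖κ‖ ^ 2 / 4) + 2 * τ ^ 3 * ‖κ‖ ^ 3 + 2 * C * τ ^ 2 * r₀ with hcst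
  have hκ1 : ‖κ‖ ≤ 5 / 4 := by
    have : ‖κ‖ ≤ ‖κ - 1‖ + ‖(1 : ℂ)‖ := by
      have := norm_add_le (κ - 1) 1
      simpa using this
    rw [norm_one] at this; linarith
  have hκ2 : 3 / 4 ≤ ‖κ‖ := by
    have : ‖(1 : ℂ)‖ ≤ ‖κ‖ + ‖κ - 1‖ := by
      have := norm_sub_le κ (κ - 1)
      simpa using this
    rw [norm_one] at this; linarith
  have hcst_le : cst ≤ -(τ ^ 2 / 10) := by
    have h1 : (3 / 4) ^ 2 ≤ ‖κ‖ ^ 2 := pow_le_pow_left₀ (by norm_num) hκ2 2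
    have h2 : ‖κ‖ ^ 3 ≤ (5 / 4) ^ 3 := pow_le_pow_left₀ (norm_nonneg _) hκ1 3
    have h3 : τ ^ 3 = τ ^ 2 * (1 / 300) := by rw [hτ]; ring
    have hτ2 : (0 : ℝ) < τ ^ 2 := by rw [hτ]; positivity
    have h4 : 2 * τ ^ 3 * ‖κ‖ ^ 3 ≤ τ ^ 2 * (2 * (1 / 300) * (5 / 4) ^ 3) := by
      rw [h3]
      have := mul_le_mul_of_nonneg_left h2 (mul_nonneg hτ2.le (by norm_num : (0:ℝ) ≤ 2 * (1 / 300)))
      nlinarith
    have h5 : 2 * C * τ ^ 2 * r₀ ≤ τ ^ 2 * (1 / 100) := by nlinarith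
    have h6 : τ ^ 2 * ((3 / 4) ^ 2 / 4) ≤ τ ^ 2 * ‖κ‖ ^ 2 / 4 := by nlinarith
    rw [hcst]
    nlinarith
  refine ⟨fun s => (1 / 24 : ℂ) * ((Real.log r₀ : ℂ) + w s - (w s) ^ 2 / 4 + (cst : ℂ)) +
    (3 / 2 : ℂ) * Complex.log (ζ₀ + ξ s) + (ε : ℂ) * (ζ₀ + ξ s) ^ (-1 / 2 : ℂ), ?_, ?_, ?_⟩
  · apply DifferentiableOn.diffContOnCl
    rw [closure_ball _ one_ne_zero]
    intro s hsmem
    have hs1 : ‖s‖ ≤ 1 := by simpa using hsmem
    have hsl := hs s hs1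
    have hw' : DifferentiableAt ℂ w s := by simp only [hw]; fun_prop
    have hξ' : DifferentiableAt ℂ (fun s => ζ₀ + ξ s) s := by simp only [hξ]; fun_prop
    have hlog : DifferentiableAt ℂ (fun s => Complex.log (ζ₀ + ξ s)) s := hξ'.clog hsl
    have hpow : DifferentiableAt ℂ (fun s => (ζ₀ + ξ s) ^ (-1 / 2 : ℂ)) s :=
      hξ'.cpow (differentiableAt_const _) hsl
    apply DifferentiableAt.differentiableWithinAt
    exact ((((((differentiableAt_const _).add hw').sub ((hw'.pow 2).div_const 4)).add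
      (differentiableAt_const _)).const_mul _).add (hlog.const_mul _)).add (hpow.const_mul _)
  · intro s hs1
    have hξn : ‖ξ s‖ = τ * r₀ := by
      simp only [hξ]
      rw [norm_neg, norm_mul, Complex.norm_real, Real.norm_eq_abs, hs1, mul_one,
        abs_of_pos (by rw [hτ]; positivity)]
    obtain ⟨hRpos, hRle⟩ := hR (ξ s) hξn
    have hzne : ζ₀ + ξ s ≠ 0 := Complex.slitPlane_ne_zero (hs s hs1.le)
    have hzpos : 0 < ‖ζ₀ + ξ s‖ := norm_pos_iff.mpr hzne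
    have hwn : ‖w s‖ = τ * ‖κ‖ := by
      simp only [hw]
      rw [norm_neg, norm_mul, norm_mul, Complex.norm_real, Real.norm_eq_abs, hs1, mul_one,
        abs_of_pos (by rw [hτ]; positivity)]
    have hκξ : (κ * ξ s).re = r₀ * (w s).re := by
      have : κ * ξ s = (r₀ : ℂ) * w s := by
        simp only [hξ, hw]; push_cast; ring
      rw [this, Complex.re_ofReal_mul]
    set x : ℝ := (w s).re with hx
    have hxabs : |x| ≤ τ * ‖κ‖ := by rw [← hwn]; exact Complex.abs_re_le_norm _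
    have hxsmall : |x| ≤ 1 / 240 := by
      refine hxabs.trans ?_
      rw [hτ]; linarith
    have hx2 : x ^ 2 = (τ ^ 2 * ‖κ‖ ^ 2 + ((w s) ^ 2).re) / 2 := by
      have h1 : ‖w s‖ ^ 2 = (w s).re ^ 2 + (w s).im ^ 2 := by
        rw [← Complex.normSq_eq_norm_sq, Complex.normSq_apply]; ring
      have h2 : ((w s) ^ 2).re = (w s).re ^ 2 - (w s).im ^ 2 := by
        rw [pow_two, Complex.mul_re]; ring
      rw [h2]
      have h3 : τ ^ 2 * ‖κ‖ ^ 2 = (w s).re ^ 2 + (w s).im ^ 2 := by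
        rw [← h1, hwn]; ring
      rw [h3, hx]; ring
    have hlogR : Real.log (R (ξ s)) ≤ Real.log r₀ + x - ((w s) ^ 2).re / 4 + cst := by
      have y0 : 0 ≤ C * τ ^ 2 * r₀ := by positivity
      have h1 : R (ξ s) ≤ r₀ * ((1 + x) * (1 + 2 * (C * τ ^ 2 * r₀))) := by
        rw [hκξ, hξn] at hRle
        have hx' : -(1 / 240) ≤ x := (abs_le.mp hxsmall).1
        have : 0 ≤ r₀ * (C * τ ^ 2 * r₀) * (1 + 2 * x) := by
          apply mul_nonneg (mul_nonneg hr₀.le y0); linarith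
        nlinarith
      have hx' : -(1 / 240) ≤ x := (abs_le.mp hxsmall).1
      have h2 := Real.log_le_log hRpos h1
      have p1 : 0 < 1 + x := by linarith
      have p2 : 0 < 1 + 2 * (C * τ ^ 2 * r₀) := by linarith
      rw [Real.log_mul hr₀.ne' (mul_pos p1 p2).ne', Real.log_mul p1.ne' p2.ne'] at h2
      have h3 : Real.log (1 + 2 * (C * τ ^ 2 * r₀)) ≤ 2 * (C * τ ^ 2 * r₀) := by
        have := Real.log_le_sub_one_of_pos (x := 1 + 2 * (C * τ ^ 2 * r₀)) (by positivity)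
        linarith
      have h4 := log_one_add_le (x := x) (by linarith)
      have h5 : |x| ^ 3 ≤ τ ^ 3 * ‖κ‖ ^ 3 := by
        have := pow_le_pow_left₀ (abs_nonneg x) hxabs 3
        calc |x| ^ 3 ≤ (τ * ‖κ‖) ^ 3 := this
          _ = _ := by ring
      rw [hx2] at h4
      rw [hcst]
      linarith
    have hre : ((1 / 24 : ℂ) * ((Real.log r₀ : ℂ) + w s - (w s) ^ 2 / 4 + (cst : ℂ)) +
        (3 / 2 : ℂ) * Complex.log (ζ₀ + ξ s) + (ε : ℂ) * (ζ₀ + ξ s) ^ (-1 / 2 : ℂ)).re =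
        1 / 24 * (Real.log r₀ + x - ((w s) ^ 2).re / 4 + cst) +
        3 / 2 * Real.log ‖ζ₀ + ξ s‖ + ε * ((ζ₀ + ξ s) ^ (-1 / 2 : ℂ)).re := by
      have e1 : (1 / 24 : ℂ) = ((1 / 24 : ℝ) : ℂ) := by push_cast; ring
      have e2 : (3 / 2 : ℂ) = ((3 / 2 : ℝ) : ℂ) := by push_cast; ring
      have e3 : (w s) ^ 2 / 4 = (w s) ^ 2 / ((4 : ℝ) : ℂ) := by norm_num
      rw [Complex.add_re, Complex.add_re, e1, e2, Complex.re_ofReal_mul, Complex.re_ofReal_mul,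
        Complex.re_ofReal_mul, Complex.log_re, Complex.add_re, Complex.sub_re, Complex.add_re,
        Complex.ofReal_re, Complex.ofReal_re, e3, Complex.div_ofReal_re]
    rw [hre, Real.exp_add, Real.exp_add, Real.rpow_def_of_pos hRpos, Real.rpow_def_of_pos hzpos]
    apply mul_le_mul_of_nonneg_right _ (Real.exp_pos _).le
    apply mul_le_mul _ _ (Real.exp_pos _).le (Real.exp_pos _).le
    · apply Real.exp_le_exp.mpr; linarith
    · apply Real.exp_le_exp.mpr; linarith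
  · have hz0 : ζ₀ ≠ 0 := by
      have := Complex.slitPlane_ne_zero (hs 0 (by simp))
      simpa using this
    have hzpos : 0 < ‖ζ₀‖ := norm_pos_iff.mpr hz0
    have hξ0 : ξ 0 = 0 := by simp [hξ]
    have hw0 : w 0 = 0 := by simp [hw]
    have hre : ((1 / 24 : ℂ) * ((Real.log r₀ : ℂ) + w 0 - (w 0) ^ 2 / 4 + (cst : ℂ)) +
        (3 / 2 : ℂ) * Complex.log (ζ₀ + ξ 0) + (ε : ℂ) * (ζ₀ + ξ 0) ^ (-1 / 2 : ℂ)).re =
        1 / 24 * (Real.log r₀ + cst) +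
        3 / 2 * Real.log ‖ζ₀‖ + ε * (ζ₀ ^ (-1 / 2 : ℂ)).re := by
      have e1 : (1 / 24 : ℂ) = ((1 / 24 : ℝ) : ℂ) := by push_cast; ring
      have e2 : (3 / 2 : ℂ) = ((3 / 2 : ℝ) : ℂ) := by push_cast; ring
      rw [hξ0, hw0, add_zero]
      rw [Complex.add_re, Complex.add_re, e1, e2, Complex.re_ofReal_mul, Complex.re_ofReal_mul,
        Complex.re_ofReal_mul, Complex.log_re, Complex.add_re]
      simp
    rw [hre, Real.exp_add, Real.exp_add, Real.rpow_def_of_pos hr₀, Real.rpow_def_of_pos hzpos]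
    have e3 : Real.exp (1 / 24 * (Real.log r₀ + cst)) ≤
        Real.exp (Real.log r₀ * (1 / 24)) * Real.exp (-(1 / (240 * 90000))) := by
      rw [← Real.exp_add]
      apply Real.exp_le_exp.mpr
      have : τ ^ 2 = 1 / 90000 := by rw [hτ]; norm_num
      rw [this] at hcst_le
      linarith
    have e4 : Real.exp (3 / 2 * Real.log ‖ζ₀‖) = Real.exp (Real.log ‖ζ₀‖ * (3 / 2)) := by
      rw [mul_comm]
    rw [e4]
    calc Real.exp (1 / 24 * (Real.log r₀ + cst)) * Real.exp (Real.log ‖ζ₀‖ * (3 / 2)) *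
          Real.exp (ε * (ζ₀ ^ (-1 / 2 : ℂ)).re) ≤
          (Real.exp (Real.log r₀ * (1 / 24)) * Real.exp (-(1 / (240 * 90000)))) *
          Real.exp (Real.log ‖ζ₀‖ * (3 / 2)) * Real.exp (ε * (ζ₀ ^ (-1 / 2 : ℂ)).re) := by
            apply mul_le_mul_of_nonneg_right _ (Real.exp_pos _).le
            apply mul_le_mul_of_nonneg_right e3 (Real.exp_pos _).le
      _ = _ := by ring

end Sqz
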