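import Mathlib

/-!
# Squeezing function tending to one (MP_ab90d5_an, S05773): definitions

All statements to be proved by the separate jobs are in `Pool/Agent/Sqz/Spec.lean`
(as `def ... : Prop`), the complete paper proof is in `Pool/Agent/Sqz/Blueprint.lean.txt`.
-/

set_option autoImplicit false

open Metric Set

namespace Sqz

/-- `ℂⁿ` with its Hermitian norm. -/
abbrev E (n : ℕ) := EuclideanSpace ℂ (Fin n)

/-- The (real) Levi form `D²ρ(w,w) + D²ρ(iw,iw)` exactly as in the frozen statement. -/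
noncomputable def Lev {n : ℕ} (ρ : E n → ℝ) (z w : E n) : ℝ :=
  fderiv ℝ (fderiv ℝ ρ) z w w + fderiv ℝ (fderiv ℝ ρ) z (Complex.I • w) (Complex.I • w)

/-- Standing hypotheses on the domain (without the squeezing hypothesis). -/
structure Dom (n : ℕ) (Ω : Set (E n)) (ρ : E n → ℝ) : Prop where
  isOpen : IsOpen Ω
  conn : IsConnected Ω
  bdd : Bornology.IsBounded Ω
  smooth : ContDiff ℝ ((⊤ : ℕ∞) : WithTop ℕ∞) ρ
  eq : Ω = {x | ρ x < 0}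
  grad : ∀ p ∈ frontier Ω, fderiv ℝ ρ p ≠ 0
  levi : ∀ p ∈ frontier Ω, ∀ w : E n, fderiv ℝ ρ p w = 0 →
    fderiv ℝ ρ p (Complex.I • w) = 0 → 0 ≤ Lev ρ p w

/-- `u(z) = (-ρ(z) exp(-L |z-q|²))^η`, the local Diederich-Fornaess function. -/
noncomputable def uDF {n : ℕ} (ρ : E n → ℝ) (q : E n) (L η : ℝ) (z : E n) : ℝ :=
  (-ρ z * Real.exp (-L * ‖z - q‖ ^ 2)) ^ η

/-- Hopf lemma for `uDF` along holomorphic discs in `Ω ∩ B(q,σ)`. -/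
def HopfAt {n : ℕ} (Ω : Set (E n)) (ρ : E n → ℝ) (q : E n) (L η σ : ℝ) : Prop :=
  ∀ (c : ℂ) (s₀ s₁ m : ℝ) (φ : ℂ → E n), 0 < s₀ → s₀ < s₁ → 0 ≤ m →
    DifferentiableOn ℂ φ (ball c s₁) → MapsTo φ (ball c s₁) (Ω ∩ ball q σ) →
    (∀ s : ℂ, ‖s - c‖ = s₀ → m ≤ uDF ρ q L η (φ s)) →
    ∀ s : ℂ, s₀ ≤ ‖s - c‖ → ‖s - c‖ < s₁ →
      m * (Real.log (s₁ / ‖s - c‖) / Real.log (s₁ / s₀)) ≤ uDF ρ q L η (φ s)

/-- `f : Ω → B`, `f z = 0`, with holomorphic inverse `g : B(0,ρ₀) → U ⊆ Ω`. -/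
structure IsChart {n : ℕ} (Ω U : Set (E n)) (ρ₀ : ℝ) (z : E n) (f g : E n → E n) : Prop where
  df : DifferentiableOn ℂ f Ω
  mf : MapsTo f Ω (ball 0 1)
  fz : f z = 0
  dg : DifferentiableOn ℂ g (ball 0 ρ₀)
  mg : MapsTo g (ball 0 ρ₀) U
  fg : ∀ b ∈ ball (0 : E n) ρ₀, f (g b) = b
  gf : ∀ x ∈ Ω, f x ∈ ball (0 : E n) ρ₀ → g (f x) = x

/-- One step: a holomorphic disc in `U` through `x` (at `0`) and `y` (at `t = (lam-1)/(lam+1)`).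
The size of a step is `lam > 1` (multiplicative: `lam = exp (2 κ₀)`, `t = tanh κ₀`). -/
def Step {n : ℕ} (U : Set (E n)) (lam : ℝ) (x y : E n) : Prop :=
  ∃ φ : ℂ → E n, DifferentiableOn ℂ φ (ball 0 1) ∧ MapsTo φ (ball 0 1) U ∧
    φ 0 = x ∧ φ (((lam - 1) / (lam + 1) : ℝ) : ℂ) = y

/-- Chains of `m` steps. -/
def Chain {n : ℕ} (U : Set (E n)) (lam : ℝ) : ℕ → E n → E n → Prop
  | 0, x, y => x = y
  | (m + 1), x, y => ∃ z, Chain U lam m x z ∧ Step U lam z y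

/-- Least number of steps from `x` to the set `A` (`0` if there is no chain). -/
noncomputable def hops {n : ℕ} (U A : Set (E n)) (lam : ℝ) (x : E n) : ℕ :=
  sInf {m | ∃ y ∈ A, Chain U lam m x y}

/-- Jacobian of the pair `(h₁,h₂)` in the directions `N, v` at `z`. -/
noncomputable def Jac {n : ℕ} (h₁ h₂ : E n → ℂ) (N v z : E n) : ℂ :=
  fderiv ℂ h₁ z N * fderiv ℂ h₂ z v - fderiv ℂ h₁ z v * fderiv ℂ h₂ z N

/-- holomorphic maps `Ω → B²`. -/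
structure IsMap2 {n : ℕ} (Ω : Set (E n)) (h₁ h₂ : E n → ℂ) : Prop where
  d1 : DifferentiableOn ℂ h₁ Ω
  d2 : DifferentiableOn ℂ h₂ Ω
  lt : ∀ x ∈ Ω, ‖h₁ x‖ ^ 2 + ‖h₂ x‖ ^ 2 < 1

/-- Extremal quantity: sup of `|Jac|²` over holomorphic `h : Ω → B²` with `h z = 0`. -/
noncomputable def VV {n : ℕ} (Ω : Set (E n)) (N v z : E n) : ℝ :=
  sSup {t | ∃ h₁ h₂ : E n → ℂ, IsMap2 Ω h₁ h₂ ∧ h₁ z = 0 ∧ h₂ z = 0 ∧
    t = ‖Jac h₁ h₂ N v z‖ ^ 2}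

end Sqz
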