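import Pool.Agent.Sqz.Spec

/-!
# J2: the Hopf lemma for the local Diederich-Fornaess function
-/

set_option autoImplicit false

open Metric Set Filter Topology

namespace Sqz

/-! ### Second derivative test -/

theorem secondDeriv_nonneg {g g' : ℝ → ℝ} {a : ℝ} (h1 : ∀ᶠ t in 𝓝 (0 : ℝ), HasDerivAt g (g' t) t)
    (h2 : HasDerivAt g' a 0) (h3 : IsLocalMin g 0) : 0 ≤ a := by
  by_contra hneg
  push Not at hneg
  have h0 : g' 0 = 0 := h3.hasDerivAt_eq_zero h1.self_of_nhds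
  -- `g' t < 0` for small positive `t`
  have h4 : ∀ᶠ t in 𝓝[>] (0 : ℝ), g' t < 0 := by
    have h5 := h2.tendsto_slope_zero_right
    simp only [zero_add, h0, sub_zero] at h5
    have h6 : ∀ᶠ t in 𝓝[>] (0 : ℝ), t⁻¹ • g' t < 0 := h5 (Iio_mem_nhds hneg)
    filter_upwards [h6, self_mem_nhdsWithin] with t ht ht0
    have ht0' : (0 : ℝ) < t := ht0
    rw [smul_eq_mul] at ht
    by_contra h7
    push Not at h7
    have : 0 ≤ t⁻¹ * g' t := by positivity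
    linarith
  obtain ⟨ε₁, hε₁, h6⟩ := Metric.eventually_nhds_iff.1 (h1.and h3)
  obtain ⟨ε₂, hε₂, h7⟩ := (eventually_nhdsWithin_iff.1 h4) |> Metric.eventually_nhds_iff.1
  set ε := min ε₁ ε₂ / 2 with hε
  have hε0 : 0 < ε := by positivity
  have hε3 : ε < ε₁ := by
    have := min_le_left ε₁ ε₂
    have := lt_min hε₁ hε₂
    linarith
  have hε4 : ε < ε₂ := by
    have := min_le_right ε₁ ε₂
    have := lt_min hε₁ hε₂
    linarith
  have hd : ∀ t ∈ Icc 0 ε, HasDerivAt g (g' t) t := fun t ht => by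
    refine (h6 ?_).1
    rw [Real.dist_eq, sub_zero, abs_of_nonneg ht.1]
    exact lt_of_le_of_lt ht.2 hε3
  obtain ⟨t, ht, ht2⟩ := exists_hasDerivAt_eq_slope g g' hε0
    (fun t ht => (hd t ht).continuousAt.continuousWithinAt)
    (fun t ht => hd t ⟨ht.1.le, ht.2.le⟩)
  have h8 : g' t < 0 := by
    refine h7 ?_ ht.1
    rw [Real.dist_eq, sub_zero, abs_of_nonneg ht.1.le]
    exact lt_trans ht.2 hε4
  have h9 : g 0 ≤ g ε := by
    refine (h6 ?_).2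
    rw [Real.dist_eq, sub_zero, abs_of_nonneg hε0.le]
    exact hε3
  rw [ht2, sub_zero] at h8
  have : 0 ≤ (g ε - g 0) / ε := div_nonneg (by linarith) hε0.le
  linarith

/-! ### Derivatives along lines -/

section lines

variable {n : ℕ} {φ : ℂ → E n} {U : Set ℂ}

theorem hasDerivAt_line (s e : ℂ) (t : ℝ) : HasDerivAt (fun t : ℝ => s + t * e) e t := by
  have h := (Complex.ofRealCLM.hasDerivAt (x := t)).mul_const e
  simpa using h.const_add s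

theorem line_mem {s e : ℂ} (hU : IsOpen U) (hs : s ∈ U) :
    ∀ᶠ t : ℝ in 𝓝 0, s + t * e ∈ U := by
  have h : ContinuousAt (fun t : ℝ => s + t * e) 0 := (hasDerivAt_line s e 0).continuousAt
  refine h.eventually_mem ?_
  simpa using hU.mem_nhds hs

theorem hasDerivAt_comp_line {F : Type*} [NormedAddCommGroup F] [NormedSpace ℂ F]
    [NormedSpace ℝ F] [IsScalarTower ℝ ℂ F] {ψ : ℂ → F} (hU : IsOpen U)
    (hφ : DifferentiableOn ℂ ψ U) (s e : ℂ) (t : ℝ) (ht : s + t * e ∈ U) :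
    HasDerivAt (fun t : ℝ => ψ (s + t * e)) (e • deriv ψ (s + t * e)) t := by
  have h1 : HasDerivAt ψ (deriv ψ (s + t * e)) (s + t * e) :=
    (hφ.differentiableAt (hU.mem_nhds ht)).hasDerivAt
  exact h1.scomp t (hasDerivAt_line s e t)

end lines

/-! ### The minimum principle on an annulus -/

/-- Second order superharmonicity at a point along the two coordinate directions. -/
def SH (V : ℂ → ℝ) (s : ℂ) : Prop :=
  ∃ (f g : ℝ → ℝ) (a b : ℝ),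
    (∀ᶠ t : ℝ in 𝓝 0, HasDerivAt (fun t : ℝ => V (s + t * 1)) (f t) t) ∧ HasDerivAt f a 0 ∧
    (∀ᶠ t : ℝ in 𝓝 0, HasDerivAt (fun t : ℝ => V (s + t * Complex.I)) (g t) t) ∧
    HasDerivAt g b 0 ∧ a + b ≤ 0

theorem logN_deriv (a b B κ t : ℝ) (h : 0 < (a + t) ^ 2 + b ^ 2) :
    HasDerivAt (fun t : ℝ => B * Real.log ((a + t) ^ 2 + b ^ 2) - κ * ((a + t) ^ 2 + b ^ 2))
      (B * (2 * (a + t) / ((a + t) ^ 2 + b ^ 2)) - κ * (2 * (a + t))) t := by
  have h1 : HasDerivAt (fun t : ℝ => (a + t) ^ 2 + b ^ 2) (2 * (a + t)) t := by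
    have := (((hasDerivAt_id t).const_add a).pow 2).add_const (b ^ 2)
    simpa using this
  exact ((h1.log h.ne').const_mul B).sub (h1.const_mul κ)

theorem logN_deriv2 (a b B κ : ℝ) (h : 0 < a ^ 2 + b ^ 2) :
    HasDerivAt (fun t : ℝ => B * (2 * (a + t) / ((a + t) ^ 2 + b ^ 2)) - κ * (2 * (a + t)))
      (B * ((2 * (a ^ 2 + b ^ 2) - 2 * a * (2 * a)) / (a ^ 2 + b ^ 2) ^ 2) - κ * 2) 0 := by
  have h1 : HasDerivAt (fun t : ℝ => (a + t) ^ 2 + b ^ 2) (2 * (a + 0)) 0 := by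
    have := (((hasDerivAt_id (0 : ℝ)).const_add a).pow 2).add_const (b ^ 2)
    simpa using this
  have h2 : HasDerivAt (fun t : ℝ => 2 * (a + t)) 2 0 := by
    have := ((hasDerivAt_id (0 : ℝ)).const_add a).const_mul 2
    simpa using this
  have h3 : (a + 0) ^ 2 + b ^ 2 ≠ 0 := by
    rw [add_zero]
    exact h.ne'
  have h4 : HasDerivAt (fun t : ℝ => B * (2 * (a + t) / ((a + t) ^ 2 + b ^ 2)) -
      κ * (2 * (a + t))) _ 0 := ((h2.div h1 h3).const_mul B).sub (h2.const_mul κ)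
  exact h4.congr_deriv (by simp)

theorem normSq_line_one (s c : ℂ) (t : ℝ) :
    ‖s + t * 1 - c‖ ^ 2 = ((s - c).re + t) ^ 2 + (s - c).im ^ 2 := by
  rw [← Complex.normSq_eq_norm_sq, Complex.normSq_apply]
  simp
  ring

theorem normSq_line_I (s c : ℂ) (t : ℝ) :
    ‖s + t * Complex.I - c‖ ^ 2 = ((s - c).im + t) ^ 2 + (s - c).re ^ 2 := by
  rw [← Complex.normSq_eq_norm_sq, Complex.normSq_apply]
  simp
  ring

/-- The comparison function has no negative minimum in the open annulus. -/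
theorem no_local_min (V : ℂ → ℝ) (c s : ℂ) (hs : s ≠ c) (A B κ : ℝ) (hκ : 0 < κ) (hV : SH V s)
    (hmin : IsLocalMin (fun s => V s + (B * Real.log (‖s - c‖ ^ 2) - κ * ‖s - c‖ ^ 2) + A) s) :
    False := by
  obtain ⟨f, g, a, b, hf, ha, hg, hb, hab⟩ := hV
  have hpos : 0 < (s - c).re ^ 2 + (s - c).im ^ 2 := by
    have h1 : 0 < ‖s - c‖ ^ 2 := by
      have := norm_pos_iff.2 (sub_ne_zero.2 hs)
      positivity
    rw [← Complex.normSq_eq_norm_sq, Complex.normSq_apply] at h1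
    nlinarith [h1]
  set F : ℂ → ℝ := fun s => V s + (B * Real.log (‖s - c‖ ^ 2) - κ * ‖s - c‖ ^ 2) + A with hF
  have hline : ∀ e : ℂ, IsLocalMin (fun t : ℝ => F (s + t * e)) 0 := by
    intro e
    have h1 : ContinuousAt (fun t : ℝ => s + t * e) 0 := (hasDerivAt_line s e 0).continuousAt
    have h2 : IsLocalMin F ((fun t : ℝ => s + t * e) 0) := by simpa using hmin
    exact IsLocalMin.comp_continuous (g := fun t : ℝ => s + t * e) (b := (0 : ℝ)) h2 h1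
  have hev : ∀ x y : ℝ, 0 < x ^ 2 + y ^ 2 → ∀ᶠ t : ℝ in 𝓝 0, 0 < (x + t) ^ 2 + y ^ 2 := by
    intro x y hxy
    have h1 : ContinuousAt (fun t : ℝ => (x + t) ^ 2 + y ^ 2) 0 := by fun_prop
    have h2 : Tendsto (fun t : ℝ => (x + t) ^ 2 + y ^ 2) (𝓝 0) (𝓝 (x ^ 2 + y ^ 2)) := by
      have := h1.tendsto
      simpa using this
    exact h2.eventually_const_lt hxy
  have h1 := hev _ _ hpos
  have h2 := hev (s - c).im (s - c).re (by linarith)
  have hpos' : 0 < (s - c).im ^ 2 + (s - c).re ^ 2 := by linarith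
  have hA : 0 ≤ a + (B * ((2 * ((s - c).re ^ 2 + (s - c).im ^ 2) - 2 * (s - c).re *
      (2 * (s - c).re)) / ((s - c).re ^ 2 + (s - c).im ^ 2) ^ 2) - κ * 2) := by
    refine secondDeriv_nonneg (g := fun t : ℝ => F (s + t * 1))
      (g' := fun t => f t + (B * (2 * ((s - c).re + t) / (((s - c).re + t) ^ 2 +
        (s - c).im ^ 2)) - κ * (2 * ((s - c).re + t)))) ?_ ?_ (hline 1)
    · filter_upwards [hf, h1] with t ht1 ht2
      have h3 := (ht1.add (logN_deriv _ _ B κ t ht2)).add_const A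
      refine h3.congr_of_eventuallyEq (Eventually.of_forall fun u => ?_)
      simp only [hF, normSq_line_one, Pi.add_apply]
    · exact ha.add (logN_deriv2 _ _ B κ hpos)
  have hB : 0 ≤ b + (B * ((2 * ((s - c).im ^ 2 + (s - c).re ^ 2) - 2 * (s - c).im *
      (2 * (s - c).im)) / ((s - c).im ^ 2 + (s - c).re ^ 2) ^ 2) - κ * 2) := by
    refine secondDeriv_nonneg (g := fun t : ℝ => F (s + t * Complex.I))
      (g' := fun t => g t + (B * (2 * ((s - c).im + t) / (((s - c).im + t) ^ 2 +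
        (s - c).re ^ 2)) - κ * (2 * ((s - c).im + t)))) ?_ ?_ (hline Complex.I)
    · filter_upwards [hg, h2] with t ht1 ht2
      have h3 := (ht1.add (logN_deriv _ _ B κ t ht2)).add_const A
      refine h3.congr_of_eventuallyEq (Eventually.of_forall fun u => ?_)
      simp only [hF, normSq_line_I, Pi.add_apply]
    · exact hb.add (logN_deriv2 _ _ B κ hpos')
  have hC : (2 * ((s - c).re ^ 2 + (s - c).im ^ 2) - 2 * (s - c).re *
      (2 * (s - c).re)) / ((s - c).re ^ 2 + (s - c).im ^ 2) ^ 2 +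
      (2 * ((s - c).im ^ 2 + (s - c).re ^ 2) - 2 * (s - c).im *
      (2 * (s - c).im)) / ((s - c).im ^ 2 + (s - c).re ^ 2) ^ 2 = 0 := by
    rw [add_comm ((s - c).im ^ 2) ((s - c).re ^ 2), ← add_div, div_eq_zero_iff]
    left
    ring
  set X := (2 * ((s - c).re ^ 2 + (s - c).im ^ 2) - 2 * (s - c).re *
      (2 * (s - c).re)) / ((s - c).re ^ 2 + (s - c).im ^ 2) ^ 2
  set Y := (2 * ((s - c).im ^ 2 + (s - c).re ^ 2) - 2 * (s - c).im *
      (2 * (s - c).im)) / ((s - c).im ^ 2 + (s - c).re ^ 2) ^ 2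
  have hY : Y = -X := by linarith
  rw [hY] at hB
  linarith

/-- Comparison on a closed annulus. -/
theorem annulus_closed (V : ℂ → ℝ) (c : ℂ) (s₀ s₂ m : ℝ) (h0 : 0 < s₀) (h02 : s₀ < s₂)
    (hcont : ContinuousOn V (closedBall c s₂))
    (hnn : ∀ s, ‖s - c‖ = s₂ → 0 ≤ V s) (hm : ∀ s, ‖s - c‖ = s₀ → m ≤ V s)
    (hSH : ∀ s, s₀ < ‖s - c‖ → ‖s - c‖ < s₂ → SH V s) (s : ℂ) (hs0 : s₀ ≤ ‖s - c‖)
    (hs2 : ‖s - c‖ ≤ s₂) :
    m * (Real.log (s₂ / ‖s - c‖) / Real.log (s₂ / s₀)) ≤ V s := by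
  have hlog : 0 < Real.log (s₂ / s₀) := Real.log_pos (by rw [one_lt_div h0]; exact h02)
  have h2 : 0 < s₂ := h0.trans h02
  set B := m / (2 * Real.log (s₂ / s₀)) with hB
  set A := -(m * (Real.log s₂ / Real.log (s₂ / s₀))) with hA
  -- the function without the perturbation
  have hid : ∀ s, s₀ ≤ ‖s - c‖ → -(m * (Real.log (s₂ / ‖s - c‖) / Real.log (s₂ / s₀))) =
      B * Real.log (‖s - c‖ ^ 2) + A := by
    intro s hs
    have h3 : 0 < ‖s - c‖ := lt_of_lt_of_le h0 hs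
    rw [Real.log_div h2.ne' h3.ne', Real.log_pow, hB, hA]
    field_simp
    push_cast
    ring
  by_contra hcon
  push Not at hcon
  set δ := m * (Real.log (s₂ / ‖s - c‖) / Real.log (s₂ / s₀)) - V s with hδ
  have hδ0 : 0 < δ := by linarith
  set κ := δ / (2 * s₂ ^ 2) with hκ
  have hκ0 : 0 < κ := by positivity
  set F : ℂ → ℝ := fun s => V s + (B * Real.log (‖s - c‖ ^ 2) - κ * ‖s - c‖ ^ 2) + (A + κ * s₂ ^ 2)
    with hF
  have hFeq : ∀ s, s₀ ≤ ‖s - c‖ → F s = V s - m * (Real.log (s₂ / ‖s - c‖) / Real.log (s₂ / s₀)) +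
      κ * (s₂ ^ 2 - ‖s - c‖ ^ 2) := by
    intro s hs
    have := hid s hs
    simp only [hF]
    linarith
  set K : Set ℂ := {s | s₀ ≤ ‖s - c‖ ∧ ‖s - c‖ ≤ s₂} with hK
  have hKc : IsCompact K := by
    refine (isCompact_closedBall c s₂).of_isClosed_subset ?_ ?_
    · have hc1 : IsClosed {s : ℂ | s₀ ≤ ‖s - c‖} := isClosed_le continuous_const (by fun_prop)
      have hc2 : IsClosed {s : ℂ | ‖s - c‖ ≤ s₂} := isClosed_le (by fun_prop) continuous_const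
      exact hc1.inter hc2
    · rintro s ⟨-, hs⟩
      rwa [mem_closedBall, dist_eq_norm]
  have hFc : ContinuousOn F K := by
    have h3 : ContinuousOn V K := hcont.mono (by
      rintro s ⟨-, hs⟩
      rwa [mem_closedBall, dist_eq_norm])
    have h4 : ContinuousOn (fun s : ℂ => Real.log (‖s - c‖ ^ 2)) K := by
      refine ContinuousOn.log (by fun_prop) fun s hs => ?_
      have : 0 < ‖s - c‖ := lt_of_lt_of_le h0 hs.1
      positivity
    exact (h3.add ((h4.const_smul B).sub (by fun_prop))).add continuousOn_const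
  obtain ⟨x, hxK, hx⟩ := hKc.exists_isMinOn ⟨s, hs0, hs2⟩ hFc
  have hFs : F s < 0 := by
    rw [hFeq s hs0]
    have h3 : κ * (s₂ ^ 2 - ‖s - c‖ ^ 2) ≤ κ * s₂ ^ 2 := by
      have : 0 ≤ κ * ‖s - c‖ ^ 2 := by positivity
      linarith
    have h4 : κ * s₂ ^ 2 = δ / 2 := by
      rw [hκ]
      field_simp
    linarith
  have hFx : F x < 0 := lt_of_le_of_lt (hx ⟨hs0, hs2⟩) hFs
  have hx0 : s₀ < ‖x - c‖ := by
    refine lt_of_le_of_ne hxK.1 fun h3 => ?_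
    rw [hFeq x hxK.1, ← h3, div_self hlog.ne', mul_one] at hFx
    have h4 := hm x h3.symm
    have h5 : 0 ≤ κ * (s₂ ^ 2 - s₀ ^ 2) := by
      refine mul_nonneg hκ0.le ?_
      nlinarith
    linarith
  have hx2 : ‖x - c‖ < s₂ := by
    refine lt_of_le_of_ne hxK.2 fun h3 => ?_
    rw [hFeq x hxK.1, h3, div_self h2.ne', Real.log_one, zero_div, mul_zero, sub_self,
      mul_zero] at hFx
    have h4 := hnn x h3
    linarith
  have hloc : IsLocalMin F x := by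
    have h3 : K ∈ 𝓝 x := by
      have hc1 : IsOpen {s : ℂ | s₀ < ‖s - c‖} := isOpen_lt continuous_const (by fun_prop)
      have hc2 : IsOpen {s : ℂ | ‖s - c‖ < s₂} := isOpen_lt (by fun_prop) continuous_const
      have h4 : IsOpen {s : ℂ | s₀ < ‖s - c‖ ∧ ‖s - c‖ < s₂} := hc1.inter hc2
      exact mem_of_superset (h4.mem_nhds ⟨hx0, hx2⟩) fun s hs => ⟨hs.1.le, hs.2.le⟩
    exact hx.isLocalMin h3
  refine no_local_min V c x ?_ (A + κ * s₂ ^ 2) B κ hκ0 (hSH x hx0 hx2) hloc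
  rintro rfl
  simp at hx0
  linarith

/-- Comparison on a half open annulus. -/
theorem annulus_open (V : ℂ → ℝ) (c : ℂ) (s₀ s₁ m : ℝ) (h0 : 0 < s₀) (h01 : s₀ < s₁)
    (hcont : ContinuousOn V (ball c s₁))
    (hnn : ∀ s, ‖s - c‖ < s₁ → 0 ≤ V s) (hm : ∀ s, ‖s - c‖ = s₀ → m ≤ V s)
    (hSH : ∀ s, ‖s - c‖ < s₁ → SH V s) (s : ℂ) (hs0 : s₀ ≤ ‖s - c‖)
    (hs1 : ‖s - c‖ < s₁) :
    m * (Real.log (s₁ / ‖s - c‖) / Real.log (s₁ / s₀)) ≤ V s := by
  have hs : 0 < ‖s - c‖ := lt_of_lt_of_le h0 hs0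
  have h1 : 0 < s₁ := h0.trans h01
  have key : ∀ᶠ s₂ in 𝓝[<] s₁, m * (Real.log (s₂ / ‖s - c‖) / Real.log (s₂ / s₀)) ≤ V s := by
    have h2 : Ioo ‖s - c‖ s₁ ∈ 𝓝[<] s₁ := Ioo_mem_nhdsLT hs1
    filter_upwards [h2] with s₂ hs₂
    refine annulus_closed V c s₀ s₂ m h0 (lt_of_le_of_lt hs0 hs₂.1) ?_ ?_ hm ?_ s hs0 hs₂.1.le
    · exact hcont.mono (closedBall_subset_ball hs₂.2)
    · intro x hx
      exact hnn x (hx ▸ hs₂.2)
    · intro x _ hx
      exact hSH x (hx.trans hs₂.2)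
  have hlog : 0 < Real.log (s₁ / s₀) := Real.log_pos (by rw [one_lt_div h0]; exact h01)
  have hc : ContinuousAt (fun s₂ : ℝ => m * (Real.log (s₂ / ‖s - c‖) / Real.log (s₂ / s₀))) s₁ := by
    refine continuousAt_const.mul (ContinuousAt.div ?_ ?_ hlog.ne')
    · exact ContinuousAt.log (by fun_prop) (by positivity)
    · exact ContinuousAt.log (by fun_prop) (by positivity)
  exact le_of_tendsto (hc.tendsto.mono_left nhdsWithin_le_nhds) key

/-! ### The algebraic inequality -/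

theorem alg_ineq (C η L σ R W p₁ p₂ m₁ m₂ Lv : ℝ) (hC : 1 ≤ C) (hη : 0 < η) (hη1 : η < 1)
    (hL : L = (8 + C) ^ 2 / (1 - η) + 8 + C) (hσ1 : σ ≤ 1 / L) (hR : 0 < R)
    (hW : 0 ≤ W) (hm₁ : |m₁| ≤ 2 * σ * W) (hm₂ : |m₂| ≤ 2 * σ * W)
    (hLv : -C * R * W ^ 2 - C * W * Real.sqrt (p₁ ^ 2 + p₂ ^ 2) ≤ Lv) :
    η * ((p₁ / R - L * m₁) ^ 2 + (p₂ / R - L * m₂) ^ 2) + (-Lv) / R - (p₁ ^ 2 + p₂ ^ 2) / R ^ 2 -
      L * (4 * W ^ 2) ≤ 0 := by
  have h1η : 0 < 1 - η := by linarith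
  have hLpos : 0 < L := by
    rw [hL]
    positivity
  have hLσ : L * σ ≤ 1 := by
    rwa [le_div_iff₀ hLpos, mul_comm] at hσ1
  set P := Real.sqrt (p₁ ^ 2 + p₂ ^ 2) with hP
  have hP0 : 0 ≤ P := Real.sqrt_nonneg _
  have hP2 : P ^ 2 = p₁ ^ 2 + p₂ ^ 2 := Real.sq_sqrt (by positivity)
  set x := P / R with hx
  have hx0 : 0 ≤ x := by positivity
  have hx1 : |p₁ / R| ≤ x := by
    rw [abs_div, abs_of_pos hR, hx]
    refine div_le_div_of_nonneg_right ?_ hR.le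
    exact abs_le_of_sq_le_sq (by nlinarith [sq_nonneg p₂]) hP0
  have hx2 : |p₂ / R| ≤ x := by
    rw [abs_div, abs_of_pos hR, hx]
    refine div_le_div_of_nonneg_right ?_ hR.le
    exact abs_le_of_sq_le_sq (by nlinarith [sq_nonneg p₁]) hP0
  have hxx : (p₁ / R) ^ 2 + (p₂ / R) ^ 2 = x ^ 2 := by
    rw [hx, div_pow, div_pow, div_pow, hP2]
    ring
  have hlv : (-Lv) / R ≤ C * W ^ 2 + C * W * x := by
    rw [div_le_iff₀ hR]
    have : (C * W ^ 2 + C * W * x) * R = C * R * W ^ 2 + C * W * P := by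
      rw [hx]
      field_simp
    rw [this]
    linarith
  have hy1 : L * |m₁| ≤ 2 * W := by
    calc L * |m₁| ≤ L * (2 * σ * W) := by gcongr
      _ = (L * σ) * (2 * W) := by ring
      _ ≤ 1 * (2 * W) := by gcongr
      _ = 2 * W := one_mul _
  have hy2 : L * |m₂| ≤ 2 * W := by
    calc L * |m₂| ≤ L * (2 * σ * W) := by gcongr
      _ = (L * σ) * (2 * W) := by ring
      _ ≤ 1 * (2 * W) := by gcongr
      _ = 2 * W := one_mul _
  have hz1 : (p₁ / R - L * m₁) ^ 2 ≤ (p₁ / R) ^ 2 + 4 * W * x + 4 * W ^ 2 := by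
    have h1 : |L * m₁| ≤ 2 * W := by rwa [abs_mul, abs_of_pos hLpos]
    have h2 : |p₁ / R * (L * m₁)| ≤ x * (2 * W) := by
      rw [abs_mul]
      gcongr
    have h3 : (L * m₁) ^ 2 ≤ (2 * W) ^ 2 := sq_le_sq.2 (by
      rwa [abs_of_nonneg (by positivity : (0 : ℝ) ≤ 2 * W)])
    have h4 := (abs_le.1 h2).1
    nlinarith
  have hz2 : (p₂ / R - L * m₂) ^ 2 ≤ (p₂ / R) ^ 2 + 4 * W * x + 4 * W ^ 2 := by
    have h1 : |L * m₂| ≤ 2 * W := by rwa [abs_mul, abs_of_pos hLpos]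
    have h2 : |p₂ / R * (L * m₂)| ≤ x * (2 * W) := by
      rw [abs_mul]
      gcongr
    have h3 : (L * m₂) ^ 2 ≤ (2 * W) ^ 2 := sq_le_sq.2 (by
      rwa [abs_of_nonneg (by positivity : (0 : ℝ) ≤ 2 * W)])
    have h4 := (abs_le.1 h2).1
    nlinarith
  have hsum : η * ((p₁ / R - L * m₁) ^ 2 + (p₂ / R - L * m₂) ^ 2) ≤
      η * x ^ 2 + 8 * W * x + 8 * W ^ 2 := by
    have h1 : (p₁ / R - L * m₁) ^ 2 + (p₂ / R - L * m₂) ^ 2 ≤ x ^ 2 + 8 * W * x + 8 * W ^ 2 := by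
      linarith
    have h2 : 0 ≤ 8 * W * x + 8 * W ^ 2 := by positivity
    calc η * ((p₁ / R - L * m₁) ^ 2 + (p₂ / R - L * m₂) ^ 2)
        ≤ η * (x ^ 2 + 8 * W * x + 8 * W ^ 2) := by gcongr
      _ = η * x ^ 2 + η * (8 * W * x + 8 * W ^ 2) := by ring
      _ ≤ η * x ^ 2 + 1 * (8 * W * x + 8 * W ^ 2) := by gcongr
      _ = _ := by ring
  have hpp : (p₁ ^ 2 + p₂ ^ 2) / R ^ 2 = x ^ 2 := by
    rw [← hP2, hx, div_pow]
  rw [hpp]
  have hfin : (8 + C) * W * x ≤ (1 - η) * x ^ 2 + (8 + C) ^ 2 / (1 - η) * W ^ 2 := by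
    have h2 : (8 + C) * W * x * (1 - η) ≤
        ((1 - η) * x ^ 2 + (8 + C) ^ 2 / (1 - η) * W ^ 2) * (1 - η) := by
      have h3 : ((1 - η) * x ^ 2 + (8 + C) ^ 2 / (1 - η) * W ^ 2) * (1 - η) =
          ((1 - η) * x) ^ 2 + ((8 + C) * W) ^ 2 := by
        field_simp
      have h4 : (8 + C) * W * x * (1 - η) = ((1 - η) * x) * ((8 + C) * W) := by ring
      rw [h3, h4]
      have h5 : 0 ≤ (1 - η) * x := by positivity
      have h6 : 0 ≤ (8 + C) * W := by positivity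
      have h7 : 0 ≤ ((1 - η) * x) * ((8 + C) * W) := mul_nonneg h5 h6
      have h8 := sq_nonneg ((1 - η) * x - (8 + C) * W)
      have h9 : ((1 - η) * x - (8 + C) * W) ^ 2 = ((1 - η) * x) ^ 2 + ((8 + C) * W) ^ 2 -
          2 * (((1 - η) * x) * ((8 + C) * W)) := by ring
      linarith
    exact le_of_mul_le_mul_right h2 h1η
  have hL4 : L * (4 * W ^ 2) ≥ (8 + C) ^ 2 / (1 - η) * W ^ 2 + (8 + C) * W ^ 2 := by
    have h1 : (8 + C) ^ 2 / (1 - η) * W ^ 2 + (8 + C) * W ^ 2 = L * W ^ 2 := by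
      rw [hL]
      ring
    rw [h1]
    have : 0 ≤ L * W ^ 2 := by positivity
    linarith
  have hexp : (8 + C) * W * x = 8 * W * x + C * W * x := by ring
  have hexp2 : (8 + C) * W ^ 2 = 8 * W ^ 2 + C * W ^ 2 := by ring
  have hexp3 : (1 - η) * x ^ 2 = x ^ 2 - η * x ^ 2 := by ring
  linarith

/-! ### Second derivatives of the local Diederich-Fornaess function -/

theorem exp_deriv2 (R n R1 n1 : ℝ → ℝ) (R2 n2 L η : ℝ)
    (hR : ∀ᶠ t in 𝓝 (0 : ℝ), HasDerivAt R (R1 t) t) (hn : ∀ᶠ t in 𝓝 (0 : ℝ), HasDerivAt n (n1 t) t)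
    (hR1 : HasDerivAt R1 R2 0) (hn1 : HasDerivAt n1 n2 0) (hpos : 0 < R 0) :
    (∀ᶠ t in 𝓝 (0 : ℝ), HasDerivAt (fun t => Real.exp (η * (Real.log (R t) - L * n t)))
      (Real.exp (η * (Real.log (R t) - L * n t)) * (η * (R1 t / R t - L * n1 t))) t) ∧
    HasDerivAt (fun t => Real.exp (η * (Real.log (R t) - L * n t)) *
        (η * (R1 t / R t - L * n1 t)))
      (Real.exp (η * (Real.log (R 0) - L * n 0)) * ((η * (R1 0 / R 0 - L * n1 0)) ^ 2 +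
        η * ((R2 * R 0 - R1 0 * R1 0) / R 0 ^ 2 - L * n2))) 0 := by
  have hRc : ContinuousAt R 0 := hR.self_of_nhds.continuousAt
  have hpos' : ∀ᶠ t in 𝓝 (0 : ℝ), 0 < R t := hRc.tendsto.eventually_const_lt hpos
  have h1 : ∀ᶠ t in 𝓝 (0 : ℝ), HasDerivAt (fun t => Real.exp (η * (Real.log (R t) - L * n t)))
      (Real.exp (η * (Real.log (R t) - L * n t)) * (η * (R1 t / R t - L * n1 t))) t := by
    filter_upwards [hR, hn, hpos'] with t h1 h2 h3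
    exact (((h1.log h3.ne').sub (h2.const_mul L)).const_mul η).exp
  refine ⟨h1, ?_⟩
  have h2 := h1.self_of_nhds
  have h3 : HasDerivAt (fun t => η * (R1 t / R t - L * n1 t))
      (η * ((R2 * R 0 - R1 0 * R1 0) / R 0 ^ 2 - L * n2)) 0 :=
    ((hR1.div hR.self_of_nhds hpos.ne').sub (hn1.const_mul L)).const_mul η
  refine (h2.mul h3).congr_deriv ?_
  ring

/-- Second directional derivatives of `uDF` along a holomorphic disc. -/
theorem line_uDF {n : ℕ} (ρ : E n → ℝ) (hρ : ContDiff ℝ ((⊤ : ℕ∞) : WithTop ℕ∞) ρ) (q : E n)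
    (L η : ℝ) (γ γ1 : ℝ → E n) (γ2 : E n) (hγ : ∀ᶠ t in 𝓝 (0 : ℝ), HasDerivAt γ (γ1 t) t)
    (hγ1 : HasDerivAt γ1 γ2 0) (hneg : ρ (γ 0) < 0) :
    ∃ f : ℝ → ℝ, (∀ᶠ t in 𝓝 (0 : ℝ), HasDerivAt (fun t => uDF ρ q L η (γ t)) (f t) t) ∧
      HasDerivAt f (uDF ρ q L η (γ 0) * ((η * ((-(fderiv ℝ ρ (γ 0) (γ1 0))) / (-ρ (γ 0)) -
        L * (2 * inner ℝ (γ 0 - q) (γ1 0)))) ^ 2 +
        η * (((-(fderiv ℝ (fderiv ℝ ρ) (γ 0) (γ1 0) (γ1 0) + fderiv ℝ ρ (γ 0) γ2)) * (-ρ (γ 0)) -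
          (-(fderiv ℝ ρ (γ 0) (γ1 0))) * (-(fderiv ℝ ρ (γ 0) (γ1 0)))) / (-ρ (γ 0)) ^ 2 -
          L * (2 * (inner ℝ (γ 0 - q) γ2 + inner ℝ (γ1 0) (γ1 0)))))) 0 := by
  have hγ0 := hγ.self_of_nhds
  have hd1 : Differentiable ℝ ρ := hρ.differentiable (by simp)
  have hd2 : Differentiable ℝ (fderiv ℝ ρ) := by
    have : ContDiff ℝ 1 (fderiv ℝ ρ) := hρ.fderiv_right (by norm_cast)
    exact this.differentiable (by simp)
  have hR : ∀ᶠ t in 𝓝 (0 : ℝ), HasDerivAt (fun t => -ρ (γ t)) (-(fderiv ℝ ρ (γ t) (γ1 t))) t := by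
    filter_upwards [hγ] with t ht
    exact ((hd1 (γ t)).hasFDerivAt.comp_hasDerivAt t ht).neg
  have hn : ∀ᶠ t in 𝓝 (0 : ℝ), HasDerivAt (fun t => ‖γ t - q‖ ^ 2)
      (2 * inner ℝ (γ t - q) (γ1 t)) t := by
    filter_upwards [hγ] with t ht
    exact (ht.sub_const q).norm_sq
  have hR1 : HasDerivAt (fun t => -(fderiv ℝ ρ (γ t) (γ1 t)))
      (-(fderiv ℝ (fderiv ℝ ρ) (γ 0) (γ1 0) (γ1 0) + fderiv ℝ ρ (γ 0) γ2)) 0 :=
    (((hd2 (γ 0)).hasFDerivAt.comp_hasDerivAt 0 hγ0).clm_apply hγ1).neg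
  have hn1 : HasDerivAt (fun t => 2 * inner ℝ (γ t - q) (γ1 t))
      (2 * (inner ℝ (γ 0 - q) γ2 + inner ℝ (γ1 0) (γ1 0))) 0 :=
    ((hγ0.sub_const q).inner ℝ hγ1).const_mul 2
  have hpos : 0 < (fun t => -ρ (γ t)) 0 := by simpa using hneg
  obtain ⟨h1, h2⟩ := exp_deriv2 _ _ _ _ _ _ L η hR hn hR1 hn1 hpos
  have hcont : ContinuousAt (fun t => -ρ (γ t)) 0 := hR.self_of_nhds.continuousAt
  have hpos' : ∀ᶠ t in 𝓝 (0 : ℝ), 0 < -ρ (γ t) := hcont.tendsto.eventually_const_lt hpos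
  have heq : ∀ t, 0 < -ρ (γ t) → uDF ρ q L η (γ t) =
      Real.exp (η * (Real.log (-ρ (γ t)) - L * ‖γ t - q‖ ^ 2)) := by
    intro t ht
    rw [uDF, Real.rpow_def_of_pos (by positivity), Real.log_mul ht.ne' (Real.exp_pos _).ne',
      Real.log_exp]
    congr 1
    ring
  refine ⟨fun t => Real.exp (η * (Real.log (-ρ (γ t)) - L * ‖γ t - q‖ ^ 2)) *
        (η * (-(fderiv ℝ ρ (γ t) (γ1 t)) / -ρ (γ t) - L * (2 * inner ℝ (γ t - q) (γ1 t)))), ?_, ?_⟩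
  · filter_upwards [h1, hpos'.eventually_nhds] with t ht ht2
    exact ht.congr_of_eventuallyEq (ht2.mono fun u hu => heq u hu)
  · rw [heq 0 hpos]
    exact h2

/-- The function `uDF` is superharmonic along holomorphic discs near `q`. -/
theorem sh_uDF {n : ℕ} (ρ : E n → ℝ) (hρ : ContDiff ℝ ((⊤ : ℕ∞) : WithTop ℕ∞) ρ) (q : E n)
    (C η L σ : ℝ) (hC : 1 ≤ C) (hη : 0 < η) (hη1 : η < 1)
    (hL : L = (8 + C) ^ 2 / (1 - η) + 8 + C) (hσ1 : σ ≤ 1 / L)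
    (φ : ℂ → E n) (U : Set ℂ) (hU : IsOpen U) (hφ : DifferentiableOn ℂ φ U) (s : ℂ) (hs : s ∈ U)
    (hneg : ρ (φ s) < 0) (hball : φ s ∈ ball q σ)
    (hLev : -C * (-ρ (φ s)) * ‖deriv φ s‖ ^ 2 - C * ‖deriv φ s‖ *
      Real.sqrt ((fderiv ℝ ρ (φ s) (deriv φ s)) ^ 2 +
        (fderiv ℝ ρ (φ s) (Complex.I • deriv φ s)) ^ 2) ≤ Lev ρ (φ s) (deriv φ s)) :
    SH (fun s => uDF ρ q L η (φ s)) s := by
  have hφ' : DifferentiableOn ℂ (deriv φ) U := hφ.deriv hU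
  have hγ : ∀ e : ℂ, ∀ᶠ t : ℝ in 𝓝 0, HasDerivAt (fun t : ℝ => φ (s + t * e))
      (e • deriv φ (s + t * e)) t := by
    intro e
    filter_upwards [line_mem (e := e) hU hs] with t ht
    exact hasDerivAt_comp_line hU hφ s e t ht
  have hγ1 : ∀ e : ℂ, HasDerivAt (fun t : ℝ => e • deriv φ (s + t * e))
      (e • e • deriv (deriv φ) s) 0 := by
    intro e
    have h1 := hasDerivAt_comp_line hU hφ' s e 0 (by simpa using hs)
    have h2 : HasDerivAt (fun t : ℝ => e • deriv φ (s + t * e))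
        (e • (e • deriv (deriv φ) (s + (0 : ℝ) * e))) 0 := h1.const_smul e
    refine h2.congr_deriv ?_
    rw [Complex.ofReal_zero, zero_mul, add_zero]
  have hline := fun e : ℂ => line_uDF ρ hρ q L η (fun t : ℝ => φ (s + t * e))
    (fun t : ℝ => e • deriv φ (s + t * e)) (e • e • deriv (deriv φ) s) (hγ e) (hγ1 e)
    (by simpa using hneg)
  obtain ⟨f, hf1, hf2⟩ := hline 1
  obtain ⟨g, hg1, hg2⟩ := hline Complex.I
  refine ⟨f, g, _, _, hf1, hf2, hg1, hg2, ?_⟩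
  have hII : Complex.I • Complex.I • deriv (deriv φ) s = -deriv (deriv φ) s := by
    rw [smul_smul, Complex.I_mul_I, neg_one_smul]
  simp only [Complex.ofReal_zero, zero_mul, add_zero, one_smul, hII]
  set z := φ s with hz
  set w := deriv φ s with hw
  set w2 := deriv (deriv φ) s with hw2
  have hR : 0 < -ρ z := by linarith
  have hσ : 0 < σ := pos_of_mem_ball hball
  have hzq : ‖z - q‖ ≤ σ := by
    rw [← dist_eq_norm]
    exact (mem_ball.1 hball).le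
  have hIw : ‖Complex.I • w‖ = ‖w‖ := by rw [norm_smul, Complex.norm_I, one_mul]
  have hm : ∀ x : E n, ‖x‖ = ‖w‖ → |2 * inner ℝ (z - q) x| ≤ 2 * σ * ‖w‖ := by
    intro x hx
    rw [abs_mul, abs_two, mul_assoc]
    have h1 : |inner ℝ (z - q) x| ≤ ‖z - q‖ * ‖x‖ := abs_real_inner_le_norm _ _
    rw [hx] at h1
    have h2 : ‖z - q‖ * ‖w‖ ≤ σ * ‖w‖ := by gcongr
    linarith
  have halg := alg_ineq C η L σ (-ρ z) ‖w‖ (-(fderiv ℝ ρ z w)) (-(fderiv ℝ ρ z (Complex.I • w)))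
    (2 * inner ℝ (z - q) w) (2 * inner ℝ (z - q) (Complex.I • w)) (Lev ρ z w) hC hη hη1 hL
    hσ1 hR (norm_nonneg _) (hm w rfl) (hm _ hIw) (by rw [neg_sq, neg_sq]; exact hLev)
  have hu : 0 < uDF ρ q L η z := by
    rw [uDF]
    positivity
  have e1 : inner ℝ w w = ‖w‖ ^ 2 := real_inner_self_eq_norm_sq w
  have e2 : inner ℝ (Complex.I • w) (Complex.I • w) = ‖w‖ ^ 2 := by
    rw [real_inner_self_eq_norm_sq, hIw]
  have e3 : inner ℝ (z - q) (-w2) = -inner ℝ (z - q) w2 := inner_neg_right _ _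
  have e4 : fderiv ℝ ρ z (-w2) = -fderiv ℝ ρ z w2 := map_neg _ _
  rw [e1, e2, e3, e4]
  rw [Lev] at halg
  set Q1 := fderiv ℝ (fderiv ℝ ρ) z w w
  set Q2 := fderiv ℝ (fderiv ℝ ρ) z (Complex.I • w) (Complex.I • w)
  set D1 := fderiv ℝ ρ z w
  set D2 := fderiv ℝ ρ z (Complex.I • w)
  set D3 := fderiv ℝ ρ z w2
  set i1 := inner ℝ (z - q) w
  set i2 := inner ℝ (z - q) (Complex.I • w)
  set i3 := inner ℝ (z - q) w2
  set r := -ρ z
  set u := uDF ρ q L η z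
  have key : u * ((η * (-D1 / r - L * (2 * i1))) ^ 2 +
        η * ((-(Q1 + D3) * r - -D1 * -D1) / r ^ 2 - L * (2 * (i3 + ‖w‖ ^ 2)))) +
      u * ((η * (-D2 / r - L * (2 * i2))) ^ 2 +
        η * ((-(Q2 + -D3) * r - -D2 * -D2) / r ^ 2 - L * (2 * (-i3 + ‖w‖ ^ 2)))) =
      u * η * (η * ((-D1 / r - L * (2 * i1)) ^ 2 + (-D2 / r - L * (2 * i2)) ^ 2) + -(Q1 + Q2) / r -
        ((-D1) ^ 2 + (-D2) ^ 2) / r ^ 2 - L * (4 * ‖w‖ ^ 2)) := by
    field_simp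
    ring
  rw [key]
  exact mul_nonpos_of_nonneg_of_nonpos (by positivity) halg

/-- The Levi lower bound (2.1). -/
def Levi21 (n : ℕ) (Ω : Set (E n)) (ρ : E n → ℝ) (q : E n) : Prop :=
  ∃ C : ℝ, 1 ≤ C ∧ ∃ s : ℝ, 0 < s ∧ ∀ z ∈ Ω ∩ ball q s, ∀ w : E n,
    -C * (-ρ z) * ‖w‖ ^ 2 - C * ‖w‖ *
      Real.sqrt ((fderiv ℝ ρ z w) ^ 2 + (fderiv ℝ ρ z (Complex.I • w)) ^ 2) ≤ Lev ρ z w

/-- The Hopf lemma from the Levi lower bound. -/
theorem hopfLemma_of (h : ∀ (n : ℕ) (Ω : Set (E n)) (ρ : E n → ℝ), Dom n Ω ρ →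
    ∀ q ∈ frontier Ω, Levi21 n Ω ρ q) : HopfLemma := by
  intro n Ω ρ hD q hq η hη hη1
  obtain ⟨C, hC, σ₀, hσ₀, hlev⟩ := h n Ω ρ hD q hq
  have h1η : 0 < 1 - η := by linarith
  set L := (8 + C) ^ 2 / (1 - η) + 8 + C with hL
  have hL0 : 0 < L := by positivity
  refine ⟨L, hL0.le, min σ₀ (1 / L), by positivity, ?_⟩
  intro c s₀ s₁ m φ h0 h01 hm0 hφ hmaps hm s hs0 hs1
  have hΩ : ∀ x ∈ Ω, ρ x < 0 := fun x hx => by
    rw [hD.eq] at hx
    exact hx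
  have hpos : ∀ x ∈ Ω, 0 < uDF ρ q L η x := fun x hx => by
    have : 0 < -ρ x := by linarith [hΩ x hx]
    rw [uDF]
    positivity
  have hmem : ∀ s : ℂ, ‖s - c‖ < s₁ → s ∈ ball c s₁ := fun s hs => by
    rwa [mem_ball, dist_eq_norm]
  refine annulus_open (fun s => uDF ρ q L η (φ s)) c s₀ s₁ m h0 h01 ?_ ?_ hm ?_ s hs0 hs1
  · have hc1 : ContinuousOn φ (ball c s₁) := hφ.continuousOn
    have hc2 : Continuous ρ := hD.smooth.continuous
    unfold uDF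
    refine ContinuousOn.rpow_const ?_ fun x hx => Or.inr hη.le
    refine ContinuousOn.mul ?_ ?_
    · exact (hc2.comp_continuousOn hc1).neg
    · refine Real.continuous_exp.comp_continuousOn ?_
      exact continuousOn_const.mul ((hc1.sub continuousOn_const).norm.pow 2)
  · intro x hx
    exact (hpos _ (hmaps (hmem x hx)).1).le
  · intro x hx
    have hx1 := hmaps (hmem x hx)
    refine sh_uDF ρ hD.smooth q C η L (min σ₀ (1 / L)) hC hη hη1 hL (min_le_right _ _) φ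
      (ball c s₁) isOpen_ball hφ x (hmem x hx) (hΩ _ hx1.1) hx1.2 ?_
    exact hlev _ ⟨hx1.1, ball_subset_ball (min_le_left _ _) hx1.2⟩ _

end Sqz
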