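import Pool.Agent.Sqz.Spec

set_option autoImplicit false

open Metric Set
open scoped ComplexConjugate

namespace Sqz

/-- The maximum principle step on one small circle of the slice. -/
theorem local_step (VC : VChart) (HD : HolDeriv) {n : ℕ} {Ω : Set (E n)} {N v : E n} {D : ℝ}
    (hΩ : IsOpen Ω) (hN : ‖N‖ = 1) (hv : ‖v‖ = 1) (hNv : (inner ℂ N v : ℂ) = 0) (hD0 : 0 < D)
    (hD : ∀ x ∈ Ω, ∀ y ∈ Ω, dist x y ≤ D)
    {ρ₀ : ℝ} {z₀ : E n} {f g : E n → E n} (hρ₀ : 1 - 1 / 10 ^ 9 ≤ ρ₀) (hz₀ : z₀ ∈ Ω)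
    (hch : IsChart Ω Ω ρ₀ z₀ f g)
    {r₀ : ℝ} (hr₀ : 0 < r₀) (hdisc : ∀ ζ : ℂ, ‖ζ‖ < r₀ / 2 → z₀ + ζ • N ∈ Ω)
    {X : E n → ℝ} (hX0 : ∀ x, 0 ≤ X x) {b : E n} (hb : ‖b‖ ≤ 1) {e₁ : ℝ}
    (hX : ∀ a : E n, ‖a‖ ≤ 1 / 2 → X (g a) ≤ Real.exp e₁ * X z₀ *
      (‖1 - (inner ℂ b a : ℂ)‖ ^ 2 / (1 - ‖a‖ ^ 2)))
    {K : ℝ} (hK : 0 ≤ K) {h : ℂ → ℂ} (hh : DiffContOnCl ℂ h (ball 0 1))
    (hV : ∀ s : ℂ, ‖s‖ = 1 → VV Ω N v (z₀ + (((1 / 300 * r₀ : ℝ) : ℂ) * s) • N) ≤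
      K * X (z₀ + (((1 / 300 * r₀ : ℝ) : ℂ) * s) • N) ^ 3 * Real.exp (h s).re) :
    VV Ω N v z₀ ≤ K * X z₀ ^ 3 * Real.exp (h 0).re *
      Real.exp (3 * e₁ + 50 * (1 / 300) ^ 4 + 5 / 10 ^ 9) := by
  obtain ⟨-, -, F₁, F₂, hF, hFf, hext, htr, hproj⟩ :=
    VC n Ω N v D hΩ hN hv hNv hD0 hD ρ₀ z₀ f g (by norm_num at hρ₀ ⊢; linarith) hz₀ hch
  set τ : ℝ := 1 / 300 with hτ
  have hτ0 : 0 < τ := by norm_num [hτ]
  -- the path
  set z : ℂ → E n := fun s => z₀ + (((τ * r₀ : ℝ) : ℂ) * s) • N with hz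
  have hzdiff : Differentiable ℂ z := by
    intro s
    simp only [hz]
    fun_prop
  have hzmem : ∀ s : ℂ, ‖s‖ < 150 → z s ∈ Ω := by
    intro s hs
    apply hdisc
    rw [norm_mul, Complex.norm_real, Real.norm_eq_abs, abs_of_pos (by positivity)]
    have : τ * r₀ * ‖s‖ < τ * r₀ * 150 := by
      apply mul_lt_mul_of_pos_left hs (by positivity)
    calc τ * r₀ * ‖s‖ < τ * r₀ * 150 := this
      _ = r₀ / 2 := by rw [hτ]; ring
  have hz0 : z 0 = z₀ := by simp [hz]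
  set a : ℂ → E n := fun s => f (z s) with ha
  have hadiff : DifferentiableOn ℂ a (ball 0 150) := by
    apply hch.df.comp hzdiff.differentiableOn
    intro s hs
    exact hzmem s (by simpa using hs)
  have ha0 : a 0 = 0 := by simp [ha, hz0, hch.fz]
  have hamaps : MapsTo a (ball 0 150) (closedBall (a 0) 1) := by
    intro s hs
    rw [ha0]
    exact ball_subset_closedBall (hch.mf (hzmem s (by simpa using hs)))
  have hanorm : ∀ s : ℂ, ‖s‖ ≤ 1 → ‖a s‖ ≤ 1 / 150 := by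
    intro s hs
    have := Complex.dist_le_div_mul_dist_of_mapsTo_ball hadiff hamaps
      (z := s) (by simp; linarith)
    rw [ha0, dist_zero_right, dist_zero_right] at this
    linarith
  -- projected part
  have hgap : ∀ s : ℂ, ‖s‖ ≤ 1 → ‖a s‖ ^ 2 - ‖F₁ (z s)‖ ^ 2 - ‖F₂ (z s)‖ ^ 2 ≤ 16 * τ ^ 4 := by
    intro s hs
    have h1 := hproj (r₀ / 2) (by positivity) hdisc (((τ * r₀ : ℝ) : ℂ) * s) (by
      rw [norm_mul, Complex.norm_real, Real.norm_eq_abs, abs_of_pos (by positivity)]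
      calc τ * r₀ * ‖s‖ ≤ τ * r₀ * 1 := by gcongr
        _ < r₀ / 2 := by rw [hτ]; linarith)
    refine h1.trans ?_
    rw [norm_mul, Complex.norm_real, Real.norm_eq_abs, abs_of_pos (by positivity)]
    have h2 : τ * r₀ * ‖s‖ / (r₀ / 2) ≤ 2 * τ := by
      rw [div_le_iff₀ (by positivity)]
      have : τ * r₀ * ‖s‖ ≤ τ * r₀ * 1 := by gcongr
      have e : 2 * τ * (r₀ / 2) = τ * r₀ := by ring
      rw [e]; linarith
    calc (τ * r₀ * ‖s‖ / (r₀ / 2)) ^ 4 ≤ (2 * τ) ^ 4 := by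
          apply pow_le_pow_left₀ (by positivity) h2
      _ = 16 * τ ^ 4 := by ring
  -- the holomorphic functions
  set J : ℂ → ℂ := fun s => Jac F₁ F₂ N v (z s) with hJ
  have hJdiff : DifferentiableOn ℂ J (ball 0 150) := by
    have hm : MapsTo z (ball 0 150) Ω := fun s hs => hzmem s (by simpa using hs)
    have k1 := (HD n Ω F₁ hΩ hF.d1 N).comp hzdiff.differentiableOn hm
    have k2 := (HD n Ω F₂ hΩ hF.d2 v).comp hzdiff.differentiableOn hm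
    have k3 := (HD n Ω F₁ hΩ hF.d1 v).comp hzdiff.differentiableOn hm
    have k4 := (HD n Ω F₂ hΩ hF.d2 N).comp hzdiff.differentiableOn hm
    exact (k1.mul k2).sub (k3.mul k4)
  set q : ℂ → ℂ := fun s => 1 - (inner ℂ b (a s) : ℂ) with hq
  have hqdiff : DifferentiableOn ℂ q (ball 0 150) := by
    have : DifferentiableOn ℂ (fun s => (innerSL ℂ b) (a s)) (ball 0 150) :=
      (innerSL ℂ b).differentiable.comp_differentiableOn hadiff
    exact (differentiableOn_const 1).sub this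
  have hqne : ∀ s : ℂ, ‖s‖ ≤ 1 → q s ≠ 0 := by
    intro s hs h0
    have h1 : (inner ℂ b (a s) : ℂ) = 1 := by
      simp only [hq] at h0
      linear_combination -h0
    have h2 : ‖(inner ℂ b (a s) : ℂ)‖ ≤ ‖b‖ * ‖a s‖ := norm_inner_le_norm b (a s)
    rw [h1, norm_one] at h2
    have h3 := hanorm s hs
    have : ‖b‖ * ‖a s‖ ≤ 1 * (1 / 150) := by
      apply mul_le_mul hb h3 (norm_nonneg _) zero_le_one
    linarith
  have hcl : closedBall (0 : ℂ) 1 ⊆ ball 0 150 := by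
    intro s hs
    simp at hs ⊢
    linarith
  have hclos : closure (ball (0 : ℂ) 1) = closedBall 0 1 := closure_ball _ one_ne_zero
  have hHcl : DiffContOnCl ℂ (fun s => J s ^ 2 * ((q s) ^ 6)⁻¹ * Complex.exp (-(h s)))
      (ball 0 1) := by
    have hJ1 : DiffContOnCl ℂ J (ball 0 1) :=
      (hJdiff.mono (by rw [hclos]; exact hcl)).diffContOnCl
    have hq1 : DiffContOnCl ℂ q (ball 0 1) :=
      (hqdiff.mono (by rw [hclos]; exact hcl)).diffContOnCl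
    constructor
    · intro s hs
      have hs' : ‖s‖ ≤ 1 := by
        have : ‖s‖ < 1 := by simpa using hs
        exact this.le
      have d1 := (hJ1.differentiableOn s hs)
      have d2 := (hq1.differentiableOn s hs)
      have d3 := (hh.differentiableOn s hs)
      exact ((d1.pow 2).mul ((d2.pow 6).inv (pow_ne_zero _ (hqne s hs')))).mul
        (d3.neg.cexp)
    · intro s hs
      have hs' : ‖s‖ ≤ 1 := by
        rw [hclos] at hs
        simpa using hs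
      have d1 := (hJ1.continuousOn s hs)
      have d2 := (hq1.continuousOn s hs)
      have d3 := (hh.continuousOn s hs)
      exact ((d1.pow 2).mul ((d2.pow 6).inv₀ (pow_ne_zero _ (hqne s hs')))).mul
        (d3.neg.cexp)
  -- the bound on the circle
  set B : ℝ := K * X z₀ ^ 3 * Real.exp (3 * e₁ + 50 * τ ^ 4) with hB
  have hbd : ∀ s ∈ frontier (ball (0 : ℂ) 1),
      ‖J s ^ 2 * ((q s) ^ 6)⁻¹ * Complex.exp (-(h s))‖ ≤ B := by
    intro s hs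
    rw [frontier_ball _ one_ne_zero] at hs
    have hs1 : ‖s‖ = 1 := by simpa using hs
    have hxΩ : z s ∈ Ω := hzmem s (by rw [hs1]; norm_num)
    have han := hanorm s hs1.le
    have hgx : g (a s) = z s := by
      apply hch.gf _ hxΩ
      simp only [mem_ball, dist_zero_right]
      have : ‖f (z s)‖ ≤ 1 / 150 := han
      norm_num at hρ₀ this ⊢
      linarith
    have h1 := htr (z s) hxΩ
    have h2 := hV s hs1
    have h3 := hX (a s) (by linarith)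
    rw [hgx] at h3
    have hFle := hFf (z s) hxΩ
    have hgp := hgap s hs1.le
    have hanf : ‖f (z s)‖ = ‖a s‖ := rfl
    rw [hanf] at hFle
    have hqpos : 0 < ‖q s‖ := norm_pos_iff.mpr (hqne s hs1.le)
    have ha2 : ‖a s‖ ^ 2 ≤ 1 / 22500 := by
      have := pow_le_pow_left₀ (norm_nonneg _) han 2
      norm_num at this ⊢
      linarith
    have hden : 0 < 1 - ‖a s‖ ^ 2 := by linarith
    set A : ℝ := 1 - ‖F₁ (z s)‖ ^ 2 - ‖F₂ (z s)‖ ^ 2 with hA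
    have hA0 : 0 ≤ A := by rw [hA]; linarith
    have hAle : A / (1 - ‖a s‖ ^ 2) ≤ Real.exp (50 / 3 * τ ^ 4) := by
      rw [div_le_iff₀ hden]
      have e1 : A ≤ (1 - ‖a s‖ ^ 2) + 16 * τ ^ 4 := by rw [hA]; linarith
      have e2 : 1 + 50 / 3 * τ ^ 4 ≤ Real.exp (50 / 3 * τ ^ 4) := by
        have := Real.add_one_le_exp (50 / 3 * τ ^ 4)
        linarith
      have e3 : (1 + 50 / 3 * τ ^ 4) * (1 - ‖a s‖ ^ 2) ≤
          Real.exp (50 / 3 * τ ^ 4) * (1 - ‖a s‖ ^ 2) :=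
        mul_le_mul_of_nonneg_right e2 hden.le
      have e4 : 16 * τ ^ 4 ≤ 50 / 3 * τ ^ 4 * (1 - ‖a s‖ ^ 2) := by
        have : 0 < τ ^ 4 := by positivity
        nlinarith
      have e5 : (1 + 50 / 3 * τ ^ 4) * (1 - ‖a s‖ ^ 2) =
          (1 - ‖a s‖ ^ 2) + 50 / 3 * τ ^ 4 * (1 - ‖a s‖ ^ 2) := by ring
      rw [e5] at e3
      have e6 : A ≤ (1 - ‖a s‖ ^ 2) + 50 / 3 * τ ^ 4 * (1 - ‖a s‖ ^ 2) :=
        e1.trans (add_le_add le_rfl e4)
      exact e6.trans e3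
    have hXle : X (z s) ^ 3 ≤ (Real.exp e₁ * X z₀ * (‖q s‖ ^ 2 / (1 - ‖a s‖ ^ 2))) ^ 3 :=
      pow_le_pow_left₀ (hX0 _) h3 3
    have hchain : ‖J s‖ ^ 2 ≤ B * ‖q s‖ ^ 6 * Real.exp (h s).re := by
      have hX0' : 0 ≤ X z₀ := hX0 _
      have s1 : VV Ω N v (z s) ≤ K * (Real.exp e₁ * X z₀ * (‖q s‖ ^ 2 / (1 - ‖a s‖ ^ 2))) ^ 3 *
              Real.exp (h s).re := by
        refine h2.trans ?_
        apply mul_le_mul_of_nonneg_right _ (Real.exp_pos _).le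
        exact mul_le_mul_of_nonneg_left hXle hK
      have s2 : A ^ 3 * (K * (Real.exp e₁ * X z₀ * (‖q s‖ ^ 2 / (1 - ‖a s‖ ^ 2))) ^ 3 *
              Real.exp (h s).re) = (A / (1 - ‖a s‖ ^ 2)) ^ 3 *
              (K * X z₀ ^ 3 * (Real.exp e₁) ^ 3 * ‖q s‖ ^ 6 * Real.exp (h s).re) := by
        have hne : 1 - ‖a s‖ ^ 2 ≠ 0 := hden.ne'
        field_simp
      have s3 : (A / (1 - ‖a s‖ ^ 2)) ^ 3 ≤ (Real.exp (50 / 3 * τ ^ 4)) ^ 3 :=
        pow_le_pow_left₀ (div_nonneg hA0 hden.le) hAle 3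
      have s4 : (Real.exp (50 / 3 * τ ^ 4)) ^ 3 *
              (K * X z₀ ^ 3 * (Real.exp e₁) ^ 3 * ‖q s‖ ^ 6 * Real.exp (h s).re) =
              B * ‖q s‖ ^ 6 * Real.exp (h s).re := by
        rw [hB, ← Real.exp_nat_mul, ← Real.exp_nat_mul]
        have : Real.exp (3 * e₁ + 50 * τ ^ 4) =
          Real.exp ((3 : ℕ) * e₁) * Real.exp ((3 : ℕ) * (50 / 3 * τ ^ 4)) := by
          rw [← Real.exp_add]; congr 1; push_cast; ring
        rw [this]; ring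
      have s5 : 0 ≤ K * X z₀ ^ 3 * (Real.exp e₁) ^ 3 * ‖q s‖ ^ 6 * Real.exp (h s).re := by
        positivity
      calc ‖J s‖ ^ 2 ≤ A ^ 3 * VV Ω N v (z s) := h1
        _ ≤ A ^ 3 * (K * (Real.exp e₁ * X z₀ * (‖q s‖ ^ 2 / (1 - ‖a s‖ ^ 2))) ^ 3 *
              Real.exp (h s).re) := mul_le_mul_of_nonneg_left s1 (pow_nonneg hA0 3)
        _ = (A / (1 - ‖a s‖ ^ 2)) ^ 3 *
              (K * X z₀ ^ 3 * (Real.exp e₁) ^ 3 * ‖q s‖ ^ 6 * Real.exp (h s).re) := s2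
        _ ≤ (Real.exp (50 / 3 * τ ^ 4)) ^ 3 *
              (K * X z₀ ^ 3 * (Real.exp e₁) ^ 3 * ‖q s‖ ^ 6 * Real.exp (h s).re) :=
            mul_le_mul_of_nonneg_right s3 s5
        _ = B * ‖q s‖ ^ 6 * Real.exp (h s).re := s4
    rw [norm_mul, norm_mul, norm_pow, norm_inv, norm_pow, Complex.norm_exp, Complex.neg_re,
      Real.exp_neg]
    rw [← div_eq_mul_inv, ← div_eq_mul_inv, div_div, div_le_iff₀ (by positivity)]
    linarith
  have hmax := Complex.norm_le_of_forall_mem_frontier_norm_le (isBounded_ball) hHcl hbd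
    (subset_closure (mem_ball_self one_pos) : (0 : ℂ) ∈ closure (ball 0 1))
  have hq0 : q 0 = 1 := by simp [hq, ha0]
  have hB0 : 0 ≤ B := by
    have : 0 ≤ X z₀ := hX0 _
    rw [hB]; positivity
  have hJ0 : ‖Jac F₁ F₂ N v z₀‖ ^ 2 ≤ B * Real.exp (h 0).re := by
    simp only [hq0] at hmax
    rw [norm_mul, norm_mul, norm_pow, norm_inv, norm_pow, norm_one, Complex.norm_exp,
      Complex.neg_re, Real.exp_neg] at hmax
    simp only [hJ, hz0, one_pow, inv_one, mul_one] at hmax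
    rw [← div_eq_mul_inv, div_le_iff₀ (by positivity)] at hmax
    exact hmax
  have hρpos : 0 < ρ₀ := by norm_num at hρ₀ ⊢; linarith
  have hρ4 : 1 / ρ₀ ^ 4 ≤ Real.exp (5 / 10 ^ 9) := by
    have e1 : (1 - 1 / 10 ^ 9 : ℝ) ^ 4 ≤ ρ₀ ^ 4 := by
      apply pow_le_pow_left₀ (by norm_num) hρ₀
    have e2 : 1 / ρ₀ ^ 4 ≤ 1 / (1 - 1 / 10 ^ 9 : ℝ) ^ 4 := by
      apply one_div_le_one_div_of_le (by norm_num) e1
    have e3 : 1 / (1 - 1 / 10 ^ 9 : ℝ) ^ 4 ≤ 1 + 5 / 10 ^ 9 := by norm_num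
    have e4 := Real.add_one_le_exp (5 / 10 ^ 9 : ℝ)
    linarith
  calc VV Ω N v z₀ ≤ ‖Jac F₁ F₂ N v z₀‖ ^ 2 / ρ₀ ^ 4 := hext
    _ = ‖Jac F₁ F₂ N v z₀‖ ^ 2 * (1 / ρ₀ ^ 4) := by ring
    _ ≤ (B * Real.exp (h 0).re) * Real.exp (5 / 10 ^ 9) := by gcongr
    _ = K * X z₀ ^ 3 * Real.exp (h 0).re *
      Real.exp (3 * e₁ + 50 * τ ^ 4 + 5 / 10 ^ 9) := by
        rw [hB, Real.exp_add (3 * e₁ + 50 * τ ^ 4)]; ring

end Sqz
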