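import Pool.Agent.Sqz.LocalStep
import Pool.Agent.Sqz.CircleFn

set_option autoImplicit false

open Metric Set
open scoped ComplexConjugate

namespace Sqz

/-- `Re ζ^{-1/2} ≥ |ζ|^{-1/2}/2` when `Re ζ ≥ -|ζ|/2`. -/
theorem re_cpow_lower {ζ : ℂ} (h0 : ζ ≠ 0) (hre : -(‖ζ‖ / 2) ≤ ζ.re) :
    ‖ζ‖ ^ (-1 / 2 : ℝ) / 2 ≤ (ζ ^ (-1 / 2 : ℂ)).re := by
  have hpos : 0 < ‖ζ‖ := norm_pos_iff.mpr h0
  set η : ℂ := ζ ^ (-1 / 2 : ℂ) with hη
  have hnorm : ‖η‖ = ‖ζ‖ ^ (-1 / 2 : ℝ) := by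
    have e : (-1 / 2 : ℂ) = ((-1 / 2 : ℝ) : ℂ) := by push_cast; ring
    rw [hη, e, Complex.norm_cpow_real]
  have hnn : 0 ≤ η.re := by
    rw [hη, Complex.cpow_def_of_ne_zero h0, Complex.exp_re]
    apply mul_nonneg (Real.exp_pos _).le
    have e : (Complex.log ζ * (-1 / 2 : ℂ)).im = -(ζ.arg / 2) := by
      have e1 : (-1 / 2 : ℂ) = ((-1 / 2 : ℝ) : ℂ) := by push_cast; ring
      rw [e1, Complex.im_mul_ofReal, Complex.log_im]
      ring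
    rw [e, Real.cos_neg]
    apply Real.cos_nonneg_of_mem_Icc
    constructor
    · have := Complex.neg_pi_lt_arg ζ
      linarith
    · have := Complex.arg_le_pi ζ
      linarith
  have hsq : η ^ 2 = ζ⁻¹ := by
    rw [hη, ← Complex.cpow_nat_mul]
    have : ((2 : ℕ) : ℂ) * (-1 / 2 : ℂ) = -1 := by push_cast; ring
    rw [this, Complex.cpow_neg_one]
  have h1 : (η ^ 2).re = 2 * η.re ^ 2 - ‖η‖ ^ 2 := by
    rw [← Complex.normSq_eq_norm_sq, Complex.normSq_apply, pow_two, Complex.mul_re]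
    ring
  have h2 : (ζ⁻¹).re = ζ.re / ‖ζ‖ ^ 2 := by
    rw [Complex.inv_re, Complex.normSq_eq_norm_sq]
  have h3 : ‖η‖ ^ 2 = 1 / ‖ζ‖ := by
    have : ‖η ^ 2‖ = ‖ζ⁻¹‖ := by rw [hsq]
    rw [norm_pow, norm_inv] at this
    rw [this]; ring
  have h4 : -(1 / (2 * ‖ζ‖)) ≤ ζ.re / ‖ζ‖ ^ 2 := by
    rw [le_div_iff₀ (by positivity)]
    have : -(1 / (2 * ‖ζ‖)) * ‖ζ‖ ^ 2 = -(‖ζ‖ / 2) := by field_simp
    rw [this]; exact hre
  have h5 : 1 / (4 * ‖ζ‖) ≤ η.re ^ 2 := by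
    rw [hsq, h2] at h1
    have : 1 / (2 * ‖ζ‖) = 1 / ‖ζ‖ / 2 := by ring
    have h6 : 1 / (4 * ‖ζ‖) = 1 / ‖ζ‖ / 4 := by ring
    rw [this] at h4
    rw [h6]
    nlinarith
  rw [← hnorm]
  have h6 : (‖η‖ / 2) ^ 2 ≤ η.re ^ 2 := by
    have : (‖η‖ / 2) ^ 2 = 1 / (4 * ‖ζ‖) := by
      rw [div_pow, h3]; ring
    rw [this]; exact h5
  exact (pow_le_pow_iff_left₀ (by positivity) hnn two_ne_zero).mp h6

/-- The discrete maximum principle on the slice. -/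
theorem minPrinciple (VC : VChart) (HD : HolDeriv) {n : ℕ} {Ω : Set (E n)} {ρ : E n → ℝ}
    {p N v : E n} {D : ℝ}
    (hΩ : IsOpen Ω) (hΩρ : ∀ x, ρ x < 0 → x ∈ Ω) (hN : ‖N‖ = 1) (hv : ‖v‖ = 1)
    (hNv : (inner ℂ N v : ℂ) = 0) (hD0 : 0 < D)
    (hD : ∀ x ∈ Ω, ∀ y ∈ Ω, dist x y ≤ D)
    {c C : ℝ} (hC : 1 ≤ C)
    (g1 : ∀ ζ : ℂ, ‖ζ‖ < c → |(-ρ (p - ζ • N)) - ζ.re| ≤ C * ‖ζ‖ ^ 2)
    (g2 : ∀ ζ : ℂ, ‖ζ‖ < c → ∃ κ : ℂ, ‖κ - 1‖ ≤ 1 / 4 ∧ ∀ ξ : ℂ, ‖ξ‖ < c →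
      |(-ρ (p - (ζ + ξ) • N)) - (-ρ (p - ζ • N)) - (κ * ξ).re| ≤ C * ‖ξ‖ ^ 2)
    (v1 : ∀ ζ : ℂ, ‖ζ‖ < c → 0 < -ρ (p - ζ • N) →
      VV Ω N v (p - ζ • N) ≤ C / (-ρ (p - ζ • N)) ^ 3)
    (v2 : ∀ ζ : ℂ, ‖ζ‖ < c → 0 < -ρ (p - ζ • N) → -ρ (p - ζ • N) ≤ |ζ.im| ^ 6 / C →
      VV Ω N v (p - ζ • N) ≤ C * |ζ.im| ^ 2 / (-ρ (p - ζ • N)) ^ 3)
    {c₁ : ℝ} (hc₁ : 0 < c₁) (hcc : 4 * c₁ ≤ c) (hCc : C * c₁ ≤ 1 / 1000)
    {X : E n → ℝ} (hX1 : ∀ x, 1 ≤ X x) {cX : ℝ} (hcX : 0 < cX)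
    (x1 : ∀ ζ : ℂ, ‖ζ‖ < 2 * c₁ → 0 < -ρ (p - ζ • N) →
      Real.log cX - 71 / 24 * Real.log (-ρ (p - ζ • N)) ≤ 3 * Real.log (X (p - ζ • N)))
    (x2 : ∀ ζ : ℂ, ‖ζ‖ < c₁ → 0 < -ρ (p - ζ • N) → ∃ (ρ₀ : ℝ) (f g : E n → E n) (b : E n),
      1 - 1 / 10 ^ 9 ≤ ρ₀ ∧ IsChart Ω Ω ρ₀ (p - ζ • N) f g ∧ ‖b‖ ≤ 1 ∧
      ∀ a : E n, ‖a‖ ≤ 1 / 2 → X (g a) ≤ Real.exp (1 / 10 ^ 9) * X (p - ζ • N) *
        (‖1 - (inner ℂ b a : ℂ)‖ ^ 2 / (1 - ‖a‖ ^ 2))) :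
    ∃ K₀ : ℝ, 0 < K₀ ∧ ∀ t : ℝ, 0 < t → t < c₁ → 0 < -ρ (p - (t : ℂ) • N) →
      VV Ω N v (p - (t : ℂ) • N) ≤ K₀ * X (p - (t : ℂ) • N) ^ 3 *
        ((-ρ (p - (t : ℂ) • N)) ^ (1 / 24 : ℝ) * t ^ (3 / 2 : ℝ)) := by
  have hC0 : 0 < C := by linarith
  have hc₁1 : c₁ ≤ 1 / 1000 := by nlinarith
  set r : ℂ → ℝ := fun ζ => -ρ (p - ζ • N) with hr
  have hX0 : ∀ x, 0 ≤ X x := fun x => by linarith [hX1 x]
  -- basic facts on the region
  have fre : ∀ ζ : ℂ, ‖ζ‖ < 2 * c₁ → 0 < r ζ → -(‖ζ‖ / 2) ≤ ζ.re ∧ ζ ≠ 0 ∧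
      ζ ∈ Complex.slitPlane := by
    intro ζ hζ hrζ
    have h1 := g1 ζ (by linarith)
    have h2 := (abs_le.mp h1).2
    have h3 : C * ‖ζ‖ ^ 2 ≤ ‖ζ‖ / 500 := by
      have : C * ‖ζ‖ ≤ 1 / 500 := by
        have : C * ‖ζ‖ ≤ C * (2 * c₁) := by gcongr
        linarith
      nlinarith [norm_nonneg ζ]
    have h4 : r ζ ≤ ζ.re + ‖ζ‖ / 500 := by simp only [hr]; linarith
    have h5 : -(‖ζ‖ / 2) ≤ ζ.re := by nlinarith [norm_nonneg ζ]
    have h6 : ζ ∈ Complex.slitPlane := by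
      rw [Complex.mem_slitPlane_iff]
      by_contra hcon
      push Not at hcon
      have him : ζ.im = 0 := hcon.2
      have hn : ‖ζ‖ = |ζ.re| := by
        have := Complex.norm_add_mul_I ζ.re ζ.im
        rw [Complex.re_add_im, him] at this
        rw [this]; simp [Real.sqrt_sq_eq_abs]
      rw [hn, abs_of_nonpos hcon.1] at h4
      linarith
    exact ⟨h5, Complex.slitPlane_ne_zero h6, h6⟩
  -- the region S
  set S : Set ℂ := {ζ | ‖ζ‖ < 2 * c₁ ∧ 0 < r ζ ∧ |ζ.im| ^ 6 ≤ 128 * C * r ζ} with hS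
  have flow : ∀ ζ ∈ S, ‖ζ‖ ^ 6 / (8192 * C) ≤ r ζ := by
    rintro ζ ⟨h1, h2, h3⟩
    obtain ⟨k1, k2, -⟩ := fre ζ h1 h2
    rw [div_le_iff₀ (by positivity)]
    by_cases him : ‖ζ‖ / 2 ≤ |ζ.im|
    · have : (‖ζ‖ / 2) ^ 6 ≤ |ζ.im| ^ 6 := pow_le_pow_left₀ (by positivity) him 6
      have e : (‖ζ‖ / 2) ^ 6 = ‖ζ‖ ^ 6 / 64 := by ring
      rw [e] at this
      linarith
    · push Not at him
      have h5 := g1 ζ (by linarith)
      have h6 := (abs_le.mp h5).1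
      have h7 : C * ‖ζ‖ ^ 2 ≤ ‖ζ‖ / 500 := by
        have : C * ‖ζ‖ ≤ 1 / 500 := by
          have : C * ‖ζ‖ ≤ C * (2 * c₁) := by gcongr
          linarith
        nlinarith [norm_nonneg ζ]
      have h8 : ‖ζ‖ ^ 2 = ζ.re ^ 2 + ζ.im ^ 2 := by
        rw [← Complex.normSq_eq_norm_sq, Complex.normSq_apply]; ring
      have h9 : ζ.im ^ 2 ≤ (‖ζ‖ / 2) ^ 2 := by
        rw [← sq_abs ζ.im]
        exact pow_le_pow_left₀ (abs_nonneg _) him.le 2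
      have hz : 0 < ‖ζ‖ := norm_pos_iff.mpr k2
      have h10 : ‖ζ‖ * (3 / 5) ≤ ζ.re := by
        by_contra hcon
        push Not at hcon
        nlinarith
      have h11 : ‖ζ‖ / 2 ≤ r ζ := by simp only [hr]; linarith
      have h12 : ‖ζ‖ ^ 6 ≤ ‖ζ‖ := by
        have : ‖ζ‖ ≤ 1 := by linarith
        calc ‖ζ‖ ^ 6 ≤ ‖ζ‖ ^ 1 := pow_le_pow_of_le_one hz.le this (by norm_num)
          _ = ‖ζ‖ := pow_one _
      nlinarith
  -- comparison function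
  set Pf : ℝ → ℂ → ℝ := fun ε ζ => (r ζ) ^ (1 / 24 : ℝ) * ‖ζ‖ ^ (3 / 2 : ℝ) *
    Real.exp (ε * (ζ ^ (-1 / 2 : ℂ)).re) with hPf
  have hPfexp : ∀ ε : ℝ, ∀ ζ ∈ S, Pf ε ζ = Real.exp (1 / 24 * Real.log (r ζ) +
      3 / 2 * Real.log ‖ζ‖ + ε * (ζ ^ (-1 / 2 : ℂ)).re) := by
    rintro ε ζ ⟨h1, h2, h3⟩
    obtain ⟨k1, k2, -⟩ := fre ζ h1 h2
    simp only [hPf]
    rw [Real.rpow_def_of_pos h2, Real.rpow_def_of_pos (norm_pos_iff.mpr k2), Real.exp_add,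
      Real.exp_add]
    congr 2
    · rw [mul_comm]
    · rw [mul_comm]
  have hflowlog : ∀ ζ ∈ S, 6 * Real.log ‖ζ‖ - Real.log (8192 * C) ≤ Real.log (r ζ) := by
    intro ζ hζ
    have h := flow ζ hζ
    obtain ⟨k1, k2, -⟩ := fre ζ hζ.1 hζ.2.1
    have hz : 0 < ‖ζ‖ := norm_pos_iff.mpr k2
    have := Real.log_le_log (by positivity) h
    rw [Real.log_div (by positivity) (by positivity), Real.log_pow] at this
    push_cast at this
    linarith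
  have hXexp : ∀ x, X x ^ 3 = Real.exp (3 * Real.log (X x)) := by
    intro x
    have hx : 0 < X x := by linarith [hX1 x]
    have : 3 * Real.log (X x) = ((3 : ℕ) : ℝ) * Real.log (X x) := by norm_num
    rw [this, Real.exp_nat_mul, Real.exp_log hx]
  -- a priori bound
  have hprior : ∀ ε : ℝ, 0 < ε → ∃ K : ℝ, 0 ≤ K ∧ ∀ ζ ∈ S,
      VV Ω N v (p - ζ • N) ≤ K * (X (p - ζ • N) ^ 3 * Pf ε ζ) := by
    intro ε hε
    refine ⟨Real.exp (Real.log C - Real.log cX + 1 / 12 * Real.log (8192 * C)) *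
      (24 * (2 / ε) ^ 4), by positivity, ?_⟩
    intro ζ hζ
    have hζ' := hζ
    obtain ⟨h1, h2, h3⟩ := hζ
    obtain ⟨k1, k2, -⟩ := fre ζ h1 h2
    have hz : 0 < ‖ζ‖ := norm_pos_iff.mpr k2
    have e1 := v1 ζ (by linarith) h2
    have e2 : C / (-ρ (p - ζ • N)) ^ 3 = Real.exp (Real.log C - 3 * Real.log (r ζ)) := by
      rw [Real.exp_sub, Real.exp_log hC0]
      congr 1
      have : 3 * Real.log (r ζ) = ((3 : ℕ) : ℝ) * Real.log (r ζ) := by norm_num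
      rw [this, Real.exp_nat_mul, Real.exp_log h2]
    rw [e2] at e1
    refine e1.trans ?_
    rw [hPfexp ε ζ hζ', hXexp]
    have e3 := x1 ζ h1 h2
    have e4 := hflowlog ζ hζ'
    have e5 := re_cpow_lower k2 k1
    set G : ℝ := (ζ ^ (-1 / 2 : ℂ)).re with hG
    set y : ℝ := ‖ζ‖ ^ (-1 / 2 : ℝ) with hy
    have hypos : 0 < y := Real.rpow_pos_of_pos hz _
    have hylog : Real.log y = -1 / 2 * Real.log ‖ζ‖ := Real.log_rpow hz _
    -- y^4 ≤ 24 (2/ε)^4 exp(ε G)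
    have e6 : y ^ 4 ≤ 24 * (2 / ε) ^ 4 * Real.exp (ε * G) := by
      have q1 : (ε * G) ^ 4 / 24 ≤ Real.exp (ε * G) := by
        have hG0 : 0 ≤ ε * G := by
          have : 0 < y / 2 := by positivity
          have : 0 ≤ G := by linarith
          positivity
        have := Real.pow_div_factorial_le_exp (ε * G) hG0 4
        simpa [Nat.factorial] using this
      have q2 : (ε * (y / 2)) ^ 4 ≤ (ε * G) ^ 4 := by
        apply pow_le_pow_left₀ (by positivity)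
        exact mul_le_mul_of_nonneg_left e5 hε.le
      have q3 : y ^ 4 = (2 / ε) ^ 4 * (ε * (y / 2)) ^ 4 := by
        field_simp
      rw [q3]
      have q4 : (ε * (y / 2)) ^ 4 ≤ 24 * Real.exp (ε * G) := by linarith
      have q5 : 0 ≤ (2 / ε) ^ 4 := by positivity
      nlinarith
    have e7 : Real.exp (-2 * Real.log ‖ζ‖) = y ^ 4 := by
      have : y ^ 4 = Real.exp (((4 : ℕ) : ℝ) * Real.log y) := by
        rw [Real.exp_nat_mul, Real.exp_log hypos]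
      rw [this, hylog]
      congr 1; push_cast; ring
    have e8 : Real.exp (Real.log C - 3 * Real.log (r ζ)) ≤
        Real.exp (Real.log C - Real.log cX + 1 / 12 * Real.log (8192 * C)) *
        Real.exp (-2 * Real.log ‖ζ‖) * (Real.exp (3 * Real.log (X (p - ζ • N))) *
        Real.exp (1 / 24 * Real.log (r ζ) + 3 / 2 * Real.log ‖ζ‖)) := by
      rw [← Real.exp_add, ← Real.exp_add, ← Real.exp_add]
      apply Real.exp_le_exp.mpr
      have e3' : Real.log cX - 71 / 24 * Real.log (r ζ) ≤ 3 * Real.log (X (p - ζ • N)) := e3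
      linarith
    refine e8.trans ?_
    rw [e7]
    rw [Real.exp_add (1 / 24 * Real.log (r ζ) + 3 / 2 * Real.log ‖ζ‖)]
    have e9 : 0 ≤ Real.exp (Real.log C - Real.log cX + 1 / 12 * Real.log (8192 * C)) *
        (Real.exp (3 * Real.log (X (p - ζ • N))) *
        Real.exp (1 / 24 * Real.log (r ζ) + 3 / 2 * Real.log ‖ζ‖)) := by positivity
    have := mul_le_mul_of_nonneg_left e6 e9
    calc _ = Real.exp (Real.log C - Real.log cX + 1 / 12 * Real.log (8192 * C)) *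
        (Real.exp (3 * Real.log (X (p - ζ • N))) *
        Real.exp (1 / 24 * Real.log (r ζ) + 3 / 2 * Real.log ‖ζ‖)) * y ^ 4 := by ring
      _ ≤ _ := this
      _ = _ := by ring
  -- exit bound
  obtain ⟨K₀, hK₀, hexit⟩ : ∃ K₀ : ℝ, 0 < K₀ ∧ ∀ ε : ℝ, 0 < ε → ∀ ζ ∈ S,
      (c₁ ≤ ‖ζ‖ ∨ C * r ζ ≤ |ζ.im| ^ 6) →
      VV Ω N v (p - ζ • N) ≤ K₀ * (X (p - ζ • N) ^ 3 * Pf ε ζ) := by
    refine ⟨max (Real.exp (Real.log C - Real.log cX + 1 / 12 * Real.log (8192 * C) -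
        2 * Real.log c₁)) (Real.exp (Real.log C - Real.log cX + 1 / 12 * Real.log (128 * C))),
        lt_max_of_lt_left (Real.exp_pos _), ?_⟩
    intro ε hε ζ hζ hor
    have hζ' := hζ
    obtain ⟨h1, h2, h3⟩ := hζ
    obtain ⟨k1, k2, -⟩ := fre ζ h1 h2
    have hz : 0 < ‖ζ‖ := norm_pos_iff.mpr k2
    have e5 := re_cpow_lower k2 k1
    have hG0 : 0 ≤ ε * (ζ ^ (-1 / 2 : ℂ)).re := by
      have : 0 < ‖ζ‖ ^ (-1 / 2 : ℝ) := Real.rpow_pos_of_pos hz _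
      have : 0 ≤ (ζ ^ (-1 / 2 : ℂ)).re := by linarith
      positivity
    have e3 : Real.log cX - 71 / 24 * Real.log (r ζ) ≤ 3 * Real.log (X (p - ζ • N)) := x1 ζ h1 h2
    have e4 := hflowlog ζ hζ'
    have hge0 : 0 ≤ X (p - ζ • N) ^ 3 * Pf ε ζ := by
      rw [hPfexp ε ζ hζ']
      have := hX0 (p - ζ • N)
      positivity
    rcases hor with hor | hor
    · refine le_trans ?_ (mul_le_mul_of_nonneg_right (le_max_left _ _) hge0)
      have e1 := v1 ζ (by linarith) h2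
      have e2 : C / (-ρ (p - ζ • N)) ^ 3 = Real.exp (Real.log C - 3 * Real.log (r ζ)) := by
        rw [Real.exp_sub, Real.exp_log hC0]
        congr 1
        have : 3 * Real.log (r ζ) = ((3 : ℕ) : ℝ) * Real.log (r ζ) := by norm_num
        rw [this, Real.exp_nat_mul, Real.exp_log h2]
      rw [e2] at e1
      refine e1.trans ?_
      rw [hPfexp ε ζ hζ', hXexp, ← Real.exp_add, ← Real.exp_add]
      apply Real.exp_le_exp.mpr
      have e6 : Real.log c₁ ≤ Real.log ‖ζ‖ := Real.log_le_log hc₁ hor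
      linarith
    · refine le_trans ?_ (mul_le_mul_of_nonneg_right (le_max_right _ _) hge0)
      have hne : ζ.im ≠ 0 := by
        intro h
        rw [h] at hor
        simp at hor
        nlinarith
      have him : 0 < |ζ.im| := abs_pos.mpr hne
      have e1 := v2 ζ (by linarith) h2 (by
        rw [le_div_iff₀ hC0]
        have : C * r ζ = -ρ (p - ζ • N) * C := by simp only [hr]; ring
        linarith)
      have e2 : C * |ζ.im| ^ 2 / (-ρ (p - ζ • N)) ^ 3 =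
          Real.exp (Real.log C + 2 * Real.log |ζ.im| - 3 * Real.log (r ζ)) := by
        rw [Real.exp_sub, Real.exp_add, Real.exp_log hC0]
        have a1 : 3 * Real.log (r ζ) = ((3 : ℕ) : ℝ) * Real.log (r ζ) := by norm_num
        have a2 : 2 * Real.log |ζ.im| = ((2 : ℕ) : ℝ) * Real.log |ζ.im| := by norm_num
        rw [a1, a2, Real.exp_nat_mul, Real.exp_nat_mul, Real.exp_log h2, Real.exp_log him]
      rw [e2] at e1
      refine e1.trans ?_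
      rw [hPfexp ε ζ hζ', hXexp, ← Real.exp_add, ← Real.exp_add]
      apply Real.exp_le_exp.mpr
      have e6 : 6 * Real.log |ζ.im| - Real.log (128 * C) ≤ Real.log (r ζ) := by
        have := Real.log_le_log (by positivity) h3
        rw [Real.log_mul (by positivity) h2.ne', Real.log_pow] at this
        push_cast at this
        linarith
      have e7 : Real.log |ζ.im| ≤ Real.log ‖ζ‖ :=
        Real.log_le_log him (Complex.abs_im_le_norm ζ)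
      linarith
  -- the step
  have hstep : ∀ ε : ℝ, 0 < ε → ∀ K : ℝ, 0 ≤ K →
      (∀ ζ ∈ S, VV Ω N v (p - ζ • N) ≤ K * (X (p - ζ • N) ^ 3 * Pf ε ζ)) →
      ∀ ζ : ℂ, ‖ζ‖ < c₁ → 0 < r ζ → |ζ.im| ^ 6 < C * r ζ →
      VV Ω N v (p - ζ • N) ≤ K * Real.exp (-(1 / 10 ^ 8)) * (X (p - ζ • N) ^ 3 * Pf ε ζ) := by
    intro ε hε K hK hKS ζ₀ hz₁ hr₀ him
    set r₀ : ℝ := r ζ₀ with hr₀def
    obtain ⟨κ, hκ, hκ2⟩ := g2 ζ₀ (by linarith)
    have hr₀le : r₀ ≤ 2 * c₁ := by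
      have h1 := (abs_le.mp (g1 ζ₀ (by linarith))).2
      have h2 : ζ₀.re ≤ ‖ζ₀‖ := Complex.re_le_norm ζ₀
      have h3 : C * ‖ζ₀‖ ^ 2 ≤ ‖ζ₀‖ := by
        have : C * ‖ζ₀‖ ≤ 1 := by
          have : C * ‖ζ₀‖ ≤ C * c₁ := by gcongr
          linarith
        nlinarith [norm_nonneg ζ₀]
      have h4 : r₀ = -ρ (p - ζ₀ • N) := rfl
      rw [h4]; linarith
    have hκ1 : ‖κ‖ ≤ 5 / 4 := by
      have : ‖κ‖ ≤ ‖κ - 1‖ + ‖(1 : ℂ)‖ := by
        have := norm_add_le (κ - 1) 1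
        simpa using this
      rw [norm_one] at this; linarith
    have hCr : C * r₀ ≤ 1 / 500 := by
      have : C * r₀ ≤ C * (2 * c₁) := by gcongr
      linarith
    -- lower bound of r in the disc of radius r₀/2
    have hlow : ∀ ξ : ℂ, ‖ξ‖ ≤ r₀ / 2 → r₀ / 4 ≤ r (ζ₀ + ξ) := by
      intro ξ hξ
      have h1 := (abs_le.mp (hκ2 ξ (by linarith))).1
      have h2 : |(κ * ξ).re| ≤ ‖κ * ξ‖ := Complex.abs_re_le_norm _
      rw [norm_mul] at h2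
      have h3 : ‖κ‖ * ‖ξ‖ ≤ 5 / 4 * (r₀ / 2) := by gcongr
      have h4 := (abs_le.mp h2).1
      have h5 : C * ‖ξ‖ ^ 2 ≤ r₀ / 1000 := by
        have : ‖ξ‖ ^ 2 ≤ (r₀ / 2) ^ 2 := pow_le_pow_left₀ (norm_nonneg _) hξ 2
        nlinarith
      have h6 : r (ζ₀ + ξ) = -ρ (p - (ζ₀ + ξ) • N) := rfl
      have h7 : r₀ = -ρ (p - ζ₀ • N) := rfl
      rw [h6]
      rw [← h7] at h1
      linarith
    obtain ⟨ρ₀, f, g, b, hρ₀, hch, hb, hXg⟩ := x2 ζ₀ hz₁ hr₀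
    have hz₀Ω : p - ζ₀ • N ∈ Ω := hΩρ _ (by
      have : 0 < -ρ (p - ζ₀ • N) := hr₀
      linarith)
    have hdisc : ∀ ζ : ℂ, ‖ζ‖ < r₀ / 2 → (p - ζ₀ • N) + ζ • N ∈ Ω := by
      intro ζ hζ
      have := hlow (-ζ) (by rw [norm_neg]; exact hζ.le)
      have e : (p - ζ₀ • N) + ζ • N = p - (ζ₀ + -ζ) • N := by
        rw [add_smul, neg_smul]; abel
      rw [e]
      apply hΩρ
      have h6 : r (ζ₀ + -ζ) = -ρ (p - (ζ₀ + -ζ) • N) := rfl
      rw [h6] at this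
      linarith
    -- circle points
    have hcirc : ∀ s : ℂ, ‖s‖ ≤ 1 → ‖-(((1 / 300 * r₀ : ℝ) : ℂ) * s)‖ ≤ 1 / 300 * r₀ := by
      intro s hs
      rw [norm_neg, norm_mul, Complex.norm_real, Real.norm_eq_abs, abs_of_pos (by positivity)]
      calc 1 / 300 * r₀ * ‖s‖ ≤ 1 / 300 * r₀ * 1 := by gcongr
        _ = _ := mul_one _
    have hinS : ∀ ξ : ℂ, ‖ξ‖ ≤ 1 / 300 * r₀ → ζ₀ + ξ ∈ S := by
      intro ξ hξ
      have hlow1 := hlow ξ (by linarith)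
      -- sharper lower bound
      have hl2 : r₀ / 2 ≤ r (ζ₀ + ξ) := by
        have h1 := (abs_le.mp (hκ2 ξ (by linarith))).1
        have h2 : |(κ * ξ).re| ≤ ‖κ * ξ‖ := Complex.abs_re_le_norm _
        rw [norm_mul] at h2
        have h3 : ‖κ‖ * ‖ξ‖ ≤ 5 / 4 * (1 / 300 * r₀) := by gcongr
        have h4 := (abs_le.mp h2).1
        have h5 : C * ‖ξ‖ ^ 2 ≤ r₀ / 1000 := by
          have : ‖ξ‖ ^ 2 ≤ (1 / 300 * r₀) ^ 2 := pow_le_pow_left₀ (norm_nonneg _) hξ 2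
          nlinarith
        have h6 : r (ζ₀ + ξ) = -ρ (p - (ζ₀ + ξ) • N) := rfl
        have h7 : r₀ = -ρ (p - ζ₀ • N) := rfl
        rw [h6]
        rw [← h7] at h1
        linarith
      refine ⟨?_, by linarith, ?_⟩
      · calc ‖ζ₀ + ξ‖ ≤ ‖ζ₀‖ + ‖ξ‖ := norm_add_le _ _
          _ < c₁ + c₁ := by
            have : ‖ξ‖ ≤ c₁ := by linarith
            linarith
          _ = 2 * c₁ := by ring
      · have h1 : |(ζ₀ + ξ).im| ≤ |ζ₀.im| + 1 / 300 * r₀ := by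
          rw [Complex.add_im]
          have := abs_add_le ζ₀.im ξ.im
          have h2 : |ξ.im| ≤ ‖ξ‖ := Complex.abs_im_le_norm ξ
          linarith
        have h2 : |(ζ₀ + ξ).im| ^ 6 ≤ (|ζ₀.im| + 1 / 300 * r₀) ^ 6 :=
          pow_le_pow_left₀ (abs_nonneg _) h1 6
        have h3 := add_pow_le (abs_nonneg ζ₀.im) (by positivity : 0 ≤ 1 / 300 * r₀) 6
        have h4 : (1 / 300 * r₀) ^ 6 ≤ C * r₀ := by
          have a1 : 1 / 300 * r₀ ≤ 1 := by linarith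
          have a2 : (1 / 300 * r₀) ^ 6 ≤ (1 / 300 * r₀) ^ 1 :=
            pow_le_pow_of_le_one (by positivity) a1 (by norm_num)
          rw [pow_one] at a2
          nlinarith
        norm_num at h3
        have h5 : C * r₀ ≤ 2 * C * r (ζ₀ + ξ) := by nlinarith
        linarith
    have hsl : ∀ s : ℂ, ‖s‖ ≤ 1 → ζ₀ + -(((1 / 300 * r₀ : ℝ) : ℂ) * s) ∈ Complex.slitPlane := by
      intro s hs
      have := hinS _ (hcirc s hs)
      exact (fre _ this.1 this.2.1).2.2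
    obtain ⟨h, hdc, hbig, hcen⟩ := circle_fn (ε := ε) (ζ₀ := ζ₀) (κ := κ) (r₀ := r₀) (C := C)
      hr₀ hκ hC (by linarith) (R := fun ξ => r (ζ₀ + ξ)) (by
        intro ξ hξ
        refine ⟨(hinS ξ hξ.le).2.1, ?_⟩
        have h1 := (abs_le.mp (hκ2 ξ (by rw [hξ]; linarith))).2
        have h6 : r (ζ₀ + ξ) = -ρ (p - (ζ₀ + ξ) • N) := rfl
        have h7 : r₀ = -ρ (p - ζ₀ • N) := rfl
        rw [← h7, ← h6] at h1
        linarith) hsl
    have hls := local_step VC HD hΩ hN hv hNv hD0 hD hρ₀ hz₀Ω hch hr₀ hdisc hX0 hb hXg hK hdc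
      (by
        intro s hs
        have e : (p - ζ₀ • N) + (((1 / 300 * r₀ : ℝ) : ℂ) * s) • N =
            p - (ζ₀ + -(((1 / 300 * r₀ : ℝ) : ℂ) * s)) • N := by
          rw [add_smul, neg_smul]; abel
        rw [e]
        refine (hKS _ (hinS _ (hcirc s hs.le))).trans ?_
        rw [← mul_assoc]
        apply mul_le_mul_of_nonneg_left (hbig s hs)
        have := hX0 (p - (ζ₀ + -(((1 / 300 * r₀ : ℝ) : ℂ) * s)) • N)
        positivity)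
    refine hls.trans ?_
    have hXp := hX0 (p - ζ₀ • N)
    have h1 : K * X (p - ζ₀ • N) ^ 3 * Real.exp (h 0).re ≤ K * X (p - ζ₀ • N) ^ 3 *
        (Pf ε ζ₀ * Real.exp (-(1 / (240 * 90000)))) := by
      apply mul_le_mul_of_nonneg_left hcen (by positivity)
    refine (mul_le_mul_of_nonneg_right h1 (Real.exp_pos _).le).trans ?_
    have h2 : Real.exp (-(1 / (240 * 90000))) *
        Real.exp (3 * (1 / 10 ^ 9) + 50 * (1 / 300) ^ 4 + 5 / 10 ^ 9) ≤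
        Real.exp (-(1 / 10 ^ 8)) := by
      rw [← Real.exp_add]
      apply Real.exp_le_exp.mpr
      norm_num
    have h3 : 0 ≤ Pf ε ζ₀ := by
      simp only [hPf]
      positivity
    calc K * X (p - ζ₀ • N) ^ 3 * (Pf ε ζ₀ * Real.exp (-(1 / (240 * 90000)))) *
        Real.exp (3 * (1 / 10 ^ 9) + 50 * (1 / 300) ^ 4 + 5 / 10 ^ 9)
        = (K * X (p - ζ₀ • N) ^ 3 * Pf ε ζ₀) * (Real.exp (-(1 / (240 * 90000))) *
        Real.exp (3 * (1 / 10 ^ 9) + 50 * (1 / 300) ^ 4 + 5 / 10 ^ 9)) := by ring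
      _ ≤ (K * X (p - ζ₀ • N) ^ 3 * Pf ε ζ₀) * Real.exp (-(1 / 10 ^ 8)) :=
          mul_le_mul_of_nonneg_left h2 (by positivity)
      _ = _ := by ring
  -- iteration
  have hfin : ∀ ε : ℝ, 0 < ε → ∀ ζ ∈ S,
      VV Ω N v (p - ζ • N) ≤ K₀ * (X (p - ζ • N) ^ 3 * Pf ε ζ) := by
    intro ε hε
    obtain ⟨K, hK, hKS⟩ := hprior ε hε
    set δ : ℝ := Real.exp (-(1 / 10 ^ 8)) with hδ
    have hδ0 : 0 < δ := Real.exp_pos _
    have hδ1 : δ < 1 := by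
      rw [hδ, Real.exp_lt_one_iff]; norm_num
    have hind : ∀ j : ℕ, ∀ ζ ∈ S, VV Ω N v (p - ζ • N) ≤
        max K₀ (K * δ ^ j) * (X (p - ζ • N) ^ 3 * Pf ε ζ) := by
      intro j
      induction j with
      | zero =>
        intro ζ hζ
        have hge0 : 0 ≤ X (p - ζ • N) ^ 3 * Pf ε ζ := by
          rw [hPfexp ε ζ hζ]
          have := hX0 (p - ζ • N)
          positivity
        refine (hKS ζ hζ).trans ?_
        apply mul_le_mul_of_nonneg_right _ hge0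
        simp
      | succ j ih =>
        intro ζ hζ
        have hge0 : 0 ≤ X (p - ζ • N) ^ 3 * Pf ε ζ := by
          rw [hPfexp ε ζ hζ]
          have := hX0 (p - ζ • N)
          positivity
        by_cases hcase : c₁ ≤ ‖ζ‖ ∨ C * r ζ ≤ |ζ.im| ^ 6
        · refine (hexit ε hε ζ hζ hcase).trans ?_
          exact mul_le_mul_of_nonneg_right (le_max_left _ _) hge0
        · push Not at hcase
          have := hstep ε hε _ (le_max_of_le_left hK₀.le) ih ζ hcase.1 hζ.2.1 hcase.2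
          refine this.trans ?_
          apply mul_le_mul_of_nonneg_right _ hge0
          rw [max_mul_of_nonneg _ _ hδ0.le]
          apply max_le_max
          · nlinarith
          · rw [pow_succ]; linarith [mul_assoc K (δ ^ j) δ]
    intro ζ hζ
    obtain ⟨j, hj⟩ : ∃ j : ℕ, K * δ ^ j < K₀ := by
      have ht : Filter.Tendsto (fun j : ℕ => K * δ ^ j) Filter.atTop (nhds (K * 0)) :=
        (tendsto_pow_atTop_nhds_zero_of_lt_one hδ0.le hδ1).const_mul K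
      rw [mul_zero] at ht
      exact (ht.eventually_lt_const hK₀).exists
    have := hind j ζ hζ
    rwa [max_eq_left hj.le] at this
  refine ⟨K₀, hK₀, ?_⟩
  intro t ht0 htc htr
  have hnt : ‖(t : ℂ)‖ = t := by rw [Complex.norm_real, Real.norm_eq_abs, abs_of_pos ht0]
  have htS : (t : ℂ) ∈ S := by
    refine ⟨by rw [hnt]; linarith, htr, ?_⟩
    have : (t : ℂ).im = 0 := Complex.ofReal_im t
    rw [this]
    have h0 : 0 < r (t : ℂ) := htr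
    simp
    positivity
  have hlim : Filter.Tendsto (fun ε : ℝ => K₀ * (X (p - (t : ℂ) • N) ^ 3 * Pf ε (t : ℂ)))
      (nhdsWithin 0 (Ioi 0)) (nhds (K₀ * (X (p - (t : ℂ) • N) ^ 3 * Pf 0 (t : ℂ)))) := by
    apply Filter.Tendsto.mono_left _ nhdsWithin_le_nhds
    have : Continuous (fun ε : ℝ => K₀ * (X (p - (t : ℂ) • N) ^ 3 * Pf ε (t : ℂ))) := by
      simp only [hPf]
      fun_prop
    exact this.tendsto 0
  have hle := ge_of_tendsto hlim (by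
    filter_upwards [self_mem_nhdsWithin] with ε hε
    exact hfin ε hε _ htS)
  refine hle.trans (le_of_eq ?_)
  simp only [hPf, hnt, zero_mul, Real.exp_zero, mul_one]
  ring

end Sqz
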